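import Pool.Agent.Helper2_Pack.Stmts3

/-!
# S2: motions
-/

namespace Pool.Agent.Helper2_Pack

open MeasureTheory Set

theorem Motion.conj_mul (g : Motion) : (starRingEnd ℂ) g.u * g.u = 1 := by
  rw [mul_comm, Complex.mul_conj, Complex.normSq_eq_norm_sq, g.unit]
  simp

theorem Motion.mul_conj' (g : Motion) : g.u * (starRingEnd ℂ) g.u = 1 := by
  rw [mul_comm, g.conj_mul]

/-- a motion as a homeomorphism -/
def Motion.homeo (g : Motion) : ℂ ≃ₜ ℂ where
  toFun := g.app
  invFun := fun z => (starRingEnd ℂ) g.u * (z - g.v)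
  left_inv := fun z => by
    show (starRingEnd ℂ) g.u * (g.u * z + g.v - g.v) = z
    rw [add_sub_cancel_right, ← mul_assoc, g.conj_mul, one_mul]
  right_inv := fun z => by
    show g.u * ((starRingEnd ℂ) g.u * (z - g.v)) + g.v = z
    rw [← mul_assoc, g.mul_conj', one_mul, sub_add_cancel]
  continuous_toFun := by
    show Continuous (fun z => g.u * z + g.v)
    fun_prop
  continuous_invFun := by
    show Continuous (fun z => (starRingEnd ℂ) g.u * (z - g.v))
    fun_prop

theorem Motion.mem_image (g : Motion) (S : Set ℂ) (z : ℂ) :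
    z ∈ g.app '' S ↔ (starRingEnd ℂ) g.u * (z - g.v) ∈ S := by
  constructor
  · rintro ⟨w, hw, rfl⟩
    have : (starRingEnd ℂ) g.u * (g.app w - g.v) = w := g.homeo.left_inv w
    rwa [this]
  · intro h
    exact ⟨_, h, g.homeo.right_inv z⟩

/-- the rotation as a linear isometry -/
noncomputable def Motion.rot (g : Motion) : ℂ ≃ₗᵢ[ℝ] ℂ :=
  rotation ⟨g.u, mem_sphere_zero_iff_norm.2 g.unit⟩

theorem Motion.rot_apply (g : Motion) (z : ℂ) : g.rot z = g.u * z := rfl

theorem Motion.measurePreserving (g : Motion) : MeasurePreserving g.app := by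
  have h1 : MeasurePreserving (fun z : ℂ => g.u * z) := g.rot.measurePreserving
  have h2 : MeasurePreserving (fun z : ℂ => z + g.v) := measurePreserving_add_right volume g.v
  exact h2.comp h1

theorem Motion.volume_image (g : Motion) (S : Set ℂ) : volume (g.app '' S) = volume S := by
  have h1 : MeasurePreserving g.homeo.toMeasurableEquiv := g.measurePreserving
  have h2 := h1.symm
  have e : g.app '' S = g.homeo.toMeasurableEquiv.symm ⁻¹' S := by
    ext z
    rw [g.mem_image]
    rfl
  rw [e]
  exact h2.measure_preimage_equiv S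

/-- S2 -/
theorem s2 : S2Stmt := fun g S =>
  ⟨(g.homeo.image_interior S).symm, (g.homeo.image_closure S).symm,
    (g.homeo.image_frontier S).symm, g.volume_image S, fun z => g.mem_image S z⟩

end Pool.Agent.Helper2_Pack
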