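import Pool.Agent.Helper2_Pack.S3

/-!
# S4: basic facts on the container
-/

namespace Pool.Agent.Helper2_Pack

open MeasureTheory Set

theorem Small.le {q : ℝ} {G : Layout} (h : Small q G) : q ≤ 1 / 2 ^ 60 := by
  have h1 := h.small
  have h2 : (2 : ℝ) ^ 60 ≤ 2 ^ (8 * G.K + 60) := pow_le_pow_right₀ (by norm_num) (by omega)
  rw [le_div_iff₀ (by positivity)]
  exact (mul_le_mul_of_nonneg_left h2 h.pos.le).trans h1

theorem marks_range (a : Col) : ∀ p ∈ a.marks, 10 ≤ p ∧ p ≤ 29 := by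
  cases a <;> decide

/-! ### Local functions at the ends of a column -/

theorem locFloor_nonneg (q : ℝ) (a : Col) (x : ℝ) : 0 ≤ locFloor q a x := le_tents _ _ _

theorem locFloor_le {q : ℝ} (hq : 0 < q) (a : Col) (x : ℝ) : locFloor q a x ≤ q := by
  refine tents_le' hq.le ?_
  intro d hd
  obtain ⟨p, _, rfl⟩ := List.mem_map.1 hd
  exact le_rfl

theorem locFloor_end {q : ℝ} (hq1 : q ≤ 1 / 1000) (a : Col) {x : ℝ} (h : x ≤ 0 ∨ 1 ≤ x) :
    locFloor q a x = 0 := by
  refine tents_eq ?_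
  intro d hd
  obtain ⟨p, hp, rfl⟩ := List.mem_map.1 hd
  obtain ⟨h1, h2⟩ := marks_range a p hp
  have h1' : (10 : ℝ) ≤ p := by exact_mod_cast h1
  have h2' : (p : ℝ) ≤ 29 := by exact_mod_cast h2
  have : 1 / 32 ≤ |x - (p : ℝ) / 32| := by
    rcases h with h | h
    · exact le_abs.2 (Or.inr (by linarith))
    · exact le_abs.2 (Or.inl (by linarith))
  show q - |x - (p : ℝ) / 32| ≤ 0
  linarith

/-- the conditions on the kind of a ceiling -/
def Top.Fine : Top → Prop
  | .flat _ o => o = -1 ∨ o = 0 ∨ o = 1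
  | _ => True

theorem locCeil_lower {q : ℝ} (hq : 0 < q) {t : Top} (ht : t.Fine) {x : ℝ}
    (h0 : 0 ≤ x) (h1 : x ≤ 1) : -q ^ 4 ≤ locCeil q t x := by
  have h3 : 0 < q ^ 3 := by positivity
  have h4 : 0 < q ^ 4 := by positivity
  cases t with
  | flat a o =>
    refine le_trans ?_ (le_max_left _ _)
    have hm0 : 0 ≤ min 1 (min (x / (4 * q ^ 3)) ((1 - x) / (4 * q ^ 3))) :=
      le_min zero_le_one (le_min (by positivity) (div_nonneg (by linarith) (by positivity)))
    have hm1 : min 1 (min (x / (4 * q ^ 3)) ((1 - x) / (4 * q ^ 3))) ≤ 1 := min_le_left _ _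
    rcases ht with rfl | rfl | rfl
    · push_cast
      nlinarith
    · push_cast
      nlinarith
    · push_cast
      nlinarith
  | portL σ =>
    refine le_trans ?_ ((le_max_left _ _).trans (le_max_left _ _))
    have : 0 ≤ min 1 (x / (4 * q ^ 3)) := le_min zero_le_one (by positivity)
    have : 0 ≤ q ^ 3 * min 1 (x / (4 * q ^ 3)) := by positivity
    linarith
  | portR σ =>
    refine le_trans ?_ ((le_max_left _ _).trans (le_max_left _ _))
    have : 0 ≤ min 1 ((1 - x) / (4 * q ^ 3)) :=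
      le_min zero_le_one (div_nonneg (by linarith) (by positivity))
    have : 0 ≤ q ^ 3 * min 1 ((1 - x) / (4 * q ^ 3)) := by positivity
    linarith

/-- the value of the ceiling at the left end of a column -/
noncomputable def Top.vL (q : ℝ) : Top → ℝ
  | .portR _ => 1 + q ^ 3
  | _ => 0

/-- the value of the ceiling at the right end of a column -/
noncomputable def Top.vR (q : ℝ) : Top → ℝ
  | .portL _ => 1 + q ^ 3
  | _ => 0

theorem tents_marks_end {g h : ℝ} (L : List ℕ) (hL : ∀ p ∈ L, 10 ≤ p ∧ p ≤ 29) {x : ℝ}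
    (hx : x ≤ 0 ∨ 1 ≤ x) (hg : h - 1 / 32 ≤ g) :
    tents g (L.map fun p : ℕ => ((p : ℝ) / 32, h)) x = g := by
  refine tents_eq ?_
  intro d hd
  obtain ⟨p, hp, rfl⟩ := List.mem_map.1 hd
  obtain ⟨h1, h2⟩ := hL p hp
  have h1' : (10 : ℝ) ≤ p := by exact_mod_cast h1
  have h2' : (p : ℝ) ≤ 29 := by exact_mod_cast h2
  have : 1 / 32 ≤ |x - (p : ℝ) / 32| := by
    rcases hx with h | h
    · exact le_abs.2 (Or.inr (by linarith))
    · exact le_abs.2 (Or.inl (by linarith))
  show h - |x - (p : ℝ) / 32| ≤ g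
  linarith

theorem tents_marks_end' {g h : ℝ} (L : List ℕ) (hL : ∀ p ∈ L, 10 ≤ p ∧ p ≤ 29) {x : ℝ}
    (hx : x ≤ 0 ∨ 1 ≤ x) (hg : g ≤ 0) (hh : h - 1 / 32 ≤ 0) :
    tents g (L.map fun p : ℕ => ((p : ℝ) / 32, h)) x ≤ 0 := by
  refine tents_le hg ?_
  intro d hd
  obtain ⟨p, hp, rfl⟩ := List.mem_map.1 hd
  obtain ⟨h1, h2⟩ := hL p hp
  have h1' : (10 : ℝ) ≤ p := by exact_mod_cast h1
  have h2' : (p : ℝ) ≤ 29 := by exact_mod_cast h2
  have : 1 / 32 ≤ |x - (p : ℝ) / 32| := by
    rcases hx with h | h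
    · exact le_abs.2 (Or.inr (by linarith))
    · exact le_abs.2 (Or.inl (by linarith))
  show h - |x - (p : ℝ) / 32| ≤ 0
  linarith

theorem filter_range (a : Col) (P : ℕ → Bool) : ∀ p ∈ a.marks.filter P, 10 ≤ p ∧ p ≤ 29 :=
  fun p hp => marks_range a p (List.mem_of_mem_filter hp)

theorem locCeil_left {q : ℝ} (hq : 0 < q) (hq1 : q ≤ 1 / 1000) {t : Top} (ht : t.Fine) :
    locCeil q t 0 = t.vL q := by
  have h3 : 0 < q ^ 3 := by positivity
  have h3' := cube_small hq hq1
  have h4 : 0 < q ^ 4 := by positivity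
  have h4' : q ^ 4 ≤ q ^ 3 := by nlinarith
  cases t with
  | flat a o =>
    show max (o * q ^ 4 * min 1 (min (0 / (4 * q ^ 3)) ((1 - 0) / (4 * q ^ 3)))) _ = 0
    have e : min 1 (min (0 / (4 * q ^ 3)) ((1 - 0) / (4 * q ^ 3))) = 0 := by
      rw [zero_div, min_eq_left (by positivity : (0:ℝ) ≤ (1 - 0) / (4 * q ^ 3))]
      exact min_eq_right zero_le_one
    rw [e, mul_zero]
    refine max_eq_left (tents_marks_end' _ (marks_range a) (Or.inl le_rfl) ?_ ?_)
    · rcases ht with rfl | rfl | rfl <;> push_cast <;> linarith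
    · rcases ht with rfl | rfl | rfl <;> push_cast <;> linarith
  | portL σ =>
    show max (max (q ^ 3 * min 1 (0 / (4 * q ^ 3))) _) (min (1 + q ^ 3) (q ^ 3 + (0 - 1 / 2 + 2 * q ^ 3) / q ^ 3)) = 0
    rw [zero_div, min_eq_right (zero_le_one' ℝ), mul_zero,
      tents_marks_end _ (filter_range _ _) (Or.inl le_rfl) (by linarith), max_self]
    refine max_eq_left ((min_le_right _ _).trans ?_)
    have : (0 - 1 / 2 + 2 * q ^ 3) / q ^ 3 ≤ -1 := by
      rw [div_le_iff₀ h3]
      linarith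
    linarith
  | portR σ =>
    show max (max (q ^ 3 * min 1 ((1 - 0) / (4 * q ^ 3))) _) (min (min (1 + q ^ 3)
      (q ^ 3 + (1 / 2 + 2 * q ^ 3 - 0) / q ^ 3)) (piv q σ + (1 + q ^ 3 - piv q σ) * |0 - 4 / 32| / q ^ 3))
      = 1 + q ^ 3
    have e1 : 1 ≤ (1 / 2 + 2 * q ^ 3 - 0) / q ^ 3 := by
      rw [le_div_iff₀ h3]
      linarith
    have h6 := piv_upper hq σ
    have e2 : (1 + q ^ 3 - piv q σ) ≤ (1 + q ^ 3 - piv q σ) * |0 - 4 / 32| / q ^ 3 := by
      rw [le_div_iff₀ h3]
      refine mul_le_mul_of_nonneg_left ?_ (by linarith)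
      rw [abs_of_neg (by norm_num)]
      linarith
    have e3 : min (min (1 + q ^ 3) (q ^ 3 + (1 / 2 + 2 * q ^ 3 - 0) / q ^ 3))
        (piv q σ + (1 + q ^ 3 - piv q σ) * |0 - 4 / 32| / q ^ 3) = 1 + q ^ 3 := by
      rw [min_eq_left (a := 1 + q ^ 3) (by linarith), min_eq_left (by linarith)]
    rw [e3]
    refine max_eq_right (max_le ?_ ?_)
    · have : min 1 ((1 - 0) / (4 * q ^ 3)) ≤ 1 := min_le_left _ _
      nlinarith
    · rw [tents_marks_end _ (filter_range _ _) (Or.inl le_rfl) (by linarith)]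
      linarith

theorem locCeil_right {q : ℝ} (hq : 0 < q) (hq1 : q ≤ 1 / 1000) {t : Top} (ht : t.Fine) :
    locCeil q t 1 = t.vR q := by
  have h3 : 0 < q ^ 3 := by positivity
  have h3' := cube_small hq hq1
  have h4 : 0 < q ^ 4 := by positivity
  have h4' : q ^ 4 ≤ q ^ 3 := by nlinarith
  cases t with
  | flat a o =>
    show max (o * q ^ 4 * min 1 (min (1 / (4 * q ^ 3)) ((1 - 1) / (4 * q ^ 3)))) _ = 0
    have e : min 1 (min (1 / (4 * q ^ 3)) ((1 - 1) / (4 * q ^ 3))) = 0 := by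
      rw [sub_self, zero_div, min_eq_right (by positivity : (0:ℝ) ≤ 1 / (4 * q ^ 3))]
      exact min_eq_right zero_le_one
    rw [e, mul_zero]
    refine max_eq_left (tents_marks_end' _ (marks_range a) (Or.inr le_rfl) ?_ ?_)
    · rcases ht with rfl | rfl | rfl <;> push_cast <;> linarith
    · rcases ht with rfl | rfl | rfl <;> push_cast <;> linarith
  | portL σ =>
    show max (max (q ^ 3 * min 1 (1 / (4 * q ^ 3))) _)
      (min (1 + q ^ 3) (q ^ 3 + (1 - 1 / 2 + 2 * q ^ 3) / q ^ 3)) = 1 + q ^ 3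
    have e1 : 1 ≤ (1 - 1 / 2 + 2 * q ^ 3) / q ^ 3 := by
      rw [le_div_iff₀ h3]
      linarith
    rw [min_eq_left (a := 1 + q ^ 3) (by linarith),
      tents_marks_end _ (filter_range _ _) (Or.inr le_rfl) (by linarith)]
    refine max_eq_right (max_le ?_ (by linarith))
    have : min 1 (1 / (4 * q ^ 3)) ≤ 1 := min_le_left _ _
    nlinarith
  | portR σ =>
    show max (max (q ^ 3 * min 1 ((1 - 1) / (4 * q ^ 3))) _) (min (min (1 + q ^ 3)
      (q ^ 3 + (1 / 2 + 2 * q ^ 3 - 1) / q ^ 3)) _) = 0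
    rw [sub_self, zero_div, min_eq_right (zero_le_one' ℝ), mul_zero,
      tents_marks_end _ (filter_range _ _) (Or.inr le_rfl) (by linarith), max_self]
    refine max_eq_left ((min_le_left _ _).trans ((min_le_right _ _).trans ?_))
    have : (1 / 2 + 2 * q ^ 3 - 1) / q ^ 3 ≤ -1 := by
      rw [div_le_iff₀ h3]
      linarith
    linarith

theorem Layout.OK.fine {G : Layout} (h : G.OK) (c : ℕ) : (G.top c).Fine := by
  by_cases hc : c < G.M
  · cases ht : G.top c with
    | flat a o => exact (h.flat c a o hc ht).2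
    | portL σ => trivial
    | portR σ => trivial
  · rw [h.out c (not_lt.1 hc)]
    exact Or.inr (Or.inl rfl)

/-- the ceilings fit together -/
theorem Layout.OK.vLR {G : Layout} (h : G.OK) (q : ℝ) {c : ℕ} (hc : c < G.M) :
    (G.top c).vR q = (G.top (c + 1)).vL q := by
  cases ht : G.top c with
  | portL σ =>
    rw [(h.portL c σ hc ht).2]
    rfl
  | flat a o =>
    by_cases hc' : c + 1 < G.M
    · cases ht' : G.top (c + 1) with
      | portR σ =>
        have := (h.portR (c + 1) σ hc' ht').2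
        rw [Nat.add_sub_cancel, ht] at this
        cases this
      | _ => rfl
    · rw [h.out _ (not_lt.1 hc')]
      rfl
  | portR σ =>
    by_cases hc' : c + 1 < G.M
    · cases ht' : G.top (c + 1) with
      | portR σ' =>
        have := (h.portR (c + 1) σ' hc' ht').2
        rw [Nat.add_sub_cancel, ht] at this
        cases this
      | _ => rfl
    · rw [h.out _ (not_lt.1 hc')]
      rfl

theorem Layout.OK.left_ne {G : Layout} (h : G.OK) (q : ℝ) : (G.top 0).vL q = 0 := by
  cases ht : G.top 0 with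
  | portR σ =>
    exact absurd (h.portR 0 σ h.pos ht).1 (lt_irrefl _)
  | _ => rfl

theorem floor_cases {c : ℕ} {x : ℝ} (h0 : (c : ℝ) ≤ x) (h1 : x ≤ c + 1) :
    ⌊x⌋₊ = c ∨ (⌊x⌋₊ = c + 1 ∧ x = c + 1) := by
  rcases lt_or_eq_of_le h1 with h | h
  · left
    exact (Nat.floor_eq_iff (le_trans (Nat.cast_nonneg _) h0)).2 ⟨h0, h⟩
  · right
    refine ⟨?_, h⟩
    rw [h]
    have : ((c : ℝ) + 1) = ((c + 1 : ℕ) : ℝ) := by push_cast; ring
    rw [this, Nat.floor_natCast]

variable {q : ℝ} {G : Layout}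

theorem floorF_eq (hq1 : q ≤ 1 / 1000) {c : ℕ} {x : ℝ} (h0 : (c : ℝ) ≤ x) (h1 : x ≤ c + 1) :
    G.floorF q x = locFloor q (G.ty c 0).bot (x - c) := by
  unfold Layout.floorF
  rcases floor_cases h0 h1 with h | ⟨h, h'⟩
  · rw [h]
  · rw [h, locFloor_end hq1 _ (Or.inl (by rw [h']; push_cast; linarith)),
      locFloor_end hq1 _ (Or.inr (by rw [h']; linarith))]

theorem ceilF_eq (hG : G.OK) (hq : 0 < q) (hq1 : q ≤ 1 / 1000) {c : ℕ} (hc : c < G.M) {x : ℝ}
    (h0 : (c : ℝ) ≤ x) (h1 : x ≤ c + 1) :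
    G.ceilF q x = G.N + locCeil q (G.top c) (x - c) := by
  unfold Layout.ceilF
  rcases floor_cases h0 h1 with h | ⟨h, h'⟩
  · rw [h]
  · rw [h]
    congr 1
    have e1 : x - ((c + 1 : ℕ) : ℝ) = 0 := by rw [h']; push_cast; ring
    have e2 : x - (c : ℝ) = 1 := by rw [h']; ring
    rw [e1, e2, locCeil_left hq hq1 (hG.fine _), locCeil_right hq hq1 (hG.fine _), hG.vLR q hc]

theorem floorF_nonneg (x : ℝ) : 0 ≤ G.floorF q x := locFloor_nonneg _ _ _

theorem floorF_le (hq : 0 < q) (x : ℝ) : G.floorF q x ≤ q := locFloor_le hq _ _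

theorem ceilF_lower (hG : G.OK) (hq : 0 < q) {x : ℝ} (h0 : 0 ≤ x) :
    G.N - q ^ 4 ≤ G.ceilF q x := by
  unfold Layout.ceilF
  have h1 := Nat.floor_le h0
  have h2 := Nat.lt_floor_add_one x
  have := locCeil_lower hq (hG.fine ⌊x⌋₊) (x := x - ⌊x⌋₊) (by linarith) (by linarith)
  linarith

theorem measurable_tents (g : ℝ) (L : List (ℝ × ℝ)) : Measurable (tents g L) :=
  (continuous_tents g L).measurable

theorem measurable_locCeil (q : ℝ) (t : Top) : Measurable (locCeil q t) := by
  cases t with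
  | flat a o =>
    have := measurable_tents (o * q ^ 4 - 1)
      (a.marks.map fun p : ℕ => ((p : ℝ) / 32, o * q ^ 4 + q + q ^ 3))
    show Measurable (fun x => max _ _)
    refine Measurable.max ?_ this
    exact (by fun_prop : Continuous (fun x : ℝ =>
      (o : ℝ) * q ^ 4 * min 1 (min (x / (4 * q ^ 3)) ((1 - x) / (4 * q ^ 3))))).measurable
  | portL σ =>
    refine Measurable.max (Measurable.max ?_ (measurable_tents _ _)) ?_
    · exact (by fun_prop : Continuous (fun x : ℝ => q ^ 3 * min 1 (x / (4 * q ^ 3)))).measurable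
    · exact (by fun_prop : Continuous (fun x : ℝ =>
        min (1 + q ^ 3) (q ^ 3 + (x - 1 / 2 + 2 * q ^ 3) / q ^ 3))).measurable
  | portR σ =>
    refine Measurable.max (Measurable.max ?_ (measurable_tents _ _)) ?_
    · exact (by fun_prop : Continuous (fun x : ℝ =>
        q ^ 3 * min 1 ((1 - x) / (4 * q ^ 3)))).measurable
    · exact (by fun_prop : Continuous (fun x : ℝ =>
        min (min (1 + q ^ 3) (q ^ 3 + (1 / 2 + 2 * q ^ 3 - x) / q ^ 3))
          (piv q σ + (1 + q ^ 3 - piv q σ) * |x - 4 / 32| / q ^ 3))).measurable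

theorem measurable_of_floor (f : ℕ → ℝ → ℝ) (hf : ∀ k, Measurable (f k)) :
    Measurable (fun x : ℝ => f ⌊x⌋₊ x) := by
  have : (fun x : ℝ => f ⌊x⌋₊ x) = (fun p : ℕ × ℝ => f p.1 p.2) ∘ (fun x : ℝ => (⌊x⌋₊, x)) := rfl
  rw [this]
  exact (measurable_from_prod_countable_right (fun k => hf k)).comp
    (Nat.measurable_floor.prodMk measurable_id)

theorem measurable_floorF : Measurable (G.floorF q) :=
  measurable_of_floor (fun k x => locFloor q (G.ty k 0).bot (x - k))
    (fun k => (measurable_tents _ _).comp (measurable_id.sub_const _))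

theorem measurable_ceilF : Measurable (G.ceilF q) :=
  measurable_of_floor (fun k x => G.N + locCeil q (G.top k) (x - k))
    (fun k => ((measurable_locCeil q _).comp (measurable_id.sub_const _)).const_add _)

theorem measurableSet_cont : MeasurableSet (G.cont q) := by
  have hr := Complex.measurable_re
  have hi := Complex.measurable_im
  refine MeasurableSet.union ?_ ?_
  · exact (measurableSet_le measurable_const hr).inter ((measurableSet_le hr measurable_const).inter
      ((measurableSet_le (measurable_floorF.comp hr) hi).inter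
        (measurableSet_le hi (measurable_ceilF.comp hr))))
  · refine MeasurableSet.inter (MeasurableSet.union ?_ ?_) ?_
    · exact (measurableSet_le measurable_const hr).inter (measurableSet_le hr measurable_const)
    · exact (measurableSet_le measurable_const hr).inter (measurableSet_le hr measurable_const)
    · have e : {z : ℂ | ∃ r : ℕ, r < G.N ∧ r % 2 = 1 ∧ (r : ℝ) ≤ z.im ∧ z.im ≤ r + 1} =
          ⋃ r : ℕ, {z : ℂ | r < G.N ∧ r % 2 = 1 ∧ (r : ℝ) ≤ z.im ∧ z.im ≤ r + 1} := by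
        ext z
        simp
      show MeasurableSet {z : ℂ | ∃ r : ℕ, r < G.N ∧ r % 2 = 1 ∧ (r : ℝ) ≤ z.im ∧ z.im ≤ r + 1}
      rw [e]
      refine MeasurableSet.iUnion (fun r => ?_)
      by_cases h : r < G.N ∧ r % 2 = 1
      · have e2 : {z : ℂ | r < G.N ∧ r % 2 = 1 ∧ (r : ℝ) ≤ z.im ∧ z.im ≤ r + 1} =
            {z : ℂ | (r : ℝ) ≤ z.im} ∩ {z : ℂ | z.im ≤ r + 1} := by
          ext z
          constructor
          · rintro ⟨_, _, h1, h2⟩
            exact ⟨h1, h2⟩
          · rintro ⟨h1, h2⟩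
            exact ⟨h.1, h.2, h1, h2⟩
        rw [e2]
        exact (measurableSet_le measurable_const hi).inter (measurableSet_le hi measurable_const)
      · have e2 : {z : ℂ | r < G.N ∧ r % 2 = 1 ∧ (r : ℝ) ≤ z.im ∧ z.im ≤ r + 1} = ∅ := by
          ext z
          constructor
          · rintro ⟨h1, h2, _⟩
            exact h ⟨h1, h2⟩
          · intro h
            exact absurd h (Set.notMem_empty z)
        rw [e2]
        exact MeasurableSet.empty

/-- S4 -/
theorem s4 : S4Stmt := by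
  intro q G hG hs
  have hq := hs.pos
  have hq1 : q ≤ 1 / 1000 := hs.le.trans (by norm_num)
  have h3 : 0 < q ^ 3 := by positivity
  have h4 : 0 < q ^ 4 := by positivity
  have h3' := cube_small hq hq1
  have h4' : q ^ 4 ≤ q := by nlinarith [sq_nonneg q]
  have hM : (0 : ℝ) < G.M := by exact_mod_cast hG.pos
  -- facts on columns
  have hcol : ∀ x : ℝ, 0 ≤ x → x ≤ G.M → ∃ c : ℕ, c < G.M ∧ (c : ℝ) ≤ x ∧ x ≤ c + 1 := by
    intro x h0 h1
    rcases lt_or_eq_of_le h1 with h | h
    · exact ⟨⌊x⌋₊, by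
        have := (Nat.floor_lt h0).2 h
        exact this, Nat.floor_le h0, (Nat.lt_floor_add_one x).le⟩
    · refine ⟨G.M - 1, Nat.sub_lt hG.pos one_pos, ?_, ?_⟩
      · rw [h]
        exact_mod_cast Nat.sub_le _ _
      · rw [h]
        have : G.M = (G.M - 1) + 1 := (Nat.succ_pred_eq_of_pos hG.pos).symm
        exact_mod_cast this.le
  refine ⟨measurableSet_cont, ?_, ?_, ?_, ?_, ?_⟩
  · rintro z (⟨h1, h2, h5, h6⟩ | ⟨h1, r, h2, h5, h6, h7⟩)
    · exact ⟨by linarith, by linarith, (floorF_nonneg _).trans h5⟩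
    · refine ⟨?_, ?_, (Nat.cast_nonneg r).trans h6⟩
      · rcases h1 with h1 | h1
        · exact h1.1
        · linarith [h1.1]
      · rcases h1 with h1 | h1
        · linarith [h1.2]
        · exact h1.2
  · rintro z (⟨h1, h2, h5, h6⟩ | ⟨h1, r, h2, h5, h6, h7⟩) r' hr' hrN h8 h9
    · exact ⟨h1, h2⟩
    · exfalso
      have h10 : r < r' + 1 := by
        have : (r : ℝ) < r' + 1 := by linarith
        exact_mod_cast this
      have h11 : r' < r + 1 := by
        have : (r' : ℝ) < r + 1 := by linarith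
        exact_mod_cast this
      have : r = r' := by omega
      omega
  · intro z h1 h2 h5 h6
    left
    refine ⟨h1, h2, (floorF_le hq _).trans h5, ?_⟩
    have := ceilF_lower hG hq h1
    linarith
  · rintro z hz c hc h1 h2
    have hM1 : (c : ℝ) + 1 ≤ G.M := by exact_mod_cast hc
    rcases hz with ⟨h5, h6, h7, h8⟩ | ⟨h5, r, h6, h7, h8, h9⟩
    · rw [floorF_eq hq1 h1 h2] at h7
      rw [ceilF_eq hG hq hq1 hc h1 h2] at h8
      exact ⟨h7, h8⟩
    · have hx : z.re - c = 0 ∨ z.re - c = 1 := by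
        rcases h5 with h5 | h5
        · left
          have : (0 : ℝ) ≤ c := Nat.cast_nonneg _
          linarith [h5.2]
        · right
          linarith [h5.1]
      have hN : (r : ℝ) + 1 ≤ G.N := by exact_mod_cast h6
      have hr0 : (0 : ℝ) ≤ r := Nat.cast_nonneg _
      refine ⟨?_, ?_⟩
      · rw [locFloor_end hq1 _ (by rcases hx with hx | hx <;> [left; right] <;> rw [hx])]
        linarith
      · have : 0 ≤ locCeil q (G.top c) (z.re - c) := by
          rcases hx with hx | hx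
          · rw [hx, locCeil_left hq hq1 (hG.fine _)]
            cases G.top c <;> simp only [Top.vL] <;> linarith
          · rw [hx, locCeil_right hq hq1 (hG.fine _)]
            cases G.top c <;> simp only [Top.vR] <;> linarith
        linarith
  · intro z c hc h1 h2 h5 h6
    have hM1 : (c : ℝ) + 1 ≤ G.M := by exact_mod_cast hc
    left
    refine ⟨le_trans (Nat.cast_nonneg _) h1, by linarith, ?_, ?_⟩
    · rw [floorF_eq hq1 h1 h2]
      exact h5
    · rw [ceilF_eq hG hq hq1 hc h1 h2]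
      exact h6

end Pool.Agent.Helper2_Pack
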