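import Pool.Agent.Helper2_Pack.Stmts3

/-!
# S3: the shapes are nearly unit squares
-/

namespace Pool.Agent.Helper2_Pack

open MeasureTheory Set

/-! ### Tents -/

theorem tents_nil (g x : ℝ) : tents g [] x = g := rfl

theorem tents_cons (g : ℝ) (d : ℝ × ℝ) (L : List (ℝ × ℝ)) (x : ℝ) :
    tents g (d :: L) x = max (d.2 - |x - d.1|) (tents g L x) := rfl

theorem le_tents (g : ℝ) (L : List (ℝ × ℝ)) (x : ℝ) : g ≤ tents g L x := by
  induction L with
  | nil => exact le_rfl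
  | cons d L ih => exact ih.trans (le_max_right _ _)

theorem tents_le {g B : ℝ} {L : List (ℝ × ℝ)} {x : ℝ} (hg : g ≤ B)
    (h : ∀ d ∈ L, d.2 - |x - d.1| ≤ B) : tents g L x ≤ B := by
  induction L with
  | nil => exact hg
  | cons d L ih =>
    exact max_le (h d List.mem_cons_self) (ih (fun d' hd' => h d' (List.mem_cons_of_mem _ hd')))

theorem tents_le' {g B : ℝ} {L : List (ℝ × ℝ)} {x : ℝ} (hg : g ≤ B)
    (h : ∀ d ∈ L, d.2 ≤ B) : tents g L x ≤ B :=
  tents_le hg (fun d hd => (sub_le_self _ (abs_nonneg _)).trans (h d hd))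

theorem tent_le_tents {g : ℝ} {L : List (ℝ × ℝ)} {d : ℝ × ℝ} (hd : d ∈ L) (x : ℝ) :
    d.2 - |x - d.1| ≤ tents g L x := by
  induction L with
  | nil => simp at hd
  | cons d' L ih =>
    rcases List.mem_cons.1 hd with rfl | h
    · exact le_max_left _ _
    · exact (ih h).trans (le_max_right _ _)

theorem tents_eq {g : ℝ} {L : List (ℝ × ℝ)} {x : ℝ} (h : ∀ d ∈ L, d.2 - |x - d.1| ≤ g) :
    tents g L x = g := le_antisymm (tents_le le_rfl h) (le_tents _ _ _)

theorem continuous_tents (g : ℝ) (L : List (ℝ × ℝ)) : Continuous (tents g L) := by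
  induction L with
  | nil => exact continuous_const
  | cons d L ih =>
    show Continuous (fun x => max (d.2 - |x - d.1|) (tents g L x))
    fun_prop

/-! ### Chamfers -/

theorem continuous_cham (q xl : ℝ) : Continuous (cham q xl) := by
  unfold cham
  fun_prop

theorem cham_nonneg (q xl x : ℝ) : 0 ≤ cham q xl x := le_max_left _ _

theorem cham_le {q xl x : ℝ} (hq : 0 < q) (h : xl ≤ x) : cham q xl x ≤ 8 * q ^ 3 := by
  have : 0 < q ^ 3 := by positivity
  refine max_le (by linarith) (max_le (by linarith) (min_le_left _ _))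

theorem cham_eq_zero {q xl x : ℝ} (h : xl + 8 * q ^ 3 ≤ x) (h' : x ≤ 1 - 8 * q ^ 3) :
    cham q xl x = 0 := by
  refine le_antisymm (max_le le_rfl (max_le (by linarith) ?_)) (cham_nonneg _ _ _)
  exact (min_le_right _ _).trans (by linarith)

/-! ### Lists of dents -/

theorem Tile.dents_le {q : ℝ} (hq : 0 < q) {t : Tile} : ∀ d ∈ t.dents q, d.2 ≤ q + 2 * q ^ 3 := by
  have : 0 < q ^ 3 := by positivity
  intro d hd
  obtain ⟨p, _, rfl⟩ := List.mem_map.1 hd
  split_ifs <;> simp only <;> linarith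

theorem Tile.base_nonneg {q : ℝ} (hq : 0 < q) (t : Tile) : 0 ≤ t.base q := by
  unfold Tile.base
  split_ifs
  · exact le_rfl
  · positivity

theorem Tile.base_le {q : ℝ} (hq : 0 < q) (t : Tile) : t.base q ≤ q ^ 3 := by
  unfold Tile.base
  split_ifs
  · positivity
  · exact le_rfl

theorem Tile.lo_le {q : ℝ} (hq : 0 < q) (hq1 : q ≤ 1 / 1000) (t : Tile) {x : ℝ} (h : t.xl q ≤ x) :
    (t.sh q).lo x ≤ q + 2 * q ^ 3 := by
  have h3 : q ^ 3 ≤ q * (1 / 1000000) := by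
    have : q ^ 3 = q * (q * q) := by ring
    rw [this]
    have : q * q ≤ 1 / 1000 * (1 / 1000) := mul_le_mul hq1 hq1 hq.le (by norm_num)
    nlinarith
  have h4 : 0 < q ^ 3 := by positivity
  refine max_le ((cham_le hq h).trans (by linarith)) (tents_le' ?_ (Tile.dents_le hq))
  exact (t.base_le hq).trans (by linarith)

theorem Tile.lo_nonneg (q : ℝ) (t : Tile) (x : ℝ) : 0 ≤ (t.sh q).lo x :=
  (cham_nonneg _ _ _).trans (le_max_left _ _)

theorem Tile.le_hi {q : ℝ} (hq : 0 < q) (t : Tile) {x : ℝ} (h : t.xl q ≤ x) :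
    1 - 8 * q ^ 3 ≤ (t.sh q).hi x := by
  have h1 := cham_le hq h
  have h2 := le_tents 1 (t.top.marks.map fun p : ℕ => ((p : ℝ) / 32, 1 + q)) x
  show 1 - 8 * q ^ 3 ≤ tents 1 (t.top.marks.map fun p : ℕ => ((p : ℝ) / 32, 1 + q)) x - cham q (t.xl q) x
  linarith

theorem Tile.hi_le {q : ℝ} (hq : 0 < q) (t : Tile) (x : ℝ) : (t.sh q).hi x ≤ 1 + q := by
  have h1 := cham_nonneg q (t.xl q) x
  have h2 : tents 1 (t.top.marks.map fun p : ℕ => ((p : ℝ) / 32, 1 + q)) x ≤ 1 + q := by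
    refine tents_le' (by linarith) ?_
    intro d hd
    obtain ⟨p, _, rfl⟩ := List.mem_map.1 hd
    exact le_rfl
  show tents 1 (t.top.marks.map fun p : ℕ => ((p : ℝ) / 32, 1 + q)) x - cham q (t.xl q) x ≤ 1 + q
  linarith

theorem Tile.xl_nonneg {q : ℝ} (hq : 0 < q) (t : Tile) : 0 ≤ t.xl q := by
  unfold Tile.xl
  split_ifs <;> linarith

theorem Tile.xl_le {q : ℝ} (hq : 0 < q) (t : Tile) : t.xl q ≤ q := by
  unfold Tile.xl
  split_ifs <;> linarith

theorem Tile.le_xr {q : ℝ} (hq : 0 < q) (t : Tile) : 1 ≤ t.xr q := by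
  unfold Tile.xr
  split_ifs <;> linarith

theorem Tile.xr_le {q : ℝ} (hq : 0 < q) (t : Tile) : t.xr q ≤ 1 + q := by
  unfold Tile.xr
  split_ifs <;> linarith

theorem cube_small {q : ℝ} (hq : 0 < q) (hq1 : q ≤ 1 / 1000) : q ^ 3 ≤ q * (1 / 1000000) := by
  have : q ^ 3 = q * (q * q) := by ring
  rw [this]
  have : q * q ≤ 1 / 1000 * (1 / 1000) := mul_le_mul hq1 hq1 hq.le (by norm_num)
  nlinarith

theorem Tile.good {q : ℝ} (hq : 0 < q) (hq1 : q ≤ 1 / 1000) (t : Tile) : (t.sh q).Good where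
  lt := by
    show t.xl q < t.xr q
    have := t.xl_le hq
    have := t.le_xr hq
    linarith
  lo_cont := (continuous_cham _ _).max (continuous_tents _ _)
  hi_cont := (continuous_tents _ _).sub (continuous_cham _ _)
  lo_lt := by
    intro x h1 _
    have h2 := t.lo_le hq hq1 h1
    have h3 := t.le_hi hq h1
    have h4 := cube_small hq hq1
    linarith

theorem Tile.sub {q : ℝ} (hq : 0 < q) (t : Tile) :
    (Shp.tile t).reg q ⊆ {z : ℂ | 0 ≤ z.re ∧ z.re ≤ 1 + q ∧ 0 ≤ z.im ∧ z.im ≤ 1 + q} := by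
  rintro z ⟨h1, h2, h3, h4⟩
  exact ⟨(t.xl_nonneg hq).trans h1, h2.trans (t.xr_le hq), (t.lo_nonneg q _).trans h3,
    h4.trans (t.hi_le hq _)⟩

theorem Tile.core {q : ℝ} (hq : 0 < q) (hq1 : q ≤ 1 / 1000) (t : Tile) :
    {z : ℂ | 2 * q ≤ z.re ∧ z.re ≤ 1 - 2 * q ∧ 2 * q ≤ z.im ∧ z.im ≤ 1 - 2 * q} ⊆
      (Shp.tile t).reg q := by
  rintro z ⟨h1, h2, h3, h4⟩
  have h5 := cube_small hq hq1
  have h6 := t.xl_le hq
  have h7 : t.xl q ≤ z.re := by linarith
  refine ⟨h7, ?_, (t.lo_le hq hq1 h7).trans (by linarith), le_trans ?_ (t.le_hi hq h7)⟩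
  · show z.re ≤ t.xr q
    have := t.le_xr hq
    linarith
  · linarith

/-! ### Levers -/

theorem sg_abs (σ : Bool) : |((sg σ : ℤ) : ℝ)| = 1 := by
  cases σ <;> simp [sg]

theorem sg_le (σ : Bool) : ((sg σ : ℤ) : ℝ) ≤ 1 := (le_abs_self _).trans (sg_abs σ).le

theorem neg_le_sg (σ : Bool) : -1 ≤ ((sg σ : ℤ) : ℝ) := by
  have := neg_abs_le ((sg σ : ℤ) : ℝ)
  rwa [sg_abs] at this

theorem piv_lower {q : ℝ} (hq : 0 < q) (σ : Bool) : q * (22 / 32) ≤ piv q σ := by
  unfold piv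
  have := sg_le σ
  nlinarith

theorem piv_upper {q : ℝ} (hq : 0 < q) (σ : Bool) : piv q σ ≤ q * (42 / 32) := by
  unfold piv
  have := neg_le_sg σ
  nlinarith

theorem roof_upper {q : ℝ} (hq : 0 < q) (σ : Bool) {x : ℝ} (h0 : 0 ≤ x) (h1 : x ≤ 1) :
    roof q σ x ≤ q * (62 / 32) := by
  unfold roof
  have h2 := piv_upper hq σ
  have h3 : |x - 20 / 32| ≤ 20 / 32 := abs_le.2 ⟨by linarith, by linarith⟩
  have h4 : (sg σ : ℝ) * q * |x - 20 / 32| ≤ q * (20 / 32) := by
    have h5 := sg_le σ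
    have h6 : 0 ≤ q * |x - 20 / 32| := by positivity
    calc (sg σ : ℝ) * q * |x - 20 / 32| = sg σ * (q * |x - 20 / 32|) := by ring
      _ ≤ 1 * (q * |x - 20 / 32|) := mul_le_mul_of_nonneg_right h5 h6
      _ ≤ q * (20 / 32) := by
        rw [one_mul]
        exact mul_le_mul_of_nonneg_left h3 hq.le
  linarith

theorem port_le_roof (q : ℝ) (σ : Bool) (p x : ℝ) : port q σ p x ≤ roof q σ x := min_le_left _ _

theorem port_far {q : ℝ} (hq : 0 < q) (hq1 : q ≤ 1 / 1000) (σ : Bool) {p x : ℝ} (hp0 : 1 / 32 ≤ p)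
    (hp1 : p ≤ 31 / 32) (h : 1 / 64 ≤ |x - p|) : port q σ p x ≤ 0 := by
  have h3 := cube_small hq hq1
  have h4 : 0 < q ^ 3 := by positivity
  rcases le_or_gt x p with hx | hx
  · rw [abs_of_nonpos (by linarith)] at h
    refine (min_le_right _ _).trans ((min_le_left _ _).trans ?_)
    have := roof_upper hq σ (x := p - 3 * q ^ 3) (by linarith) (by linarith)
    linarith
  · rw [abs_of_pos (by linarith)] at h
    refine (min_le_right _ _).trans ((min_le_right _ _).trans ?_)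
    have := roof_upper hq σ (x := p + 3 * q ^ 3) (by linarith) (by linarith)
    linarith

theorem continuous_roof (q : ℝ) (σ : Bool) : Continuous (roof q σ) := by
  unfold roof
  fun_prop

theorem continuous_port (q : ℝ) (σ : Bool) (p : ℝ) : Continuous (port q σ p) := by
  have := continuous_roof q σ
  unfold port
  fun_prop

/-- the loose dents of a lever -/
noncomputable def loose (q : ℝ) (σ : Bool) : List (ℝ × ℝ) :=
  if σ then [] else [(13 / 32, q + 2 * q ^ 3), (26 / 32, q + 2 * q ^ 3)]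

theorem leverSh_lo (q : ℝ) (σ : Bool) (x : ℝ) : (leverSh q σ).lo x =
    max (max (cham q 0 x) (tents (q ^ 3) (loose q σ) x))
      (max (port q σ (10 / 32) x) (port q σ (30 / 32) x)) := rfl

theorem leverSh_hi (q : ℝ) (σ : Bool) (x : ℝ) : (leverSh q σ).hi x =
    min (1 - cham q 0 x) (piv q σ + (1 - piv q σ) * |x - 20 / 32| / (2 * q ^ 3)) := rfl

theorem mem_loose {q : ℝ} {σ : Bool} {d : ℝ × ℝ} (h : d ∈ loose q σ) :
    (d.1 = 13 / 32 ∨ d.1 = 26 / 32) ∧ d.2 = q + 2 * q ^ 3 := by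
  unfold loose at h
  split_ifs at h
  · simp at h
  · simp only [List.mem_cons, List.not_mem_nil, or_false] at h
    rcases h with rfl | rfl <;> simp

theorem lever_lo_le {q : ℝ} (hq : 0 < q) (hq1 : q ≤ 1 / 1000) (σ : Bool) {x : ℝ} (h0 : 0 ≤ x)
    (h1 : x ≤ 1) : (leverSh q σ).lo x ≤ 2 * q := by
  have h3 := cube_small hq hq1
  have h4 : 0 < q ^ 3 := by positivity
  have h5 := roof_upper hq σ h0 h1
  rw [leverSh_lo]
  refine max_le (max_le ((cham_le hq h0).trans (by linarith)) (tents_le' (by linarith) ?_))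
    (max_le ((port_le_roof _ _ _ _).trans (by linarith))
      ((port_le_roof _ _ _ _).trans (by linarith)))
  intro d hd
  rw [(mem_loose hd).2]
  linarith

theorem lever_lo_nonneg (q : ℝ) (σ : Bool) (x : ℝ) : 0 ≤ (leverSh q σ).lo x := by
  rw [leverSh_lo]
  exact (cham_nonneg _ _ _).trans ((le_max_left _ _).trans (le_max_left _ _))

theorem lever_lo_ge (q : ℝ) (σ : Bool) (x : ℝ) : q ^ 3 ≤ (leverSh q σ).lo x := by
  rw [leverSh_lo]
  exact (le_tents _ _ _).trans ((le_max_right _ _).trans (le_max_left _ _))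

theorem lever_lo_mid {q : ℝ} (hq : 0 < q) (hq1 : q ≤ 1 / 1000) (σ : Bool) {x : ℝ}
    (h : |x - 20 / 32| ≤ 1 / 32) : (leverSh q σ).lo x = q ^ 3 := by
  have h3 := cube_small hq hq1
  have h4 : 0 < q ^ 3 := by positivity
  obtain ⟨h5, h6⟩ := abs_le.1 h
  refine le_antisymm ?_ (lever_lo_ge _ _ _)
  rw [leverSh_lo, cham_eq_zero (by linarith) (by linarith)]
  refine max_le (max_le h4.le (tents_le le_rfl ?_)) (max_le ?_ ?_)
  · intro d hd
    obtain ⟨h7, h8⟩ := mem_loose hd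
    rw [h8]
    have : 1 / 64 ≤ |x - d.1| := by
      rcases h7 with h7 | h7 <;> rw [h7]
      · exact le_abs.2 (Or.inl (by linarith))
      · exact le_abs.2 (Or.inr (by linarith))
    linarith
  · exact (port_far hq hq1 σ (by norm_num) (by norm_num) (le_abs.2 (Or.inl (by linarith)))).trans h4.le
  · exact (port_far hq hq1 σ (by norm_num) (by norm_num) (le_abs.2 (Or.inr (by linarith)))).trans h4.le

theorem lever_hi_side {q : ℝ} (hq : 0 < q) (hq1 : q ≤ 1 / 1000) (σ : Bool) {x : ℝ} (h0 : 0 ≤ x)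
    (h : 2 * q ^ 3 ≤ |x - 20 / 32|) : 1 - 8 * q ^ 3 ≤ (leverSh q σ).hi x := by
  have h4 : 0 < q ^ 3 := by positivity
  have h5 := cham_le (x := x) hq h0
  have h6 := piv_upper hq σ
  rw [leverSh_hi]
  refine le_min (by linarith) ?_
  have h7 : (1 - piv q σ) * 1 ≤ (1 - piv q σ) * (|x - 20 / 32| / (2 * q ^ 3)) := by
    refine mul_le_mul_of_nonneg_left ?_ (by linarith)
    rwa [le_div_iff₀ (by positivity), one_mul]
  have h8 : (1 - piv q σ) * |x - 20 / 32| / (2 * q ^ 3) =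
      (1 - piv q σ) * (|x - 20 / 32| / (2 * q ^ 3)) := by ring
  rw [h8]
  linarith

theorem lever_piv_le {q : ℝ} (hq : 0 < q) (hq1 : q ≤ 1 / 1000) (σ : Bool) (x : ℝ) :
    piv q σ ≤ piv q σ + (1 - piv q σ) * |x - 20 / 32| / (2 * q ^ 3) := by
  have h6 := piv_upper hq σ
  have : 0 ≤ (1 - piv q σ) * |x - 20 / 32| / (2 * q ^ 3) :=
    div_nonneg (mul_nonneg (by linarith) (abs_nonneg _)) (by positivity)
  linarith

theorem lever_good {q : ℝ} (hq : 0 < q) (hq1 : q ≤ 1 / 1000) (σ : Bool) :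
    (leverSh q σ).Good where
  lt := show (0 : ℝ) < 1 by norm_num
  lo_cont := ((continuous_cham _ _).max (continuous_tents _ _)).max
    ((continuous_port _ _ _).max (continuous_port _ _ _))
  hi_cont := by
    have h := continuous_cham q 0
    show Continuous (fun x => min (1 - cham q 0 x)
      (piv q σ + (1 - piv q σ) * |x - 20 / 32| / (2 * q ^ 3)))
    fun_prop
  lo_lt := by
    intro x h0 h1
    have h0' : 0 ≤ x := h0
    have h1' : x ≤ 1 := h1
    have h3 := cube_small hq hq1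
    have h4 : 0 < q ^ 3 := by positivity
    rcases le_or_gt (1 / 32) |x - 20 / 32| with h | h
    · have h5 := lever_hi_side hq hq1 σ h0' (by linarith : 2 * q ^ 3 ≤ |x - 20 / 32|)
      have h6 := lever_lo_le hq hq1 σ h0' h1'
      linarith
    · rw [lever_lo_mid hq hq1 σ h.le, leverSh_hi]
      have h5 := cham_le (x := x) hq h0'
      have h6 := piv_lower hq σ
      have h7 := lever_piv_le hq hq1 σ x
      exact lt_min (by linarith) (by linarith)

theorem lever_sub {q : ℝ} (hq : 0 < q) (σ : Bool) :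
    (Shp.lever σ).reg q ⊆ {z : ℂ | 0 ≤ z.re ∧ z.re ≤ 1 + q ∧ 0 ≤ z.im ∧ z.im ≤ 1 + q} := by
  rintro z ⟨h1, h2, h3, h4⟩
  have h1' : 0 ≤ z.re := h1
  have h2' : z.re ≤ 1 := h2
  refine ⟨h1', by linarith, (lever_lo_nonneg q σ _).trans h3, ?_⟩
  have h5 : (leverSh q σ).hi z.re ≤ 1 - cham q 0 z.re := min_le_left _ _
  have h6 := cham_nonneg q 0 z.re
  have h4' : z.im ≤ (leverSh q σ).hi z.re := h4
  linarith

theorem volume_box {a b c d : ℝ} (h : a ≤ b) :
    volume {z : ℂ | a ≤ z.re ∧ z.re ≤ b ∧ c ≤ z.im ∧ z.im ≤ d} =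
      ENNReal.ofReal ((b - a) * (d - c)) := by
  have h1 := Complex.volume_preserving_equiv_real_prod
  have e : {z : ℂ | a ≤ z.re ∧ z.re ≤ b ∧ c ≤ z.im ∧ z.im ≤ d} =
      Complex.measurableEquivRealProd ⁻¹' (Icc a b ×ˢ Icc c d) := by
    ext z
    simp only [Set.mem_ofPred_eq, mem_preimage, mem_prod, mem_Icc]
    exact ⟨fun h => ⟨⟨h.1, h.2.1⟩, h.2.2⟩, fun h => ⟨h.1.1, h.1.2, h.2⟩⟩
  rw [e, h1.measure_preimage (measurableSet_Icc.prod measurableSet_Icc).nullMeasurableSet,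
    Measure.volume_eq_prod, Measure.prod_prod, Real.volume_Icc, Real.volume_Icc,
    ← ENNReal.ofReal_mul (by linarith)]

/-- S3 -/
theorem s3 : S3Stmt := by
  intro q s hq hq1
  cases s with
  | tile t =>
    refine ⟨t.good hq hq1, t.sub hq, ?_⟩
    rw [diff_eq_empty.2 (t.core hq hq1), measure_empty]
    exact zero_le
  | lever σ =>
    refine ⟨lever_good hq hq1 σ, lever_sub hq σ, ?_⟩
    have h3 := cube_small hq hq1
    have h4 : 0 < q ^ 3 := by positivity
    have hsub : {z : ℂ | 2 * q ≤ z.re ∧ z.re ≤ 1 - 2 * q ∧ 2 * q ≤ z.im ∧ z.im ≤ 1 - 2 * q} \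
        (Shp.lever σ).reg q ⊆ {z : ℂ | 20 / 32 - 2 * q ^ 3 ≤ z.re ∧ z.re ≤ 20 / 32 + 2 * q ^ 3 ∧
          2 * q ≤ z.im ∧ z.im ≤ 1 - 2 * q} := by
      rintro z ⟨⟨h5, h6, h7, h8⟩, h9⟩
      by_contra hc
      have h10 : 2 * q ^ 3 ≤ |z.re - 20 / 32| := by
        by_contra h
        push Not at h
        obtain ⟨h11, h12⟩ := abs_lt.1 h
        exact hc ⟨by linarith, by linarith, h7, h8⟩
      have h11 := lever_hi_side hq hq1 σ (by linarith : (0:ℝ) ≤ z.re) h10
      have h12 := lever_lo_le hq hq1 σ (by linarith : (0:ℝ) ≤ z.re) (by linarith)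
      exact h9 ⟨show (0:ℝ) ≤ z.re by linarith, show z.re ≤ (1:ℝ) by linarith,
        h12.trans h7, le_trans (by linarith) h11⟩
    refine (measure_mono hsub).trans ?_
    rw [volume_box (by linarith)]
    refine ENNReal.ofReal_le_ofReal ?_
    nlinarith

end Pool.Agent.Helper2_Pack
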