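import Pool.Agent.Helper2_Pack.StmtsA
import Pool.Agent.Helper32_Poly.Comp
import Pool.Agent.Helper32_Poly.Morphism

/-!
# The algebraic part: assembly
-/

namespace Pool.Agent.Helper2_Pack

open Pool.Agent.Helper53_Closed (Formula Sym encInst)
open Pool.Agent.Helper32_Poly Turing

instance : Inhabited Sym := ⟨.tick⟩
instance : Inhabited SLetter := ⟨.tick⟩
instance : Inhabited Letter := ⟨.zero⟩

/-- from a word function to a function on encoded objects -/
theorem word_to_enc {α β A B : Type} [Inhabited A] [Fintype A] [Fintype B]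
    [Inhabited B] (ea : α → List A) (eb : β → List B) (f : α → β) (g : List A → List B)
    (h : ∀ a, eb (f a) = g (ea a))
    (hg : Nonempty (TM2ComputableInPolyTime (id : List A → List A) (id : List B → List B) g)) :
    Nonempty (TM2ComputableInPolyTime ea eb f) := by
  obtain ⟨c2⟩ := hg
  have c1 : TM2ComputableInPolyTime ea (id : List A → List A) (fun x => ea x) :=
    morphComputable ea id _ [] (fun b => [b]) (fun x => by
      show ea x = [] ++ (ea x).flatMap (fun b => [b])
      rw [List.nil_append, List.flatMap_singleton'])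
  obtain ⟨c4⟩ := TM2ComputableInPolyTime.comp c1 c2
  refine ⟨⟨c4.toTM2ComputableAux, c4.time, fun x => ?_⟩⟩
  have h' := c4.outputsFun x
  have e : (id ((g ∘ fun x => ea x) x) : List B) = eb (f x) := (h x).symm
  rw [e] at h'
  exact h'

theorem encInst_ne (x : Σ n : ℕ, Formula n) : encInst x ≠ [] := by
  unfold encInst
  intro h
  have := congrArg List.length h
  simp at this

/-- the algebraic part -/
theorem alg (hL1 : L1Stmt) (hL7 : L7Stmt) (hL8 : L8Stmt) (hL9 : L9Stmt) : AlgStmt := by
  refine ⟨fun x => ⟨sysOf (encInst x), (hL7 _ (encInst_ne x)).2.2⟩, ?_, ?_⟩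
  · intro x ε h0 h1
    obtain ⟨n, φ⟩ := x
    exact (hL1 n φ).trans (hL8 _ ε (encInst_ne _) h0 h1)
  · exact word_to_enc _ _ _ (fun w => (sysOf w).enc) (fun _ => rfl) hL9

end Pool.Agent.Helper2_Pack
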