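import Mathlib
import Pool.Agent.Helper53_Closed.Defs

/-!
# Geometric packing with few shapes: the decision problem

* polygons are lists of rational corners; `region P` is the closed plane region bounded by the
  polygon (the boundary and the points from which an upward vertical ray crosses the boundary an
  odd number of times); `IsSimple P` says that the polygon is simple;
* rigid motions `z ↦ u z + v` with `|u| = 1` of the plane `ℂ`;
* `packing k`: the decision problem *geometric packing* restricted to instances in which the pieces
  fall into at most `k` shape classes;
* `existentialTheory`: the existential theory of the reals, `ExistsRHard`: `∃ℝ`-hardness under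
  polynomial-time many-one reductions.
-/

namespace Pool.Agent.Helper2_Pack

open Pool.Agent.Helper53_Closed (DecisionProblem PolyReduces Formula encInst encInst_injective Sym)

/-! ### The existential theory of the reals -/

/-- The existential theory of the reals: given a quantifier-free formula `φ` in `n` variables, is
there a point `a ∈ ℝⁿ` at which `φ` holds? -/
def existentialTheory : DecisionProblem where
  Inst := Σ n : ℕ, Formula n
  Alph := Sym
  alphFintype := inferInstance
  enc := encInst
  enc_injective := encInst_injective
  Yes := fun x => ∃ a : Fin x.1 → ℝ, x.2.Holds a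

/-- The class `∃ℝ`: the problems that reduce in polynomial time to the existential theory of the
reals. -/
def InExistsR (P : DecisionProblem) : Prop := PolyReduces P existentialTheory

/-- A problem is `∃ℝ`-hard if every problem in `∃ℝ` reduces to it in polynomial time. -/
def ExistsRHard (Q : DecisionProblem) : Prop := ∀ P : DecisionProblem, InExistsR P → PolyReduces P Q

/-! ### Motions and polygons -/

/-- A rigid motion of the plane (a rotation followed by a translation, no reflection):
`z ↦ u z + v` with `|u| = 1`. -/
structure Motion where
  /-- the rotation -/
  u : ℂ
  /-- the translation -/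
  v : ℂ
  unit : ‖u‖ = 1

/-- the image of a point under a motion -/
def Motion.app (g : Motion) (z : ℂ) : ℂ := g.u * z + g.v

/-- A polygon is given by the list of its corners, in cyclic order. -/
abbrev Polygon : Type := List (ℚ × ℚ)

/-- a corner as a point of the plane -/
def pt (p : ℚ × ℚ) : ℂ := ⟨(p.1 : ℝ), (p.2 : ℝ)⟩

/-- the edges of a polygon: the pairs of cyclically consecutive corners -/
def edges (P : Polygon) : List ((ℚ × ℚ) × (ℚ × ℚ)) := P.zip (P.rotate 1)

/-- The upward vertical ray which starts at `z` crosses the edge from `p` to `q` (the left end of
an edge counts as a part of it, the right end does not). -/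
def Crosses (z p q : ℂ) : Prop :=
  ((p.re ≤ z.re ∧ z.re < q.re) ∨ (q.re ≤ z.re ∧ z.re < p.re)) ∧
    z.im < p.im + (z.re - p.re) / (q.re - p.re) * (q.im - p.im)

open Classical in
/-- The closed region bounded by a polygon: the points on the edges, and the points from which an
upward vertical ray crosses the boundary an odd number of times. -/
def region (P : Polygon) : Set ℂ :=
  {z | (∃ e ∈ edges P, z ∈ segment ℝ (pt e.1) (pt e.2)) ∨
    Odd ((edges P).countP fun e => Crosses z (pt e.1) (pt e.2))}

/-- the `i`-th edge of a polygon, as a subset of the plane -/
def side (P : Polygon) (i : ℕ) : Set ℂ :=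
  segment ℝ (pt (P.getD i 0)) (pt (P.getD ((i + 1) % P.length) 0))

/-- A polygon is simple if it has at least three corners and two different edges meet only if they
are consecutive, and then only in their common corner. -/
def IsSimple (P : Polygon) : Prop :=
  3 ≤ P.length ∧ ∀ i j : ℕ, i < j → j < P.length → ∀ z ∈ side P i, z ∈ side P j →
    (j = i + 1 ∧ z = pt (P.getD j 0)) ∨ (i = 0 ∧ j + 1 = P.length ∧ z = pt (P.getD 0 0))

/-! ### Instances -/

/-- An instance of geometric packing: the container and the list of the pieces. -/
structure Instance where
  /-- the container -/
  container : Polygon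
  /-- the pieces; every piece is listed explicitly -/
  pieces : List Polygon

/-- the container and all pieces are simple polygons -/
def Instance.Valid (I : Instance) : Prop :=
  IsSimple I.container ∧ ∀ P ∈ I.pieces, IsSimple P

/-- two polygons have the same shape: a rigid motion maps one onto the other -/
def SameShape (P Q : Polygon) : Prop := ∃ g : Motion, g.app '' region P = region Q

/-- the pieces fall into at most `k` shape classes -/
def Instance.AtMostShapes (I : Instance) (k : ℕ) : Prop :=
  ∃ s : Fin I.pieces.length → Fin k, ∀ i j, s i = s j →
    SameShape (I.pieces.get i) (I.pieces.get j)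

/-- The pieces can be moved into the container so that their images have pairwise disjoint
interiors. -/
def Instance.Solvable (I : Instance) : Prop :=
  ∃ φ : Fin I.pieces.length → Motion,
    (∀ i, (φ i).app '' region (I.pieces.get i) ⊆ region I.container) ∧
    ∀ i j, i ≠ j → Disjoint (interior ((φ i).app '' region (I.pieces.get i)))
      (interior ((φ j).app '' region (I.pieces.get j)))

/-! ### Encoding -/

/-- the letters used to write instances down -/
inductive Letter
  | zero | one | plus | minus | slash | comma | stop
  deriving DecidableEq

instance : Fintype Letter :=
  ⟨{.zero, .one, .plus, .minus, .slash, .comma, .stop}, by intro x; cases x <;> decide⟩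

/-- binary digits of a natural number, least significant first -/
def bits (m : ℕ) : List Letter := (Nat.digits 2 m).map (fun d => if d = 0 then .zero else .one)

/-- A rational number is written as its sign, its numerator and its denominator (in lowest terms)
in binary, and an end mark. -/
def encRat (x : ℚ) : List Letter :=
  (if x.num < 0 then .minus else .plus) :: (bits x.num.natAbs ++ .slash :: (bits x.den ++ [.comma]))

/-- a polygon is written as the list of the coordinates of its corners, and an end mark -/
def encPolygon (P : Polygon) : List Letter :=
  P.flatMap (fun p => encRat p.1 ++ encRat p.2) ++ [.stop]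

/-- an instance is written as the container followed by the pieces -/
def Instance.enc (I : Instance) : List Letter :=
  encPolygon I.container ++ I.pieces.flatMap encPolygon

/-! ### Injectivity of the encoding -/

theorem mark_inj {a : Letter} : ∀ (u u' w w' : List Letter), a ∉ u → a ∉ u' →
    u ++ a :: w = u' ++ a :: w' → u = u' ∧ w = w'
  | [], [], w, w', _, _, h => by simpa using h
  | [], c :: u', w, w', _, h2, h => by
    simp only [List.nil_append, List.cons_append, List.cons.injEq] at h
    exact absurd (by rw [h.1]; exact List.mem_cons_self) h2
  | c :: u, [], w, w', h1, _, h => by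
    simp only [List.nil_append, List.cons_append, List.cons.injEq] at h
    exact absurd (by rw [← h.1]; exact List.mem_cons_self) h1
  | c :: u, c' :: u', w, w', h1, h2, h => by
    simp only [List.cons_append, List.cons.injEq] at h
    obtain ⟨rfl, h⟩ := h
    obtain ⟨rfl, rfl⟩ := mark_inj u u' w w' (fun h => h1 (List.mem_cons_of_mem _ h))
      (fun h => h2 (List.mem_cons_of_mem _ h)) h
    exact ⟨rfl, rfl⟩

theorem mem_bits {m : ℕ} {a : Letter} (h : a ∈ bits m) : a = .zero ∨ a = .one := by
  unfold bits at h
  obtain ⟨d, _, rfl⟩ := List.mem_map.1 h
  split_ifs
  · exact Or.inl rfl
  · exact Or.inr rfl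

theorem bits_inj {m m' : ℕ} (h : bits m = bits m') : m = m' := by
  unfold bits at h
  have key : ∀ l l' : List ℕ, (∀ d ∈ l, d < 2) → (∀ d ∈ l', d < 2) →
      l.map (fun d => if d = 0 then Letter.zero else Letter.one) =
        l'.map (fun d => if d = 0 then Letter.zero else Letter.one) → l = l' := by
    intro l
    induction l with
    | nil =>
      intro l' _ _ h
      cases l' with
      | nil => rfl
      | cons d l' => simp at h
    | cons c l ih =>
      intro l' h1 h2 h
      cases l' with
      | nil => simp at h
      | cons d l' =>
        simp only [List.map_cons, List.cons.injEq] at h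
        have hc := h1 c List.mem_cons_self
        have hd := h2 d List.mem_cons_self
        have e : c = d := by
          have := h.1
          split_ifs at this <;> omega
        rw [e, ih l' (fun x hx => h1 x (List.mem_cons_of_mem _ hx))
          (fun x hx => h2 x (List.mem_cons_of_mem _ hx)) h.2]
  have h3 := key _ _ (fun d hd => Nat.digits_lt_base (by norm_num) hd)
    (fun d hd => Nat.digits_lt_base (by norm_num) hd) h
  have h4 := congrArg (Nat.ofDigits 2) h3
  rwa [Nat.ofDigits_digits, Nat.ofDigits_digits] at h4

theorem encRat_append_inj {x y : ℚ} {w w' : List Letter}
    (h : encRat x ++ w = encRat y ++ w') : x = y ∧ w = w' := by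
  unfold encRat at h
  simp only [List.cons_append, List.append_assoc, List.cons.injEq] at h
  obtain ⟨h0, h⟩ := h
  obtain ⟨h1, h⟩ := mark_inj _ _ _ _
    (fun hm => by rcases mem_bits hm with h | h <;> cases h)
    (fun hm => by rcases mem_bits hm with h | h <;> cases h) h
  simp only [List.nil_append] at h
  obtain ⟨h2, h⟩ := mark_inj _ _ _ _
    (fun hm => by rcases mem_bits hm with h | h <;> cases h)
    (fun hm => by rcases mem_bits hm with h | h <;> cases h) h
  have h3 := bits_inj h1
  have h4 := bits_inj h2
  refine ⟨Rat.ext ?_ h4, h⟩
  split_ifs at h0 <;> omega

theorem encPolygon_append_inj : ∀ (P Q : Polygon) {w w' : List Letter},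
    encPolygon P ++ w = encPolygon Q ++ w' → P = Q ∧ w = w'
  | [], [], w, w', h => by
    simp only [encPolygon, List.flatMap_nil, List.nil_append, List.cons_append, List.cons.injEq,
      true_and] at h
    exact ⟨rfl, h⟩
  | [], q :: Q, w, w', h => by
    simp only [encPolygon, List.flatMap_nil, List.flatMap_cons, encRat, List.nil_append,
      List.cons_append, List.append_assoc, List.cons.injEq] at h
    exfalso
    have := h.1
    split_ifs at this
  | p :: P, [], w, w', h => by
    simp only [encPolygon, List.flatMap_nil, List.flatMap_cons, encRat, List.nil_append,
      List.cons_append, List.append_assoc, List.cons.injEq] at h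
    exfalso
    have := h.1
    split_ifs at this
  | p :: P, q :: Q, w, w', h => by
    have e : ∀ (r : ℚ × ℚ) (R : Polygon) (v : List Letter), encPolygon (r :: R) ++ v =
        encRat r.1 ++ (encRat r.2 ++ (encPolygon R ++ v)) := by
      intro r R v
      simp only [encPolygon, List.flatMap_cons, List.append_assoc]
    rw [e, e] at h
    obtain ⟨h1, h⟩ := encRat_append_inj h
    obtain ⟨h2, h⟩ := encRat_append_inj h
    obtain ⟨h3, h⟩ := encPolygon_append_inj P Q h
    exact ⟨by rw [Prod.ext h1 h2, h3], h⟩

theorem encPolygons_inj : ∀ (L L' : List Polygon),
    L.flatMap encPolygon = L'.flatMap encPolygon → L = L'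
  | [], [], _ => rfl
  | [], Q :: L', h => by
    rw [List.flatMap_nil, List.flatMap_cons] at h
    have := congrArg List.length h
    simp [encPolygon] at this
  | P :: L, [], h => by
    rw [List.flatMap_nil, List.flatMap_cons] at h
    have := congrArg List.length h
    simp [encPolygon] at this
  | P :: L, Q :: L', h => by
    rw [List.flatMap_cons, List.flatMap_cons] at h
    obtain ⟨h1, h⟩ := encPolygon_append_inj P Q h
    rw [h1, encPolygons_inj L L' h]

theorem Instance.enc_injective : Function.Injective Instance.enc := by
  rintro ⟨C, L⟩ ⟨C', L'⟩ h
  unfold Instance.enc at h
  obtain ⟨h1, h⟩ := encPolygon_append_inj _ _ h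
  have h2 := encPolygons_inj _ _ h
  simp only at h1 h2
  rw [h1, h2]

/-! ### The problem -/

/-- **Geometric packing restricted to `k` shapes.**  The instances are the valid instances of
geometric packing whose pieces fall into at most `k` shape classes. -/
def packing (k : ℕ) : DecisionProblem where
  Inst := {I : Instance // I.Valid ∧ I.AtMostShapes k}
  Alph := Letter
  alphFintype := inferInstance
  enc := fun I => I.1.enc
  enc_injective := fun _ _ h => Subtype.ext (Instance.enc_injective h)
  Yes := fun I => I.1.Solvable

end Pool.Agent.Helper2_Pack
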