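import Pool.Agent.Helper2_Pack.Stmts3

/-!
# F3: fine placement, assembly
-/

namespace Pool.Agent.Helper2_Pack

/-- F3 -/
theorem f3 (hC3 : C3Stmt) (hF6 : F6Stmt) (hF7 : F7Stmt) (hF8 : F8Stmt) (hF9 : F9Stmt) :
    F3Stmt := by
  intro q G p hG hs
  obtain ⟨f, hf⟩ := hC3 q G p hG hs
  obtain ⟨ty, hfine, hvert, hfloor⟩ := hF6 q G p f hG hs hf
  obtain ⟨h9a, h9b, h9c⟩ := hF9 q G p f ty hG hs hf hfine
  have h7 := hF7 q G p f ty hG hs hf hfine
  have h8 := hF8 q G p f ty hG hs hf hfine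
  have hsig : ∀ c : {c : Fin G.M // (G.top c).isL = true}, G.top c.1 = .portL (G.top c.1).sig := by
    rintro ⟨c, hc⟩
    show G.top c = .portL (G.top c).sig
    cases ht : G.top c with
    | flat a o => rw [ht] at hc; cases hc
    | portR σ => rw [ht] at hc; cases hc
    | portL σ => rfl
  have hshp : ∀ i, G.shp (f i) = G.shpOf ty i := by
    rintro (⟨c, r⟩ | c)
    · exact (hfine c r).1
    · exact (h8 c _ (hsig c)).2.2.1
  refine ⟨ty, fun i => p.g (f i), ⟨hvert, h9a, h9b, h9c, hfloor, ?_⟩, ⟨?_, ?_, ?_, ?_⟩⟩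
  · intro c hc
    cases ht : G.top c with
    | flat a o => exact h7 c a o hc ht
    | portL σ => exact (h8 ⟨⟨c, hc⟩, by show (G.top c).isL = true; rw [ht]; rfl⟩ σ ht).1
    | portR σ =>
      obtain ⟨h1, h2⟩ := hG.portR c σ hc ht
      have h3 := (h8 ⟨⟨c - 1, by omega⟩, by show (G.top (c - 1)).isL = true; rw [h2]; rfl⟩ σ
        h2).2.1
      have e : ((⟨c - 1, by omega⟩ : Fin G.M) : ℕ) + 1 = c := by
        show c - 1 + 1 = c
        omega
      have h3' : (ty (c - 1 + 1) (G.N - 1)).top = pcol σ := h3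
      rw [Nat.sub_add_cancel h1] at h3'
      exact h3'
  · intro i
    rw [← hshp i]
    exact p.sub (f i)
  · intro i j hij
    rw [← hshp i, ← hshp j]
    exact p.disj _ _ (fun h => hij (f.injective h))
  · rintro ⟨c, r⟩
    exact (hfine c r).2
  · intro c
    obtain ⟨-, -, -, h1, h2⟩ := h8 c _ (hsig c)
    exact ⟨h1, h2⟩

end Pool.Agent.Helper2_Pack
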