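import Pool.Agent.Helper2_Pack.S1
import Pool.Agent.Helper2_Pack.S2
import Pool.Agent.Helper2_Pack.S4

/-!
# K5: completeness
-/

namespace Pool.Agent.Helper2_Pack

open MeasureTheory Set

variable {q : ℝ} {G : Layout} {x : ℕ → ℝ}

/-- a translation -/
def transl (w : ℂ) : Motion := ⟨1, w, by simp⟩

theorem transl_app (w z : ℂ) : (transl w).app z = z + w := by
  show 1 * z + w = z + w
  rw [one_mul]

/-- a motion followed by a translation -/
def Motion.tr (h : Motion) (w : ℂ) : Motion := ⟨h.u, h.v + w, h.unit⟩

theorem Motion.tr_app (h : Motion) (w z : ℂ) : (h.tr w).app z = h.app z + w := by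
  show h.u * z + (h.v + w) = h.u * z + h.v + w
  ring

theorem Shp.sh_good {q : ℝ} (hq : 0 < q) (hq1 : q ≤ 1 / 1000) (s : Shp) : (s.sh q).Good := by
  cases s with
  | tile t => exact t.good hq hq1
  | lever σ => exact lever_good hq hq1 σ

/-- the position of a tile -/
noncomputable def posT (G : Layout) (x : ℕ → ℝ) (c r : ℕ) : ℂ := ⟨c + x r, r + G.disp x c r⟩

theorem disp_succ (c r : ℕ) : G.disp x c (r + 1) = G.disp x c r + (G.ty c (r + 1)).sgn * x (r + 1) := by
  unfold Layout.disp
  rw [Finset.sum_range_succ]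

/-- the interior of a tile in its position -/
theorem mem_int_tile (hq : 0 < q) (hq1 : q ≤ 1 / 1000) {t : Tile} {w z : ℂ}
    (h : z ∈ interior (img q (transl w) (.tile t))) :
    t.xl q < (z - w).re ∧ (z - w).re < t.xr q ∧ (t.sh q).lo (z - w).re < (z - w).im ∧
      (z - w).im < (t.sh q).hi (z - w).re := by
  unfold img at h
  rw [(s2 _ _).1] at h
  obtain ⟨z', hz', rfl⟩ := h
  rw [transl_app, add_sub_cancel_right]
  have := (t.good hq hq1).interior_eq
  change z' ∈ interior (t.sh q).reg at hz'
  rw [this] at hz'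
  exact hz'

/-- K5 -/
theorem k5 (hK1 : K1Stmt) (hK2 : K2Stmt) (hK3 : K3Stmt) (hK4 : K4Stmt) : K5Stmt := by
  intro q G x hG hs hsol
  have hq := hs.pos
  have hq2 : q ≤ 1 / 2 ^ 20 := hs.le.trans (by norm_num)
  have hq1 : q ≤ 1 / 1000 := hs.le.trans (by norm_num)
  have h3 : 0 < q ^ 3 := by positivity
  have h4 : 0 < q ^ 4 := by positivity
  have h3' := cube_small hq hq1
  have h4' : q ^ 4 ≤ q ^ 3 * (1 / 1000) := by nlinarith only [hq2, h3]
  have hN1 : (1 : ℝ) ≤ G.N := by
    unfold Layout.N
    push_cast
    linarith [(Nat.cast_nonneg G.n : (0 : ℝ) ≤ G.n)]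
  -- positions of levers
  have hlev : ∀ c : {c : Fin G.M // (G.top c).isL = true}, ∃ h : Motion,
      ∃ σ : Bool, G.top c.1 = .portL σ ∧ ∀ z ∈ img q h (.lever σ),
      -q ^ 3 / 2 ≤ z.re ∧ z.re ≤ 1 + q ^ 3 / 2 ∧ q ^ 3 / 2 ≤ z.im ∧ z.im ≤ 1 + q ^ 3 / 2 ∧
      G.disp x c.1 (G.N - 1) + tents 0 (((pcol σ).marks.filter (fun p : ℕ => 16 < p)).map
        fun p : ℕ => ((p : ℝ) / 32 - 1 / 2, q)) z.re ≤ z.im ∧
      G.disp x ((c.1 : ℕ) + 1) (G.N - 1) + tents 0 (((pcol σ).marks.filter
        (fun p : ℕ => p < 16)).map fun p : ℕ => ((p : ℝ) / 32 + 1 / 2, q)) z.re ≤ z.im ∧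
      z.im ≤ piv q σ + (1 + q ^ 3 - piv q σ) * |z.re - 20 / 32| / q ^ 3 := by
    rintro ⟨c, hc⟩
    cases ht : G.top c with
    | flat a o => rw [ht] at hc; cases hc
    | portR σ => rw [ht] at hc; cases hc
    | portL σ =>
      obtain ⟨l1, l2, l3⟩ := hsol.lever c σ c.isLt ht
      obtain ⟨h, hh⟩ := hK3 q _ _ σ hq hq2 l1 l2 l3
      exact ⟨h, σ, rfl, hh⟩
  choose hm σf hσ hmp using hlev
  have hsig : ∀ c : {c : Fin G.M // (G.top c).isL = true}, (G.top c.1).sig = σf c := by
    intro c
    rw [hσ c]
    rfl
  let g : Cell G → Motion := fun i => match i with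
    | .inl p => transl (posT G x p.1 p.2)
    | .inr c => (hm c).tr ⟨(c.1 : ℕ) + 1 / 2, G.N⟩
  -- points of a lever
  have hptL : ∀ (c : {c : Fin G.M // (G.top c).isL = true}) (z : ℂ),
      z ∈ img q (g (.inr c)) (G.shp (.inr c)) →
      z - ⟨(c.1 : ℕ) + 1 / 2, G.N⟩ ∈ img q (hm c) (.lever (σf c)) := by
    rintro c z ⟨w, hw, rfl⟩
    have e : G.shp (.inr c) = .lever (σf c) := by
      show Shp.lever (G.top c.1).sig = _
      rw [hsig]
    rw [e] at hw
    refine ⟨w, hw, ?_⟩
    show _ = ((hm c).tr ⟨(c.1 : ℕ) + 1 / 2, G.N⟩).app w - _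
    rw [Motion.tr_app, add_sub_cancel_right]
  have hsub : ∀ i, img q (g i) (G.shp i) ⊆ G.cont q := by
    rintro (p | c)
    · rintro _ ⟨w, hw, rfl⟩
      show (transl (posT G x p.1 p.2)).app w ∈ _
      rw [transl_app]
      exact hK4 q G x hG hs hsol p.1 p.2 p.1.isLt p.2.isLt w hw
    · intro z hz
      have hz' := hptL c z hz
      obtain ⟨a1, a2, a3, a4, a5, a6, a7⟩ := hmp c _ hz'
      simp only [Complex.sub_re, Complex.sub_im] at a1 a2 a3 a4 a5 a6 a7
      have hS := (s4 q G hG hs).2.2.2.2.2
      obtain ⟨b1, b2⟩ := hG.portL c.1 (σf c) c.1.isLt (hσ c)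
      rcases le_or_gt z.re ((c.1 : ℕ) + 1) with hle | hgt
      · refine hS z c.1 c.1.isLt ?_ hle ?_ ?_
        · linarith only [hq2, h3', a1]
        · exact (locFloor_le hq _ _).trans (by linarith only [hq2, h4, h4', hN1, a3])
        · rw [hσ c]
          have : 1 + q ^ 3 ≤ locCeil q (.portL (σf c)) (z.re - (c.1 : ℕ)) := by
            refine le_trans ?_ (le_max_right _ _)
            refine le_min le_rfl ?_
            have : 1 ≤ (z.re - (c.1 : ℕ) - 1 / 2 + 2 * q ^ 3) / q ^ 3 := by
              rw [le_div_iff₀ h3]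
              linarith only [h4, h4', a1]
            linarith only [this]
          linarith only [h4, h4', a4, this]
      · refine hS z ((c.1 : ℕ) + 1) b1 ?_ ?_ ?_ ?_
        · push_cast
          linarith only [hgt]
        · push_cast
          linarith only [hq2, h3', a2]
        · exact (locFloor_le hq _ _).trans (by linarith only [hq2, h4, h4', hN1, a3])
        · rw [b2]
          have : z.im - G.N ≤ locCeil q (.portR (σf c)) (z.re - ((c.1 : ℕ) + 1 : ℕ)) := by
            push_cast
            refine le_trans ?_ (le_max_right _ _)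
            refine le_min (le_min (by linarith only [h4, h4', a4]) ?_) ?_
            · have : 1 ≤ (1 / 2 + 2 * q ^ 3 - (z.re - ((c.1 : ℕ) + 1))) / q ^ 3 := by
                rw [le_div_iff₀ h3]
                linarith only [h4, h4', a2]
              linarith only [h4, h4', a4, this]
            · have e : z.re - ((c.1 : ℕ) + 1 / 2) - 20 / 32 = z.re - ((c.1 : ℕ) + 1) - 4 / 32 := by
                ring
              rw [e] at a7
              exact a7
          linarith only [this]
  -- bounds for tiles
  have hbT : ∀ (c r : ℕ) (z : ℂ), c < G.M → r < G.N →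
      z ∈ interior (img q (transl (posT G x c r)) (.tile (G.ty c r))) →
      (G.ty c r).xl q < z.re - c - x r ∧ z.re - c - x r < (G.ty c r).xr q ∧
      ((G.ty c r).sh q).lo (z.re - c - x r) < z.im - r - G.disp x c r ∧
      z.im - r - G.disp x c r < ((G.ty c r).sh q).hi (z.re - c - x r) := by
    intro c r z hc hr hz
    obtain ⟨e1, e2, e3, e4⟩ := mem_int_tile hq hq1 hz
    have f1 : (z - posT G x c r).re = z.re - c - x r := by
      show z.re - (c + x r) = _
      ring
    have f2 : (z - posT G x c r).im = z.im - r - G.disp x c r := by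
      show z.im - (r + G.disp x c r) = _
      ring
    rw [f1] at e1 e2 e3 e4
    rw [f2] at e3 e4
    exact ⟨e1, e2, e3, e4⟩
  -- two tiles, the first one in a lower row or further left in the same row
  have hTT : ∀ (c r c' r' : ℕ), c < G.M → r < G.N → c' < G.M → r' < G.N →
      (r < r' ∨ (r = r' ∧ c < c')) → ∀ z : ℂ,
      z ∈ interior (img q (transl (posT G x c r)) (.tile (G.ty c r))) →
      z ∈ interior (img q (transl (posT G x c' r')) (.tile (G.ty c' r'))) → False := by
    intro c r c' r' hc hr hc' hr' hord z hz hz'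
    obtain ⟨a1, a2, a3, a4⟩ := hbT c r z hc hr hz
    obtain ⟨b1, b2, b3, b4⟩ := hbT c' r' z hc' hr' hz'
    obtain ⟨x1, x2⟩ := abs_le.1 (hsol.row r)
    obtain ⟨x3, x4⟩ := abs_le.1 (hsol.row r')
    obtain ⟨y1, y2⟩ := abs_le.1 (hsol.col c r hc hr)
    obtain ⟨y3, y4⟩ := abs_le.1 (hsol.col c' r' hc' hr')
    have t1 := (G.ty c r).xl_nonneg hq
    have t2 := (G.ty c r).xr_le hq
    have t3 := (G.ty c' r').xl_nonneg hq
    have t4 := (G.ty c' r').xr_le hq
    rcases hord with hlt | ⟨rfl, hlt⟩
    · rcases (Nat.succ_le_of_lt hlt).lt_or_eq with h2 | h2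
      · -- rows far apart
        have h5 : (r : ℝ) + 2 ≤ r' := by exact_mod_cast h2
        have h6 := (G.ty c r).hi_le hq (z.re - c - x r)
        have h7 := (G.ty c' r').lo_nonneg q (z.re - c' - x r')
        linarith only [hq2, h3', h4', a4, b3, y2, y3, h5, h6, h7]
      · -- adjacent rows
        have hr2 : r' = r + 1 := h2.symm
        subst hr2
        have hcast : ((r + 1 : ℕ) : ℝ) = r + 1 := by push_cast; ring
        rw [hcast] at b3 b4
        by_cases hcc : c = c'
        · subst hcc
          have hk := hK1 q (G.ty c r) (G.ty c (r + 1)) (x r) (x (r + 1)) (G.disp x c r)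
            (G.disp x c (r + 1)) (z.re - c) hq hq2 (hG.fits.vert c r hc hr') (hsol.row r)
            (hsol.row (r + 1)) (by
              rw [disp_succ]
              by_cases hsg : (G.ty c (r + 1)).sgn = 0
              · rw [hsg]
                simp
              · have hodd := hG.odd c (r + 1) hc hr' hsg
                have : x r = 0 := hsol.even r (by omega)
                rw [this, sub_zero]) a1.le a2.le b1.le b2.le
          linarith only [a4, b3, hk]
        · by_cases h5 : c' = c + 1
          · subst h5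
            have hcast' : ((c + 1 : ℕ) : ℝ) = c + 1 := by push_cast; ring
            rw [hcast'] at b1 b2 b3 b4
            have e : z.re - (c + 1) - x (r + 1) = z.re - c - 1 - x (r + 1) := by ring
            rw [e] at b1 b2 b3 b4
            have hk := (hK2 q (G.ty c r) (G.ty (c + 1) (r + 1)) (x r) (x (r + 1)) (G.disp x c r)
              (G.disp x (c + 1) (r + 1)) (z.re - c) hq hq2 (hsol.row r) (hsol.row (r + 1))
              (hsol.col c r hc hr) (hsol.col (c + 1) (r + 1) hc' hr') a1.le a2.le).1 b1.le b2.le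
            linarith only [a4, b3, hk]
          · by_cases h6 : c = c' + 1
            · subst h6
              have hcast' : ((c' + 1 : ℕ) : ℝ) = c' + 1 := by push_cast; ring
              rw [hcast'] at a1 a2 a3 a4
              have e : z.re - c' - x (r + 1) = z.re - (c' + 1) + 1 - x (r + 1) := by ring
              rw [e] at b1 b2 b3 b4
              have hk := (hK2 q (G.ty (c' + 1) r) (G.ty c' (r + 1)) (x r) (x (r + 1))
                (G.disp x (c' + 1) r) (G.disp x c' (r + 1)) (z.re - (c' + 1)) hq hq2 (hsol.row r)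
                (hsol.row (r + 1)) (hsol.col (c' + 1) r hc hr) (hsol.col c' (r + 1) hc' hr')
                a1.le a2.le).2 b1.le b2.le
              linarith only [b3, a4, hk]
            · rcases lt_or_gt_of_ne hcc with h7 | h7
              · have h8 : (c : ℝ) + 2 ≤ c' := by exact_mod_cast (by omega : c + 2 ≤ c')
                linarith only [hq2, h3', h4', a2, x2, t2, b1, x3, t3, h8]
              · have h8 : (c' : ℝ) + 2 ≤ c := by exact_mod_cast (by omega : c' + 2 ≤ c)
                linarith only [hq2, h3', h4', a1, x1, t1, b2, x4, t4, h8]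
    · rcases (Nat.succ_le_of_lt hlt).lt_or_eq with h2 | h2
      · have h5 : (c : ℝ) + 2 ≤ c' := by exact_mod_cast h2
        linarith only [hq2, a2, t2, b1, t3, h5]
      · have hc2 : c' = c + 1 := h2.symm
        subst hc2
        have hw := hG.fits.horiz c r hc' hr
        have e : (G.ty c r).xr q = 1 + (G.ty (c + 1) r).xl q := by
          unfold Tile.xr Tile.xl
          rw [hw]
          split_ifs <;> ring
        have hcast' : ((c + 1 : ℕ) : ℝ) = c + 1 := by push_cast; ring
        rw [hcast'] at b1
        linarith only [a2, b1, e]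
  -- a tile and a lever
  have hTL : ∀ (c r : ℕ) (l : {c : Fin G.M // (G.top c).isL = true}), c < G.M → r < G.N →
      ∀ z : ℂ, z ∈ interior (img q (transl (posT G x c r)) (.tile (G.ty c r))) →
      z ∈ img q (g (.inr l)) (G.shp (.inr l)) → False := by
    intro c r l hc hr z hz hz'
    obtain ⟨a1, a2, a3, a4⟩ := hbT c r z hc hr hz
    obtain ⟨b1, b2, b3, b4, b5, b6, b7⟩ := hmp l _ (hptL l z hz')
    simp only [Complex.sub_re, Complex.sub_im] at b1 b2 b3 b4 b5 b6 b7
    obtain ⟨y1, y2⟩ := abs_le.1 (hsol.col c r hc hr)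
    obtain ⟨x1, x2⟩ := abs_le.1 (hsol.row r)
    have t1 := (G.ty c r).xl_nonneg hq
    have t2 := (G.ty c r).xr_le hq
    by_cases hrN : r + 1 < G.N
    · have h5 : (r : ℝ) + 2 ≤ G.N := by exact_mod_cast hrN
      have h6 := (G.ty c r).hi_le hq (z.re - c - x r)
      linarith only [hq2, h4, h4', a4, b3, y2, h5, h6]
    · have hr2 : r = G.N - 1 := by omega
      have hrr : (r : ℝ) + 1 = G.N := by
        have : r + 1 = G.N := by omega
        exact_mod_cast this
      have hx0 : x r = 0 := hsol.even r (by unfold Layout.N at hr2; omega)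
      rw [hx0, sub_zero] at a1 a2 a3 a4
      obtain ⟨p1, p2⟩ := hG.portL l.1 (σf l) l.1.isLt (hσ l)
      -- the top of the tile is below the tents of its marks
      have hhi : ((G.ty c r).sh q).hi (z.re - c) ≤
          tents 1 ((G.ty c r).top.marks.map fun p : ℕ => ((p : ℝ) / 32, 1 + q)) (z.re - c) := by
        have := cham_nonneg q ((G.ty c r).xl q) (z.re - c)
        show tents 1 ((G.ty c r).top.marks.map fun p : ℕ => ((p : ℝ) / 32, 1 + q)) (z.re - c) -
          cham q ((G.ty c r).xl q) (z.re - c) ≤ _
        linarith only [this]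
      by_cases hc1 : c = (l.1 : ℕ)
      · have htop : (G.ty c r).top = pcol (σf l) := by
          rw [hr2, hG.fits.ceil c hc, hc1, hσ l]
          rfl
        have hX : 1 / 2 - q ^ 3 / 2 ≤ z.re - c := by rw [hc1]; linarith only [b1]
        have h7 : tents 1 ((G.ty c r).top.marks.map fun p : ℕ => ((p : ℝ) / 32, 1 + q)) (z.re - c)
            ≤ 1 + tents 0 (((pcol (σf l)).marks.filter (fun p : ℕ => 16 < p)).map
              fun p : ℕ => ((p : ℝ) / 32 - 1 / 2, q)) (z.re - ((l.1 : ℕ) + 1 / 2)) := by
          rw [htop]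
          refine tents_le ?_ ?_
          · have := le_tents 0 (((pcol (σf l)).marks.filter (fun p : ℕ => 16 < p)).map
              fun p : ℕ => ((p : ℝ) / 32 - 1 / 2, q)) (z.re - ((l.1 : ℕ) + 1 / 2))
            linarith only [this]
          · intro d hd
            obtain ⟨p, hp, rfl⟩ := List.mem_map.1 hd
            by_cases h16 : 16 < p
            · have := tent_le_tents (g := 0) (L := ((pcol (σf l)).marks.filter
                (fun p : ℕ => 16 < p)).map fun p : ℕ => ((p : ℝ) / 32 - 1 / 2, q))
                (d := ((p : ℝ) / 32 - 1 / 2, q)) (List.mem_map.2 ⟨p, List.mem_filter.2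
                  ⟨hp, by simpa using h16⟩, rfl⟩) (z.re - ((l.1 : ℕ) + 1 / 2))
              have e : z.re - ((l.1 : ℕ) + 1 / 2) - ((p : ℝ) / 32 - 1 / 2) =
                  z.re - c - (p : ℝ) / 32 := by rw [hc1]; ring
              simp only at this ⊢
              rw [e] at this
              linarith only [this]
            · have hp15 : p ≤ 15 := by
                have : p ≠ 16 := by
                  rintro rfl
                  revert hp
                  cases σf l <;> simp [pcol, Col.marks]
                omega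
              have hp' : (p : ℝ) ≤ 15 := by exact_mod_cast hp15
              have h8 := le_tents 0 (((pcol (σf l)).marks.filter (fun p : ℕ => 16 < p)).map
                fun p : ℕ => ((p : ℝ) / 32 - 1 / 2, q)) (z.re - ((l.1 : ℕ) + 1 / 2))
              have h9 : z.re - c - (p : ℝ) / 32 ≤ |z.re - c - (p : ℝ) / 32| := le_abs_self _
              simp only
              linarith only [hq2, h3', hX, hp', h8, h9]
        rw [← hc1, ← hr2] at b5
        have e9 : z.re - ((c : ℝ) + 1 / 2) = z.re - ((l.1 : ℕ) + 1 / 2) := by rw [hc1]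
        rw [e9] at b5
        linarith only [a4, b5, hrr, hhi, h7]
      · by_cases hc2 : c = (l.1 : ℕ) + 1
        · have htop : (G.ty c r).top = pcol (σf l) := by
            rw [hr2, hG.fits.ceil c hc, hc2, p2]
            rfl
          have hcc : (c : ℝ) = (l.1 : ℕ) + 1 := by rw [hc2]; push_cast; ring
          have hX : z.re - c ≤ 1 / 2 + q ^ 3 / 2 := by rw [hcc]; linarith only [b2]
          have h7 : tents 1 ((G.ty c r).top.marks.map fun p : ℕ => ((p : ℝ) / 32, 1 + q))
              (z.re - c) ≤ 1 + tents 0 (((pcol (σf l)).marks.filter (fun p : ℕ => p < 16)).map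
                fun p : ℕ => ((p : ℝ) / 32 + 1 / 2, q)) (z.re - ((l.1 : ℕ) + 1 / 2)) := by
            rw [htop]
            refine tents_le ?_ ?_
            · have := le_tents 0 (((pcol (σf l)).marks.filter (fun p : ℕ => p < 16)).map
                fun p : ℕ => ((p : ℝ) / 32 + 1 / 2, q)) (z.re - ((l.1 : ℕ) + 1 / 2))
              linarith only [this]
            · intro d hd
              obtain ⟨p, hp, rfl⟩ := List.mem_map.1 hd
              by_cases h16 : p < 16
              · have := tent_le_tents (g := 0) (L := ((pcol (σf l)).marks.filter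
                  (fun p : ℕ => p < 16)).map fun p : ℕ => ((p : ℝ) / 32 + 1 / 2, q))
                  (d := ((p : ℝ) / 32 + 1 / 2, q)) (List.mem_map.2 ⟨p, List.mem_filter.2
                    ⟨hp, by simpa using h16⟩, rfl⟩) (z.re - ((l.1 : ℕ) + 1 / 2))
                have e : z.re - ((l.1 : ℕ) + 1 / 2) - ((p : ℝ) / 32 + 1 / 2) =
                    z.re - c - (p : ℝ) / 32 := by rw [hcc]; ring
                simp only at this ⊢
                rw [e] at this
                linarith only [this]
              · have hp15 : 17 ≤ p := by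
                  have : p ≠ 16 := by
                    rintro rfl
                    revert hp
                    cases σf l <;> simp [pcol, Col.marks]
                  omega
                have hp' : (17 : ℝ) ≤ p := by exact_mod_cast hp15
                have h8 := le_tents 0 (((pcol (σf l)).marks.filter (fun p : ℕ => p < 16)).map
                  fun p : ℕ => ((p : ℝ) / 32 + 1 / 2, q)) (z.re - ((l.1 : ℕ) + 1 / 2))
                have h9 : -(z.re - c - (p : ℝ) / 32) ≤ |z.re - c - (p : ℝ) / 32| := neg_le_abs _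
                simp only
                linarith only [hq2, h3', b2, hcc, hp', h8, h9]
          rw [← hc2, ← hr2] at b6
          linarith only [a4, b6, hrr, hhi, h7]
        · rcases lt_or_gt_of_ne hc1 with h5 | h5
          · have h6 : (c : ℝ) + 1 ≤ (l.1 : ℕ) := by exact_mod_cast h5
            linarith only [hq2, h3', a2, b1, t2, h6]
          · have h6 : ((l.1 : ℕ) : ℝ) + 2 ≤ c := by
              exact_mod_cast (by omega : (l.1 : ℕ) + 2 ≤ c)
            linarith only [hq2, h3', a1, b2, t1, h6]
  have hdisj : ∀ i j, i ≠ j → Disjoint (interior (img q (g i) (G.shp i)))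
      (interior (img q (g j) (G.shp j))) := by
    intro i j hij
    rw [Set.disjoint_left]
    intro z hz hz'
    rcases i with p | l <;> rcases j with p' | l'
    · obtain ⟨c, r⟩ := p
      obtain ⟨c', r'⟩ := p'
      rcases lt_trichotomy (r : ℕ) r' with h | h | h
      · exact hTT c r c' r' c.isLt r.isLt c'.isLt r'.isLt (Or.inl h) z hz hz'
      · rcases lt_trichotomy (c : ℕ) c' with h5 | h5 | h5
        · exact hTT c r c' r' c.isLt r.isLt c'.isLt r'.isLt (Or.inr ⟨h, h5⟩) z hz hz'
        · exact hij (by rw [Fin.ext h, Fin.ext h5])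
        · exact hTT c' r' c r c'.isLt r'.isLt c.isLt r.isLt (Or.inr ⟨h.symm, h5⟩) z hz' hz
      · exact hTT c' r' c r c'.isLt r'.isLt c.isLt r.isLt (Or.inl h) z hz' hz
    · exact hTL p.1 p.2 l' p.1.isLt p.2.isLt z hz (interior_subset hz')
    · exact hTL p'.1 p'.2 l p'.1.isLt p'.2.isLt z hz' (interior_subset hz)
    · obtain ⟨b1, b2, -⟩ := hmp l _ (hptL l z (interior_subset hz))
      obtain ⟨d1, d2, -⟩ := hmp l' _ (hptL l' z (interior_subset hz'))
      simp only [Complex.sub_re] at b1 b2 d1 d2
      have hne : (l.1 : ℕ) ≠ (l'.1 : ℕ) := fun h => hij (by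
        rw [Subtype.ext (Fin.ext h)])
      have key : ∀ l l' : {c : Fin G.M // (G.top c).isL = true}, (l.1 : ℕ) < (l'.1 : ℕ) →
          (l.1 : ℕ) + 2 ≤ (l'.1 : ℕ) := by
        intro l l' h
        by_contra hc
        have h5 : (l'.1 : ℕ) = (l.1 : ℕ) + 1 := by omega
        have h6 := (hG.portL l.1 (σf l) l.1.isLt (hσ l)).2
        rw [← h5, hσ l'] at h6
        cases h6
      rcases lt_or_gt_of_ne hne with h | h
      · have h5 : ((l.1 : ℕ) : ℝ) + 2 ≤ (l'.1 : ℕ) := by exact_mod_cast key l l' h
        linarith only [hq2, h3', b2, d1, h5]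
      · have h5 : ((l'.1 : ℕ) : ℝ) + 2 ≤ (l.1 : ℕ) := by exact_mod_cast key l' l h
        linarith only [hq2, h3', b1, d2, h5]
  exact ⟨⟨g, hsub, hdisj⟩⟩

end Pool.Agent.Helper2_Pack
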