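import Pool.Agent.Helper13_Pack.F7
import Pool.Agent.Helper2_Pack.K5

/-!
# F8: the rooms of the levers
-/

namespace Pool.Agent.Helper2_Pack

open Pool.Agent.Helper13_Pack (near_cell area_bound re_im_near app_near inv_near tile_below N_pos
  small_K marks_dist norm_le_of_re_im corner_inl_re corner_inl_im corner_inr_re corner_inr_im
  one_le_K disj_img)
open MeasureTheory Set

/-- bumps and dents below a ceiling, for the marks with a property -/
theorem bump_dent (hA2 : A2Stmt) (hC7 : C7Stmt) {q : ℝ} {G : Layout} (p : Packing q G)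
    (f : Cell G ≃ Cell G) (ty : ℕ → ℕ → Tile) (hG : G.OK) (hS : Small q G) (hf : IsCoarse p f)
    (hfa : FineArray p f ty) {c : ℕ} (hc : c < G.M) (a : Col) (P : ℕ → Prop)
    (hup : ∀ k : ℕ, 10 ≤ k → k ≤ 29 → P k → k ∉ a.marks → ∀ x : ℝ, |x - (k : ℝ) / 32| ≤ 1 / 100 →
      locCeil q (G.top c) x ≤ q ^ 3)
    (hlow : ∀ k ∈ a.marks, P k → ∀ x : ℝ, |x - (k : ℝ) / 32| ≤ q / 4 →
      q / 2 ≤ locCeil q (G.top c) x)
    (hroom : ∀ (c' : {c : Fin G.M // (G.top c).isL = true}) (k : ℕ), 10 ≤ k → k ≤ 29 → P k →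
      (c : ℝ) + k / 32 + 1 / 100 < (c'.1 : ℕ) + 1 / 2 ∨
      ((c'.1 : ℕ) : ℝ) + 3 / 2 + 1 / 100 < c + k / 32) :
    (∀ k ∈ (ty c (G.N - 1)).top.marks, P k → k ∈ a.marks) ∧
    (∀ k ∈ a.marks, P k → k ∈ (ty c (G.N - 1)).top.marks) := by
  have hq := hS.pos
  have hq60 := hS.le
  have hq20 : q ≤ 1 / 2 ^ 20 := hq60.trans (by norm_num)
  have hq1000 : q ≤ 1 / 1000 := hq20.trans (by norm_num)
  have hqq : q ^ 2 ≤ q * (1 / 1000) := by
    rw [pow_two]
    exact mul_le_mul_of_nonneg_left hq1000 hq.le
  have hq3 : 0 < q ^ 3 := by positivity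
  have hq3' := cube_small hq hq1000
  obtain ⟨hm, hc1, hc2, hc3, hc4, hc5⟩ := s4 q G hG hS
  have hN0 := N_pos G
  obtain ⟨hst, hθ, hη⟩ := hfa ⟨c, hc⟩ ⟨G.N - 1, by omega⟩
  set i₀ : Cell G := .inl (⟨c, hc⟩, ⟨G.N - 1, by omega⟩) with hi₀
  set g := p.g (f i₀) with hg
  set t := ty c (G.N - 1) with ht
  have hst' : G.shp (f i₀) = .tile t := hst
  set v₀ : ℂ := ⟨c, (G.N - 1 : ℕ)⟩ with hv₀
  have hη' : ‖g.v - v₀‖ ≤ q ^ 2 := hη
  have hv₀im : v₀.im = (G.N : ℝ) - 1 := by
    show ((G.N - 1 : ℕ) : ℝ) = (G.N : ℝ) - 1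
    rw [Nat.cast_sub hN0]
    simp
  have hv₀re : v₀.re = (c : ℝ) := rfl
  have hc0 : (0 : ℝ) ≤ c := Nat.cast_nonneg _
  have hcM : (c : ℝ) + 1 ≤ G.M := by exact_mod_cast hc
  refine ⟨?_, ?_⟩
  · -- every bump has a dent
    intro k hk hPk
    by_contra hka
    obtain ⟨hk1, hk2⟩ := marks_range _ k hk
    have hk1' : (10 : ℝ) ≤ k := by exact_mod_cast hk1
    have hk2' : (k : ℝ) ≤ 29 := by exact_mod_cast hk2
    have hz : (⟨(k : ℝ) / 32, 1 + q⟩ : ℂ) ∈ (Shp.tile t).reg q := by
      have h6 := t.xl_le hq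
      have h7 := t.le_xr hq
      refine ⟨?_, ?_, ?_, ?_⟩
      · show t.xl q ≤ (k : ℝ) / 32
        linarith only [hq60, hk1', h6]
      · show (k : ℝ) / 32 ≤ t.xr q
        linarith only [hk2', h7]
      · have h9 := t.lo_le hq hq1000 (x := (k : ℝ) / 32) (by linarith only [hq60, hk1', h6])
        show (t.sh q).lo ((k : ℝ) / 32) ≤ 1 + q
        linarith only [hq60, hq3', h9]
      · show 1 + q ≤ tents 1 (t.top.marks.map fun p : ℕ => ((p : ℝ) / 32, 1 + q)) ((k : ℝ) / 32) -
          cham q (t.xl q) ((k : ℝ) / 32)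
        rw [cham_eq_zero (by linarith only [hq60, hq3', hk1', h6]) (by linarith), sub_zero]
        have hd : ((k : ℝ) / 32, 1 + q) ∈ t.top.marks.map fun p : ℕ => ((p : ℝ) / 32, 1 + q) :=
          List.mem_map.2 ⟨k, hk, rfl⟩
        have := tent_le_tents (g := 1) hd ((k : ℝ) / 32)
        simpa using this
    have hnorm : ‖(⟨(k : ℝ) / 32, 1 + q⟩ : ℂ)‖ ≤ 3 := by
      have e1 : |(⟨(k : ℝ) / 32, 1 + q⟩ : ℂ).re| ≤ 1 :=
        abs_le.2 ⟨by simp only; linarith only [hk1'], by simp only; linarith⟩
      have e2 : |(⟨(k : ℝ) / 32, 1 + q⟩ : ℂ).im| ≤ 2 :=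
        abs_le.2 ⟨by simp only; linarith, by simp only; linarith only [hq60]⟩
      have := norm_le_of_re_im e1 e2
      linarith only [this]
    obtain ⟨a1, a2, a3, a4⟩ := re_im_near (app_near hθ hη' hnorm)
    rw [Complex.add_re, hv₀re] at a1 a2
    rw [Complex.add_im, hv₀im] at a3 a4
    simp only at a1 a2 a3 a4
    set w := g.app ⟨(k : ℝ) / 32, 1 + q⟩ with hw
    have hwc : w ∈ G.cont q := by
      refine p.sub (f i₀) ?_
      rw [hst']
      exact mem_image_of_mem _ hz
    obtain ⟨_, h8⟩ := hc4 w hwc c hc (by linarith only [hq60, hqq, hk1', a1]) (by linarith)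
    have h9 := hup k hk1 hk2 hPk hka (w.re - c) (abs_le.2 ⟨by linarith only [hq60, hqq, a1], by linarith⟩)
    linarith only [hqq, hq3, hq3', a3, h8, h9]
  · -- every dent has a bump
    intro k hk hPk
    by_contra hkt
    obtain ⟨hk1, hk2⟩ := marks_range _ k hk
    have hk1' : (10 : ℝ) ≤ k := by exact_mod_cast hk1
    have hk2' : (k : ℝ) ≤ 29 := by exact_mod_cast hk2
    have hbox : volume {z : ℂ | c + (k : ℝ) / 32 - q / 4 ≤ z.re ∧ z.re ≤ c + (k : ℝ) / 32 + q / 4 ∧
        G.N + q / 4 ≤ z.im ∧ z.im ≤ G.N + q / 2} ≤ ENNReal.ofReal (64 * G.K * q ^ 3) := by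
      refine area_bound hA2 hG hS p f ?_ ?_
      · rintro z ⟨h1, h2, h3, h4⟩
        refine hc5 z c hc (by linarith only [hq60, hk1', h1]) (by linarith only [hq60, hk2', h2]) ?_ ?_
        · have := locFloor_le hq (G.ty c 0).bot (z.re - c)
          have hN1 : (1 : ℝ) ≤ G.N := by exact_mod_cast hN0
          linarith only [hq60, h3, this, hN1]
        · have h5 := hlow k hk hPk (z.re - c) (abs_le.2 ⟨by linarith only [h1], by linarith only [h2]⟩)
          linarith only [h4, h5]
      · rintro i z ⟨h1, h2, h3, h4⟩ hzi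
        obtain ⟨h6, h7, h8, h9⟩ := near_cell hC7 hS hf i hzi
        rcases i with ⟨c', r'⟩ | c'
        · rw [corner_inl_re] at h6 h7
          rw [corner_inl_im] at h8 h9
          have e1 : (c' : ℕ) = c := by
            have a1 : (c' : ℝ) < c + 1 := by linarith only [hq60, hk2', h2, h6]
            have a2 : (c : ℝ) < c' + 1 := by linarith only [hq60, hk1', h1, h7]
            have a1' : (c' : ℕ) < c + 1 := by exact_mod_cast a1
            have a2' : c < (c' : ℕ) + 1 := by exact_mod_cast a2
            omega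
          have e2 : (r' : ℕ) = G.N - 1 := by
            have a2 : (G.N : ℝ) < r' + 2 := by linarith only [hq3, hq3', h3, h9]
            have a2' : G.N < (r' : ℕ) + 2 := by exact_mod_cast a2
            have := r'.2
            omega
          have e3 : (Sum.inl (c', r') : Cell G) = i₀ := by
            rw [hi₀]
            congr 1
            exact Prod.ext (Fin.ext e1) (Fin.ext e2)
          rw [e3, hst'] at hzi
          have hzt : (starRingEnd ℂ) g.u * (z - g.v) ∈ (Shp.tile t).reg q := (g.mem_image _ _).1 hzi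
          have h10 : ‖z - v₀‖ ≤ 3 := by
            have b1 : |(z - v₀).re| ≤ 1 := by
              rw [Complex.sub_re, hv₀re]
              exact abs_le.2 ⟨by linarith only [hq60, hk1', h1], by linarith only [hq60, hk2', h2]⟩
            have b2 : |(z - v₀).im| ≤ 2 := by
              rw [Complex.sub_im, hv₀im]
              exact abs_le.2 ⟨by linarith only [hq3, hq3', h3], by linarith only [hq60, h4]⟩
            have := norm_le_of_re_im b1 b2
            linarith only [this]
          obtain ⟨a1, a2, a3, a4⟩ := re_im_near (inv_near hθ hη' h10)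
          rw [Complex.sub_re, hv₀re] at a1 a2
          rw [Complex.sub_im, hv₀im] at a3 a4
          set y := (starRingEnd ℂ) g.u * (z - g.v) with hy
          have h11 := tile_below t hzt
          have h12 : topF q t.top y.re ≤ 1 := by
            refine tents_le le_rfl ?_
            intro d hd
            obtain ⟨k', hk', rfl⟩ := List.mem_map.1 hd
            have hne : k ≠ k' := fun e => hkt (e ▸ hk')
            have h13 := marks_dist hne
            have h14 : |y.re - (k : ℝ) / 32| ≤ q := abs_le.2 ⟨by linarith only [hqq, hq3, hq3', h1, a1], by linarith only [hqq, hq3, hq3', h2, a2]⟩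
            have h15 := abs_sub_abs_le_abs_sub ((k : ℝ) / 32 - (k' : ℝ) / 32) (y.re - (k' : ℝ) / 32)
            have e : (k : ℝ) / 32 - (k' : ℝ) / 32 - (y.re - (k' : ℝ) / 32) =
              -(y.re - (k : ℝ) / 32) := by ring
            rw [e, abs_neg] at h15
            show 1 + q - |y.re - (k' : ℝ) / 32| ≤ 1
            linarith only [hq60, h13, h14, h15]
          linarith only [hqq, hq3, hq3', h3, a3, h11, h12]
        · rw [corner_inr_re] at h6 h7
          rcases hroom c' k hk1 hk2 hPk with h | h <;> linarith only [hq60, h2, h6, h, h1, h7]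
    rw [volume_box (by linarith only [hq3, hq3'])] at hbox
    rw [ENNReal.ofReal_le_ofReal_iff (by positivity)] at hbox
    have h1 := small_K hS
    have h2 : (0 : ℝ) ≤ q * G.K := mul_nonneg hq.le (Nat.cast_nonneg _)
    have h3 : q * G.K * 2 ^ 10 ≤ 1 / 2 := by
      have h4 : q * (2 ^ 60 * G.K) = q * G.K * 2 ^ 10 * 2 ^ 50 := by ring
      rw [h4] at h1
      have h5 : (2 : ℝ) ≤ 2 ^ 50 := by norm_num
      linarith only [h1]
    have e : (c + (k : ℝ) / 32 + q / 4 - (c + (k : ℝ) / 32 - q / 4)) *
        (G.N + q / 2 - (G.N + q / 4)) = q ^ 2 / 8 := by ring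
    rw [e] at hbox
    have e' : 64 * G.K * q ^ 3 = q ^ 2 / 8 * (q * G.K * 2 ^ 10) / 2 := by ring
    rw [e'] at hbox
    have h6 : 0 < q ^ 2 := by positivity
    nlinarith only [hq3, hbox, hq60, h1]

/-! ### Ceilings with ports -/

variable {q : ℝ}

theorem tents_far {L : List ℕ} {k : ℕ} (hk : k ∉ L) {x h g : ℝ} (hx : |x - (k : ℝ) / 32| ≤ 1 / 100)
    (hh : h - 1 / 100 ≤ g) : tents g (L.map fun p : ℕ => ((p : ℝ) / 32, h)) x ≤ g := by
  refine tents_le le_rfl ?_
  intro d hd
  obtain ⟨k', hk', rfl⟩ := List.mem_map.1 hd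
  have hne : k ≠ k' := fun e => hk (e ▸ hk')
  have h10 := marks_dist hne
  have h12 := abs_sub_abs_le_abs_sub ((k : ℝ) / 32 - (k' : ℝ) / 32) (x - (k' : ℝ) / 32)
  have e : (k : ℝ) / 32 - (k' : ℝ) / 32 - (x - (k' : ℝ) / 32) = -(x - (k : ℝ) / 32) := by ring
  rw [e, abs_neg] at h12
  show h - |x - (k' : ℝ) / 32| ≤ g
  linarith only [hx, hh, h10, h12]

theorem portL_up (hq : 0 < q) (hq1 : q ≤ 1 / 1000) (σ : Bool) {k : ℕ} (hk : k < 16)
    (hkm : k ∉ (pcol σ).marks) {x : ℝ} (hx : |x - (k : ℝ) / 32| ≤ 1 / 100) :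
    locCeil q (.portL σ) x ≤ q ^ 3 := by
  have h3 : 0 < q ^ 3 := by positivity
  have h3' := cube_small hq hq1
  have hk' : (k : ℝ) ≤ 15 := by exact_mod_cast (by omega : k ≤ 15)
  obtain ⟨x1, x2⟩ := abs_le.1 hx
  refine max_le (max_le ?_ ?_) ((min_le_right _ _).trans ?_)
  · have : min 1 (x / (4 * q ^ 3)) ≤ 1 := min_le_left _ _
    nlinarith only [h3, this]
  · exact (tents_far (fun h => hkm (List.mem_of_mem_filter h)) hx (by linarith)).trans h3.le
  · have : (x - 1 / 2 + 2 * q ^ 3) / q ^ 3 ≤ 0 := by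
      rw [div_le_iff₀ h3]
      linarith
    linarith only [this]

theorem portL_low (σ : Bool) {k : ℕ} (hk : k ∈ (pcol σ).marks) (h16 : k < 16) {x : ℝ} :
    q + 2 * q ^ 3 - |x - (k : ℝ) / 32| ≤ locCeil q (.portL σ) x := by
  refine le_trans ?_ ((le_max_right _ _).trans (le_max_left _ _))
  have hd : ((k : ℝ) / 32, q + 2 * q ^ 3) ∈ ((pcol σ).marks.filter (fun p : ℕ => p < 16)).map
      fun p : ℕ => ((p : ℝ) / 32, q + 2 * q ^ 3) :=
    List.mem_map.2 ⟨k, List.mem_filter.2 ⟨hk, by simpa using h16⟩, rfl⟩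
  exact tent_le_tents hd x

theorem portR_up (hq : 0 < q) (hq1 : q ≤ 1 / 1000) (σ : Bool) {k : ℕ} (hk : 16 < k)
    (hkm : k ∉ (pcol σ).marks) {x : ℝ} (hx : |x - (k : ℝ) / 32| ≤ 1 / 100) :
    locCeil q (.portR σ) x ≤ q ^ 3 := by
  have h3 : 0 < q ^ 3 := by positivity
  have h3' := cube_small hq hq1
  have hk' : (17 : ℝ) ≤ k := by exact_mod_cast (by omega : 17 ≤ k)
  obtain ⟨x1, x2⟩ := abs_le.1 hx
  refine max_le (max_le ?_ ?_) ((min_le_left _ _).trans ((min_le_right _ _).trans ?_))
  · have : min 1 ((1 - x) / (4 * q ^ 3)) ≤ 1 := min_le_left _ _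
    nlinarith only [h3, this]
  · exact (tents_far (fun h => hkm (List.mem_of_mem_filter h)) hx (by linarith only [hq1, h3'])).trans h3.le
  · have : (1 / 2 + 2 * q ^ 3 - x) / q ^ 3 ≤ 0 := by
      rw [div_le_iff₀ h3]
      linarith
    linarith only [this]

theorem portR_low (σ : Bool) {k : ℕ} (hk : k ∈ (pcol σ).marks) (h16 : 16 < k) {x : ℝ} :
    q + 2 * q ^ 3 - |x - (k : ℝ) / 32| ≤ locCeil q (.portR σ) x := by
  refine le_trans ?_ ((le_max_right _ _).trans (le_max_left _ _))
  have hd : ((k : ℝ) / 32, q + 2 * q ^ 3) ∈ ((pcol σ).marks.filter (fun p : ℕ => 16 < p)).map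
      fun p : ℕ => ((p : ℝ) / 32, q + 2 * q ^ 3) :=
    List.mem_map.2 ⟨k, List.mem_filter.2 ⟨hk, by simpa using h16⟩, rfl⟩
  exact tent_le_tents hd x

theorem filt_lt : ∀ a b : Col, (∀ p ∈ a.marks, p < 16 → p ∈ b.marks) →
    (∀ p ∈ b.marks, p < 16 → p ∈ a.marks) →
    a.marks.filter (fun p : ℕ => p < 16) = b.marks.filter (fun p : ℕ => p < 16) := by
  decide

theorem filt_gt : ∀ a b : Col, (∀ p ∈ a.marks, 16 < p → p ∈ b.marks) →
    (∀ p ∈ b.marks, 16 < p → p ∈ a.marks) →
    a.marks.filter (fun p : ℕ => 16 < p) = b.marks.filter (fun p : ℕ => 16 < p) := by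
  decide

theorem mem_img_tr {g : Motion} {s : Shp} {w z : ℂ} :
    z ∈ img q (g.tr w) s ↔ z - w ∈ img q g s := by
  constructor
  · rintro ⟨y, hy, rfl⟩
    exact ⟨y, hy, by rw [Motion.tr_app, add_sub_cancel_right]⟩
  · rintro ⟨y, hy, h⟩
    exact ⟨y, hy, by rw [Motion.tr_app, h, sub_add_cancel]⟩

theorem mem_int_tr {g : Motion} {s : Shp} {w z : ℂ} (h : z ∈ interior (img q (g.tr w) s)) :
    z - w ∈ interior (img q g s) := by
  unfold img at h ⊢
  rw [(s2 _ _).1] at h ⊢
  obtain ⟨y, hy, rfl⟩ := h
  exact ⟨y, hy, by rw [Motion.tr_app, add_sub_cancel_right]⟩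

/-- F8 -/
theorem f8 (hA2 : A2Stmt) (hC7 : C7Stmt) (hF2 : F2Stmt) : F8Stmt := by
  intro q G p f ty hG hS hf hfa c σ htop
  have hq := hS.pos
  have hq60 := hS.le
  have hq20 : q ≤ 1 / 2 ^ 20 := hq60.trans (by norm_num)
  have hq1000 : q ≤ 1 / 1000 := hq20.trans (by norm_num)
  have hq3 : 0 < q ^ 3 := by positivity
  have hq3' := cube_small hq hq1000
  obtain ⟨hm, hc1, hc2, hc3, hc4, hc5⟩ := s4 q G hG hS
  have hN0 := N_pos G
  have hN1 : (1 : ℝ) ≤ G.N := by exact_mod_cast hN0
  obtain ⟨⟨c, hcM⟩, hcL⟩ := c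
  have htop' : G.top c = .portL σ := htop
  obtain ⟨hc1M, htopR⟩ := hG.portL c σ hcM htop'
  have hc0 : (0 : ℝ) ≤ c := Nat.cast_nonneg _
  have hcM' : (c : ℝ) + 2 ≤ G.M := by exact_mod_cast hc1M
  have hport : ∀ c' : {c : Fin G.M // (G.top c).isL = true}, ∃ σ', G.top (c'.1 : ℕ) = .portL σ' := by
    intro c'
    have hL := c'.2
    have hflat : (G.top (c'.1 : ℕ)).isL = true := hL
    cases hh : G.top (c'.1 : ℕ) with
    | portL σ => exact ⟨σ, rfl⟩
    | flat b o' => rw [hh] at hflat; simp [Top.isL] at hflat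
    | portR σ => rw [hh] at hflat; simp [Top.isL] at hflat
  -- the halves of the colours
  have half1 : (ty c (G.N - 1)).top.marks.filter (fun p : ℕ => p < 16) =
      (pcol σ).marks.filter (fun p : ℕ => p < 16) := by
    obtain ⟨b1, b2⟩ := bump_dent hA2 hC7 p f ty hG hS hf hfa hcM (pcol σ) (fun k => k < 16)
      (by
        intro k _ _ h16 hk x hx
        rw [htop']
        exact portL_up hq hq1000 σ h16 hk hx)
      (by
        intro k hk h16 x hx
        rw [htop']
        have := portL_low (q := q) σ hk h16 (x := x)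
        linarith only [hq3, hq3', hx, this])
      (by
        intro c' k hk1 hk2 hk16
        obtain ⟨σ', hσ'⟩ := hport c'
        obtain ⟨d1, d2⟩ := hG.portL c'.1 σ' c'.1.2 hσ'
        have hk' : (k : ℝ) ≤ 15 := by exact_mod_cast (by omega : k ≤ 15)
        have hk'' : (10 : ℝ) ≤ k := by exact_mod_cast hk1
        have e1 : c ≠ (c'.1 : ℕ) + 1 := by
          intro e
          rw [← e, htop'] at d2
          cases d2
        rcases lt_or_ge (c'.1 : ℕ) c with h | h
        · right
          have : ((c'.1 : ℕ) : ℝ) + 2 ≤ c := by exact_mod_cast (by omega : (c'.1 : ℕ) + 2 ≤ c)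
          linarith only [hk'', this]
        · left
          have : (c : ℝ) ≤ (c'.1 : ℕ) := by exact_mod_cast h
          linarith only [hk', this])
    exact filt_lt _ _ b1 b2
  have half2 : (ty (c + 1) (G.N - 1)).top.marks.filter (fun p : ℕ => 16 < p) =
      (pcol σ).marks.filter (fun p : ℕ => 16 < p) := by
    obtain ⟨b1, b2⟩ := bump_dent hA2 hC7 p f ty hG hS hf hfa hc1M (pcol σ) (fun k => 16 < k)
      (by
        intro k _ _ h16 hk x hx
        rw [htopR]
        exact portR_up hq hq1000 σ h16 hk hx)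
      (by
        intro k hk h16 x hx
        rw [htopR]
        have := portR_low (q := q) σ hk h16 (x := x)
        linarith)
      (by
        intro c' k hk1 hk2 hk16
        obtain ⟨σ', hσ'⟩ := hport c'
        obtain ⟨d1, d2⟩ := hG.portL c'.1 σ' c'.1.2 hσ'
        have hk' : (17 : ℝ) ≤ k := by exact_mod_cast (by omega : 17 ≤ k)
        have hk'' : (k : ℝ) ≤ 29 := by exact_mod_cast hk2
        have e1 : c + 1 ≠ (c'.1 : ℕ) := by
          intro e
          rw [← e, htopR] at hσ'
          cases hσ'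
        push_cast
        rcases lt_or_ge (c + 1) (c'.1 : ℕ) with h | h
        · left
          have : (c : ℝ) + 2 ≤ (c'.1 : ℕ) := by exact_mod_cast h
          linarith only [hk'', this]
        · right
          have : ((c'.1 : ℕ) : ℝ) ≤ c := by exact_mod_cast (by omega : (c'.1 : ℕ) ≤ c)
          linarith only [hk', this])
    exact filt_gt _ _ b1 b2
  -- the three pieces
  set a : ℂ := ⟨(c : ℝ) + 1 / 2, (G.N : ℝ)⟩ with ha
  set ic : Cell G := .inr ⟨⟨c, hcM⟩, hcL⟩ with hic
  have hca : corner ic = a := rfl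
  obtain ⟨hst1, hθ1, hη1⟩ := hfa ⟨c, hcM⟩ ⟨G.N - 1, by omega⟩
  obtain ⟨hst2, hθ2, hη2⟩ := hfa ⟨c + 1, hc1M⟩ ⟨G.N - 1, by omega⟩
  set i1 : Cell G := .inl (⟨c, hcM⟩, ⟨G.N - 1, by omega⟩) with hi1
  set i2 : Cell G := .inl (⟨c + 1, hc1M⟩, ⟨G.N - 1, by omega⟩) with hi2
  have hst1' : G.shp (f i1) = .tile (ty c (G.N - 1)) := hst1
  have hst2' : G.shp (f i2) = .tile (ty (c + 1) (G.N - 1)) := hst2
  have hNm : ((G.N - 1 : ℕ) : ℝ) = (G.N : ℝ) - 1 := by
    rw [Nat.cast_sub hN0]
    simp
  have hω0 : (0 : ℝ) ≤ 64 * G.K * q ^ 3 + q ^ 3 := by positivity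
  have hω : 64 * G.K * q ^ 3 + q ^ 3 ≤ q ^ 2 / 64 := by
    have h1 := small_K hS
    have hK1 : (1 : ℝ) ≤ G.K := by exact_mod_cast one_le_K hG
    have h2 : q * G.K * 2 ^ 13 ≤ 1 := by
      have h5 : 0 ≤ q * G.K := by positivity
      linarith only [h1]
    have h3 : 0 < q ^ 2 := by positivity
    have e : 64 * G.K * q ^ 3 + q ^ 3 ≤ q ^ 2 * (q * G.K * 65) := by
      have : q ^ 2 * (q * G.K * 65) - (64 * G.K * q ^ 3 + q ^ 3) = q ^ 3 * (G.K - 1) := by ring
      have h6 : 0 ≤ q ^ 3 * (G.K - 1 : ℝ) := mul_nonneg hq3.le (by linarith)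
      linarith
    nlinarith only [hq60, h1]
  have key := hF2 q (64 * G.K * q ^ 3 + q ^ 3) σ (ty c (G.N - 1)) (ty (c + 1) (G.N - 1))
    ((p.g (f i1)).tr (-a)) ((p.g (f i2)).tr (-a)) (G.shp (f ic)) ((p.g (f ic)).tr (-a))
    hq hq20 hω0 hω half1 half2 hθ1
    (by
      have e : ((p.g (f i1)).tr (-a)).v - ⟨-1 / 2, -1⟩ = (p.g (f i1)).v - ⟨c, (G.N - 1 : ℕ)⟩ := by
        show (p.g (f i1)).v + -a - ⟨-1 / 2, -1⟩ = _
        apply Complex.ext
        · simp only [Complex.sub_re, Complex.add_re, Complex.neg_re, ha]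
          ring
        · simp only [Complex.sub_im, Complex.add_im, Complex.neg_im, ha, hNm]
          ring
      rw [e]
      exact hη1)
    hθ2
    (by
      have e : ((p.g (f i2)).tr (-a)).v - ⟨1 / 2, -1⟩ =
          (p.g (f i2)).v - ⟨(c + 1 : ℕ), (G.N - 1 : ℕ)⟩ := by
        show (p.g (f i2)).v + -a - ⟨1 / 2, -1⟩ = _
        apply Complex.ext
        · simp only [Complex.sub_re, Complex.add_re, Complex.neg_re, ha]
          push_cast
          ring
        · simp only [Complex.sub_im, Complex.add_im, Complex.neg_im, ha, hNm]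
          ring
      rw [e]
      exact hη2)
    (by
      obtain ⟨h1, h2, k, hk, h3⟩ := hf ic
      rw [hca] at h1 h2
      refine ⟨?_, ?_, k, hk, h3.trans (by norm_num)⟩
      · rw [Motion.tr_app, sub_zero, ← sub_eq_add_neg]
        exact h1.trans (by norm_num)
      · rw [Motion.tr_app, sub_zero, ← sub_eq_add_neg]
        exact h2.trans (by norm_num))
    (by
      rw [Set.disjoint_left]
      intro z hz hz'
      have h1 := mem_int_tr hz
      have h2 := mem_int_tr hz'
      rw [← hst1'] at h1
      exact Set.disjoint_left.1 (disj_img p f (i := i1) (j := ic) (by rw [hi1, hic]; simp)) h1 h2)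
    (by
      rw [Set.disjoint_left]
      intro z hz hz'
      have h1 := mem_int_tr hz
      have h2 := mem_int_tr hz'
      rw [← hst2'] at h1
      exact Set.disjoint_left.1 (disj_img p f (i := i2) (j := ic) (by rw [hi2, hic]; simp)) h1 h2)
    (by
      set W : Set ℂ := {z : ℂ | 1 / 16 < z.re ∧ z.re < 31 / 32 ∧ -1 / 2 < z.im ∧ z.im < 1 / 2} \
        (img q ((p.g (f ic)).tr (-a)) (G.shp (f ic)) ∪
          img q ((p.g (f i1)).tr (-a)) (.tile (ty c (G.N - 1))) ∪
          img q ((p.g (f i2)).tr (-a)) (.tile (ty (c + 1) (G.N - 1)))) with hW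
      set B : Set ℂ := {z : ℂ | (c : ℝ) + 1 / 2 + 20 / 32 - q ^ 3 ≤ z.re ∧
        z.re ≤ (c : ℝ) + 1 / 2 + 20 / 32 + q ^ 3 ∧ (G.N : ℝ) ≤ z.im ∧ z.im ≤ G.N + 1 / 2} with hB
      rw [← (transl a).volume_image W]
      have hsplit : (transl a).app '' W ⊆ ((transl a).app '' W \ B) ∪ B := by
        intro z hz
        by_cases h : z ∈ B
        · exact Or.inr h
        · exact Or.inl ⟨hz, h⟩
      refine (measure_mono hsplit).trans ((measure_union_le _ _).trans ?_)
      rw [ENNReal.ofReal_add (by positivity) hq3.le]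
      refine add_le_add ?_ ?_
      · refine area_bound hA2 hG hS p f ?_ ?_
        · rintro _ ⟨⟨w, ⟨⟨h1, h2, h3, h4⟩, -⟩, rfl⟩, hnB⟩
          rw [transl_app] at hnB ⊢
          have e1 : (w + a).re = w.re + ((c : ℝ) + 1 / 2) := by rw [Complex.add_re]
          have e2 : (w + a).im = w.im + G.N := by rw [Complex.add_im]
          have hlowN : locFloor q (G.ty c 0).bot ((w + a).re - c) ≤ (w + a).im := by
            have := locFloor_le hq (G.ty c 0).bot ((w + a).re - c)
            rw [e2]
            linarith only [hq60, hN1, h3, this]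
          rcases le_or_gt (w + a).re ((c : ℝ) + 1) with hle | hgt
          · refine hc5 _ c hcM ?_ hle hlowN ?_
            · rw [e1]
              linarith only [h1]
            · rw [htop']
              have h5 : 1 ≤ locCeil q (.portL σ) ((w + a).re - c) := by
                refine le_trans ?_ (le_max_right _ _)
                refine le_min (by linarith only [hq3]) ?_
                have : 1 ≤ ((w + a).re - c - 1 / 2 + 2 * q ^ 3) / q ^ 3 := by
                  rw [le_div_iff₀ hq3, e1]
                  linarith only [hq3, h1]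
                linarith only [hq3, this]
              rw [e2]
              linarith only [h4, h5]
          · refine hc5 _ (c + 1) hc1M ?_ ?_ ?_ ?_
            · push_cast
              linarith only [hgt]
            · push_cast
              rw [e1]
              linarith only [h2]
            · have := locFloor_le hq (G.ty (c + 1) 0).bot ((w + a).re - ((c + 1 : ℕ) : ℝ))
              rw [e2]
              linarith only [hq60, hN1, h3, this]
            · rw [htopR]
              rcases le_or_gt (w + a).im G.N with h0 | h0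
              · have h5 : 0 ≤ locCeil q (.portR σ) ((w + a).re - ((c + 1 : ℕ) : ℝ)) := by
                  refine le_trans ?_ ((le_max_left _ _).trans (le_max_left _ _))
                  refine mul_nonneg hq3.le (le_min zero_le_one (div_nonneg ?_ (by positivity)))
                  push_cast
                  rw [e1]
                  linarith only [h2]
                linarith only [h0, h5]
              · have h5 : 1 ≤ locCeil q (.portR σ) ((w + a).re - ((c + 1 : ℕ) : ℝ)) := by
                  push_cast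
                  refine le_trans ?_ (le_max_right _ _)
                  refine le_min (le_min (by linarith only [hq3]) ?_) ?_
                  · have : 1 ≤ (1 / 2 + 2 * q ^ 3 - ((w + a).re - ((c : ℝ) + 1))) / q ^ 3 := by
                      rw [le_div_iff₀ hq3, e1]
                      linarith only [hq3, h2]
                    linarith only [hq3, this]
                  · have h6 : q ^ 3 ≤ |(w + a).re - ((c : ℝ) + 1) - 4 / 32| := by
                      by_contra hcon
                      push Not at hcon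
                      obtain ⟨y1, y2⟩ := abs_lt.1 hcon
                      refine hnB ⟨by linarith only [y1], by linarith only [y2], h0.le, ?_⟩
                      rw [e2]
                      linarith only [h4]
                    have h7 := piv_upper hq σ
                    have h8 : (1 + q ^ 3 - piv q σ) * 1 ≤ (1 + q ^ 3 - piv q σ) *
                        (|(w + a).re - ((c : ℝ) + 1) - 4 / 32| / q ^ 3) := by
                      refine mul_le_mul_of_nonneg_left ?_ (by linarith only [hq60, hq3, h7])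
                      rwa [le_div_iff₀ hq3, one_mul]
                    rw [mul_div_assoc]
                    linarith only [hq3, h8]
                rw [e2]
                linarith only [h4, h5]
        · rintro i _ ⟨⟨w, ⟨⟨h1, h2, h3, h4⟩, hnot⟩, rfl⟩, -⟩ hzi
          rw [transl_app] at hzi
          obtain ⟨h6, h7, h8, h9⟩ := near_cell hC7 hS hf i hzi
          have e1 : (w + a).re = w.re + ((c : ℝ) + 1 / 2) := by rw [Complex.add_re]
          have e2 : (w + a).im = w.im + G.N := by rw [Complex.add_im]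
          rw [e1] at h6 h7
          rw [e2] at h8 h9
          rcases i with ⟨c', r'⟩ | c'
          · rw [corner_inl_re] at h6 h7
            rw [corner_inl_im] at h8 h9
            have er : (r' : ℕ) = G.N - 1 := by
              have a2 : (G.N : ℝ) < r' + 2 := by linarith only [h3, h9]
              have a2' : G.N < (r' : ℕ) + 2 := by exact_mod_cast a2
              have := r'.2
              omega
            have ec : (c' : ℕ) = c ∨ (c' : ℕ) = c + 1 := by
              have a1 : (c' : ℝ) < c + 2 := by linarith only [h2, h6]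
              have a2 : (c : ℝ) < c' + 1 := by linarith only [h1, h7]
              have a1' : (c' : ℕ) < c + 2 := by exact_mod_cast a1
              have a2' : c < (c' : ℕ) + 1 := by exact_mod_cast a2
              omega
            rcases ec with ec | ec
            · have e3 : (Sum.inl (c', r') : Cell G) = i1 := by
                rw [hi1]
                congr 1
                exact Prod.ext (Fin.ext ec) (Fin.ext er)
              rw [e3, hst1'] at hzi
              refine hnot (Or.inl (Or.inr (mem_img_tr.2 ?_)))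
              rwa [sub_neg_eq_add]
            · have e3 : (Sum.inl (c', r') : Cell G) = i2 := by
                rw [hi2]
                congr 1
                exact Prod.ext (Fin.ext ec) (Fin.ext er)
              rw [e3, hst2'] at hzi
              refine hnot (Or.inr (mem_img_tr.2 ?_))
              rwa [sub_neg_eq_add]
          · rw [corner_inr_re] at h6 h7
            have ec : (c'.1 : ℕ) = c := by
              have a1 : ((c'.1 : ℕ) : ℝ) < c + 1 := by linarith only [h2, h6]
              have a2 : (c : ℝ) < (c'.1 : ℕ) + 1 := by linarith only [h1, h7]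
              have a1' : (c'.1 : ℕ) < c + 1 := by exact_mod_cast a1
              have a2' : c < (c'.1 : ℕ) + 1 := by exact_mod_cast a2
              omega
            have e3 : (Sum.inr c' : Cell G) = ic := by
              rw [hic]
              congr 1
              exact Subtype.ext (Fin.ext ec)
            rw [e3] at hzi
            refine hnot (Or.inl (Or.inl (mem_img_tr.2 ?_)))
            rwa [sub_neg_eq_add]
      · rw [hB, volume_box (by linarith only [hq3])]
        refine ENNReal.ofReal_le_ofReal ?_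
        apply le_of_eq
        ring)
  obtain ⟨k1, k2, k3, k4, k5⟩ := key
  refine ⟨k1, k2, k3, k4, ?_⟩
  have e : ((p.g (f ic)).tr (-a)).v = (p.g (f ic)).v - corner ic := by
    rw [hca, sub_eq_add_neg]
    rfl
  rw [e] at k5
  exact k5

end Pool.Agent.Helper2_Pack
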