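import Pool.Agent.Helper2_Pack.Alg
import Pool.Agent.Helper53_Chan.Cond

/-!
# L9: the word of the system is computable in polynomial time
-/

namespace Pool.Agent.Helper2_Pack

open Pool.Agent.Helper53_Closed (Formula Sym encInst)
open Pool.Agent.Helper53_CookLevin Pool.Agent.Helper53_Chan
open Pool.Agent.Helper32_Poly Turing

/-- the common alphabet -/
abbrev CA : Type := Sym ⊕ SLetter

/-- the unary letter -/
def ua : CA := .inr .tick

variable {m : ℕ}

/-- numerical functions -/
abbrev NumA (m : ℕ) (e : (Fin m → ℕ) → ℕ) : Prop := Num ua m e

theorem lgen_congr {C : Type} {f g : (Fin m → ℕ) → List C} (hf : LGen m f) (h : ∀ a, f a = g a) :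
    LGen m g := by
  have : f = g := funext h
  rwa [← this]

theorem num_congr {C : Type} {u : C} {f g : (Fin m → ℕ) → ℕ} (hf : Num u m f) (h : ∀ a, f a = g a) :
    Num u m g := by
  have : f = g := funext h
  rwa [← this]

theorem lgen_loop {C : Type} {u : C} {e : (Fin m → ℕ) → ℕ} (he : Num u m e)
    {K : ℕ → (Fin m → ℕ) → List C} (h : LGen (m + 1) (fun a => K (a 0) (a ∘ Fin.succ))) :
    LGen m (fun a => (List.range (e a)).flatMap (fun k => K k a)) := by
  refine lgen_congr (LGen.loop he h) (fun a => ?_)
  refine List.flatMap_congr (fun k _ => ?_)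
  simp only [Matrix.cons_val_zero, vecCons_comp_succ]

theorem lgen_ite {C : Type} {u : C} {e e' : (Fin m → ℕ) → ℕ} (he : Num u m e) (he' : Num u m e')
    {f g : (Fin m → ℕ) → List C} (hf : LGen m f) (hg : LGen m g) :
    LGen m (fun a => if e a ≤ e' a then f a else g a) := by
  have h1 : Test m (fun ρ : Fin m → List C => (List.replicate (e fun i => (ρ i).length) u).length ≤
      (List.replicate (e' fun i => (ρ i).length) u).length) := Test.lenLe he he'
  have h2 := Test.ite (Test.congr h1 (Q := fun ρ => (e fun i => (ρ i).length) ≤
      (e' fun i => (ρ i).length)) (fun ρ => by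
    rw [List.length_replicate, List.length_replicate])) hf hg
  exact h2

/-! ### Numbers -/

theorem num_add {e₁ e₂ : (Fin m → ℕ) → ℕ} (h₁ : NumA m e₁) (h₂ : NumA m e₂) :
    NumA m (fun a => e₁ a + e₂ a) := Helper53_CookLevin.Num.add h₁ h₂

theorem num_mul {e₁ e₂ : (Fin m → ℕ) → ℕ} (h₁ : NumA m e₁) (h₂ : NumA m e₂) :
    NumA m (fun a => e₁ a * e₂ a) := Helper53_CookLevin.Num.mul h₁ h₂

theorem num_const (c : ℕ) : NumA m (fun _ => c) := Helper53_CookLevin.Num.const ua c

theorem num_var (j : Fin m) : NumA m (fun a => a j) := Helper53_CookLevin.Num.var ua j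

theorem num_pow {e : (Fin m → ℕ) → ℕ} (h : NumA m e) (n : ℕ) : NumA m (fun a => e a ^ n) :=
  Helper53_CookLevin.Num.pow h n

theorem num_succ {e : (Fin m → ℕ) → ℕ} (h : NumA m e) :
    NumA (m + 1) (fun a => e (a ∘ Fin.succ)) := Helper53_CookLevin.Num.rename Fin.succ h

theorem num_nS {L p d : (Fin m → ℕ) → ℕ} (hL : NumA m L) (hp : NumA m p) (hd : NumA m d) :
    NumA m (fun a => nS (L a) (p a) (d a)) := by
  unfold nS
  repeat' first
    | assumption
    | exact num_const _
    | exact num_var _
    | apply num_add
    | apply num_mul

theorem num_nT {L p d : (Fin m → ℕ) → ℕ} (hL : NumA m L) (hp : NumA m p) (hd : NumA m d) :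
    NumA m (fun a => nT (L a) (p a) (d a)) := by
  unfold nT
  repeat' first
    | assumption
    | exact num_const _
    | exact num_var _
    | apply num_add
    | apply num_mul

theorem num_nX {L d : (Fin m → ℕ) → ℕ} (hL : NumA m L) (hd : NumA m d) :
    NumA m (fun a => nX (L a) (d a)) := by
  unfold nX
  repeat' first
    | assumption
    | exact num_const _
    | exact num_var _
    | apply num_add
    | apply num_mul

theorem num_nB {L d : (Fin m → ℕ) → ℕ} (hL : NumA m L) (hd : NumA m d) :
    NumA m (fun a => nB (L a) (d a)) := by
  unfold nB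
  repeat' first
    | assumption
    | exact num_const _
    | exact num_var _
    | apply num_add
    | apply num_mul

theorem num_nA {L p : (Fin m → ℕ) → ℕ} (hL : NumA m L) (hp : NumA m p) (j : ℕ) :
    NumA m (fun a => nA (L a) (p a) j) := by
  unfold nA
  repeat' first
    | assumption
    | exact num_const _
    | exact num_var _
    | apply num_add
    | apply num_mul

theorem num_nO {L : (Fin m → ℕ) → ℕ} (hL : NumA m L) : NumA m (fun a => nO (L a)) := by
  unfold nO
  repeat' first
    | assumption
    | exact num_const _
    | exact num_var _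
    | apply num_add
    | apply num_mul

theorem num_nE {L : (Fin m → ℕ) → ℕ} (hL : NumA m L) : NumA m (fun a => nE (L a)) := by
  unfold nE
  repeat' first
    | assumption
    | exact num_const _
    | exact num_var _
    | apply num_add
    | apply num_mul

theorem num_nV {L : (Fin m → ℕ) → ℕ} (hL : NumA m L) : NumA m (fun a => nV (L a)) := by
  unfold nV
  repeat' first
    | assumption
    | exact num_const _
    | exact num_var _
    | apply num_add
    | apply num_mul

theorem num_nK {L : (Fin m → ℕ) → ℕ} (hL : NumA m L) : NumA m (fun a => nK (L a)) := by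
  have := num_nV hL
  unfold nK
  repeat' first
    | assumption
    | exact num_const _
    | exact num_var _
    | apply num_add
    | apply num_mul

theorem num_nR {L : (Fin m → ℕ) → ℕ} (hL : NumA m L) : NumA m (fun a => nR (L a)) := by
  have := num_nV hL
  have := num_nK hL
  unfold nR
  repeat' first
    | assumption
    | exact num_const _
    | exact num_var _
    | apply num_add
    | apply num_mul

theorem num_nL {L : (Fin m → ℕ) → ℕ} (hL : NumA m L) : NumA m (fun a => nL (L a)) := by
  have := num_nV hL
  have := num_nK hL
  unfold nL
  repeat' first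
    | assumption
    | exact num_const _
    | exact num_var _
    | apply num_add
    | apply num_mul

theorem num_nG {L : (Fin m → ℕ) → ℕ} (hL : NumA m L) : NumA m (fun a => nG (L a)) := by
  unfold nG
  repeat' first
    | assumption
    | exact num_const _
    | exact num_var _
    | apply num_add
    | apply num_mul

theorem num_nN {L : (Fin m → ℕ) → ℕ} (hL : NumA m L) : NumA m (fun a => nN (L a)) := by
  have := num_nL hL
  have := num_nG hL
  unfold nN
  repeat' first
    | assumption
    | exact num_const _
    | exact num_var _
    | apply num_add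
    | apply num_mul

theorem num_gid {L p : (Fin m → ℕ) → ℕ} (hL : NumA m L) (hp : NumA m p) :
    NumA m (fun a => gid (L a) (p a)) := by
  unfold gid
  repeat' first
    | assumption
    | exact num_const _
    | exact num_var _
    | apply num_add
    | apply num_mul

/-! ### Words of constraints -/

/-- the word of an index -/
def iw (i : ℕ) : List CA := (encIdx i).map Sum.inr

theorem gen_iw {e : (Fin m → ℕ) → ℕ} (he : NumA m e) : LGen m (fun a => iw (e a)) := by
  refine lgen_congr (LGen.append he (LGen.const [Sum.inr .sep])) (fun a => ?_)
  unfold iw encIdx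
  rw [List.map_append, List.map_replicate]
  rfl

/-- generators for lists of constraints -/
def Cs (m : ℕ) (f : (Fin m → ℕ) → List Con) : Prop :=
  LGen m (fun a => ((f a).flatMap Con.enc).map (Sum.inr : SLetter → CA))

/-- generators for a constraint -/
def Cc (m : ℕ) (f : (Fin m → ℕ) → Con) : Prop :=
  LGen m (fun a => (f a).enc.map (Sum.inr : SLetter → CA))

theorem Cs.nil : Cs m (fun _ => []) := LGen.const []

theorem Cs.cons {f : (Fin m → ℕ) → Con} {g : (Fin m → ℕ) → List Con} (hf : Cc m f) (hg : Cs m g) :
    Cs m (fun a => f a :: g a) := by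
  refine lgen_congr (LGen.append hf hg) (fun a => ?_)
  rw [List.flatMap_cons, List.map_append]

theorem Cs.append {f g : (Fin m → ℕ) → List Con} (hf : Cs m f) (hg : Cs m g) :
    Cs m (fun a => f a ++ g a) := by
  refine lgen_congr (LGen.append hf hg) (fun a => ?_)
  rw [List.flatMap_append, List.map_append]

theorem Cs.congr {f g : (Fin m → ℕ) → List Con} (hf : Cs m f) (h : ∀ a, f a = g a) : Cs m g := by
  have : f = g := funext h
  rwa [← this]

theorem Cs.loop {e : (Fin m → ℕ) → ℕ} (he : NumA m e) {K : ℕ → (Fin m → ℕ) → List Con}
    (h : Cs (m + 1) (fun a => K (a 0) (a ∘ Fin.succ))) :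
    Cs m (fun a => (List.range (e a)).flatMap (fun k => K k a)) := by
  refine lgen_congr (lgen_loop he (K := fun k a => ((K k a).flatMap Con.enc).map Sum.inr) h)
    (fun a => ?_)
  rw [List.flatMap_assoc, List.map_flatMap]

theorem Cs.ite {e e' : (Fin m → ℕ) → ℕ} (he : NumA m e) (he' : NumA m e')
    {f g : (Fin m → ℕ) → List Con} (hf : Cs m f) (hg : Cs m g) :
    Cs m (fun a => if e a ≤ e' a then f a else g a) := by
  refine lgen_congr (lgen_ite he he' hf hg) (fun a => ?_)
  by_cases h : e a ≤ e' a
  · simp only [if_pos h]
  · simp only [if_neg h]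

theorem cc_sum1 {i : (Fin m → ℕ) → ℕ} (κ : ℤ) (hi : NumA m i) : Cc m (fun a => .sum [i a] κ) := by
  refine lgen_congr (LGen.append (gen_iw hi)
    (LGen.const ([if κ = -1 then .neg else if κ = 0 then .zer else .one].map Sum.inr))) (fun a => ?_)
  simp [Con.enc, iw]

theorem cc_sum2 {i j : (Fin m → ℕ) → ℕ} (κ : ℤ) (hi : NumA m i) (hj : NumA m j) :
    Cc m (fun a => .sum [i a, j a] κ) := by
  refine lgen_congr (LGen.append (gen_iw hi) (LGen.append (gen_iw hj)
    (LGen.const ([if κ = -1 then .neg else if κ = 0 then .zer else .one].map Sum.inr))))
    (fun a => ?_)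
  simp [Con.enc, iw]

theorem cc_sum3 {i j k : (Fin m → ℕ) → ℕ} (κ : ℤ) (hi : NumA m i) (hj : NumA m j)
    (hk : NumA m k) : Cc m (fun a => .sum [i a, j a, k a] κ) := by
  refine lgen_congr (LGen.append (gen_iw hi) (LGen.append (gen_iw hj) (LGen.append (gen_iw hk)
    (LGen.const ([if κ = -1 then .neg else if κ = 0 then .zer else .one].map Sum.inr)))))
    (fun a => ?_)
  simp [Con.enc, iw]

theorem cc_inv {i j : (Fin m → ℕ) → ℕ} (hi : NumA m i) (hj : NumA m j) :
    Cc m (fun a => .inv (i a) (j a)) := by
  refine lgen_congr (LGen.append (gen_iw hi) (LGen.append (gen_iw hj)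
    (LGen.const ([SLetter.inv].map Sum.inr)))) (fun a => ?_)
  simp [Con.enc, iw]

theorem cs_sq {X σ : (Fin m → ℕ) → ℕ} (hX : NumA m X) (hσ : NumA m σ) :
    Cs m (fun a => sqCons (X a) (σ a)) := by
  unfold sqCons
  repeat' first
    | assumption
    | exact Cs.nil
    | apply Cs.cons
    | apply Cs.append
    | apply cc_sum1
    | apply cc_sum2
    | apply cc_sum3
    | apply cc_inv
    | exact num_const _
    | exact num_var _
    | apply num_add
    | apply num_mul

theorem cs_prod {a b π : (Fin m → ℕ) → ℕ} (ha : NumA m a) (hb : NumA m b) (hπ : NumA m π) :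
    Cs m (fun x => prodCons (a x) (b x) (π x)) := by
  unfold prodCons
  have h1 := cs_sq (num_add hπ (num_const 1)) (num_add hπ (num_const 9))
  have h2 := cs_sq (num_add hπ (num_const 6)) (num_add hπ (num_const 17))
  refine Cs.append (Cs.append (Cs.append ?_ h1) h2) ?_
  · repeat' first
      | assumption
      | exact Cs.nil
      | apply Cs.cons
      | apply Cs.append
      | apply cc_sum1
      | apply cc_sum2
      | apply cc_sum3
      | apply cc_inv
      | exact num_const _
      | exact num_var _
      | apply num_add
      | apply num_mul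
  · repeat' first
      | assumption
      | exact Cs.nil
      | apply Cs.cons
      | apply Cs.append
      | apply cc_sum1
      | apply cc_sum2
      | apply cc_sum3
      | apply cc_inv
      | exact num_const _
      | exact num_var _
      | apply num_add
      | apply num_mul

/-! ### Words of gates -/

/-- generators for a gate -/
def Gg (m : ℕ) (g : (Fin m → ℕ) → Gate) : Prop :=
  ∀ r β : (Fin m → ℕ) → ℕ, NumA m r → NumA m β → Cs m (fun a => gateCons (r a) (β a) (g a))

theorem gg_lin {i : (Fin m → ℕ) → ℕ} (b : Bool) (hi : NumA m i) : Gg m (fun a => .lin (i a) b) := by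
  intro r β hr hβ
  cases b
  · show Cs m (fun a => [.sum [i a] 0])
    repeat' first
      | assumption
      | exact Cs.nil
      | apply Cs.cons
      | apply Cs.append
      | apply cc_sum1
      | apply cc_sum2
      | apply cc_sum3
      | apply cc_inv
      | exact num_const _
      | exact num_var _
      | apply num_add
      | apply num_mul
  · show Cs m (fun a => [.sum [i a, β a] 0, .sum [β a, r a] 0])
    repeat' first
      | assumption
      | exact Cs.nil
      | apply Cs.cons
      | apply Cs.append
      | apply cc_sum1
      | apply cc_sum2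
      | apply cc_sum3
      | apply cc_inv
      | exact num_const _
      | exact num_var _
      | apply num_add
      | apply num_mul

theorem gg_add {i j k : (Fin m → ℕ) → ℕ} (hi : NumA m i) (hj : NumA m j) (hk : NumA m k) :
    Gg m (fun a => .add (i a) (j a) (k a)) := by
  intro r β hr hβ
  show Cs m (fun a => [.sum [j a, β a] 0, .sum [k a, β a + 1] 0, .sum [i a, β a, β a + 1] 0])
  repeat' first
    | assumption
    | exact Cs.nil
    | apply Cs.cons
    | apply Cs.append
    | apply cc_sum1
    | apply cc_sum2
    | apply cc_sum3
    | apply cc_inv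
    | exact num_const _
    | exact num_var _
    | apply num_add
    | apply num_mul

theorem gg_mul {i j k : (Fin m → ℕ) → ℕ} (hi : NumA m i) (hj : NumA m j) (hk : NumA m k) :
    Gg m (fun a => .mul (i a) (j a) (k a)) := by
  intro r β hr hβ
  have h1 := cs_prod (num_add hβ (num_const 1)) (num_add hβ (num_const 3))
    (num_add hβ (num_const 8))
  have h2 := cs_prod (num_add hβ (num_const 5)) (num_add hβ (num_const 7))
    (num_add hβ (num_const 35))
  refine Cs.append (Cs.append (Cs.append ?_ h1) h2) ?_
  · repeat' first
      | assumption
      | exact Cs.nil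
      | apply Cs.cons
      | apply Cs.append
      | apply cc_sum1
      | apply cc_sum2
      | apply cc_sum3
      | apply cc_inv
      | exact num_const _
      | exact num_var _
      | apply num_add
      | apply num_mul
  · repeat' first
      | assumption
      | exact Cs.nil
      | apply Cs.cons
      | apply Cs.append
      | apply cc_sum1
      | apply cc_sum2
      | apply cc_sum3
      | apply cc_inv
      | exact num_const _
      | exact num_var _
      | apply num_add
      | apply num_mul

theorem Gg.congr {f g : (Fin m → ℕ) → Gate} (hf : Gg m f) (h : ∀ a, f a = g a) : Gg m g := by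
  have : f = g := funext h
  rwa [← this]

theorem Gg.ite {e e' : (Fin m → ℕ) → ℕ} (he : NumA m e) (he' : NumA m e')
    {f g : (Fin m → ℕ) → Gate} (hf : Gg m f) (hg : Gg m g) :
    Gg m (fun a => if e a ≤ e' a then f a else g a) := by
  intro r β hr hβ
  refine Cs.congr (Cs.ite he he' (hf r β hr hβ) (hg r β hr hβ)) (fun a => ?_)
  by_cases h : e a ≤ e' a
  · simp only [if_pos h]
  · simp only [if_neg h]

theorem gg_cp {L i j : (Fin m → ℕ) → ℕ} (hL : NumA m L) (hi : NumA m i) (hj : NumA m j) :
    Gg m (fun a => cp (L a) (i a) (j a)) := gg_add hi hj (num_nO hL)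

theorem gg_triv {L : (Fin m → ℕ) → ℕ} (hL : NumA m L) : Gg m (fun a => triv (L a)) :=
  gg_add (num_nO hL) (num_nO hL) (num_nO hL)

theorem gg_stack (c : Sym) {L p d : (Fin m → ℕ) → ℕ} (hL : NumA m L) (hp : NumA m p)
    (hd : NumA m d) : Gg m (fun a => stackGate (L a) (p a) c (d a)) := by
  have one : NumA m (fun _ => 1) := num_const 1
  have hp1 : NumA m (fun a => p a + 1) := num_add hp one
  have hd1 : NumA m (fun a => d a + 1) := num_add hd one
  have keep : Gg m (fun a => cp (L a) (nS (L a) (p a) (d a)) (nS (L a) (p a + 1) (d a))) :=
    gg_cp hL (num_nS hL hp hd) (num_nS hL hp1 hd)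
  have push : Gg m (fun a => if d a < L a then
      cp (L a) (nS (L a) (p a) (d a + 1)) (nS (L a) (p a + 1) (d a)) else triv (L a)) :=
    (Gg.ite hd1 hL (gg_cp hL (num_nS hL hp hd1) (num_nS hL hp1 hd)) (gg_triv hL)).congr
      (fun a => rfl)
  have pop : Gg m (fun a => if 1 ≤ d a ∧ d a < L a then
      cp (L a) (nS (L a) (p a) (d a)) (nS (L a) (p a + 1) (d a + 1)) else triv (L a)) :=
    (Gg.ite one hd (Gg.ite hd1 hL (gg_cp hL (num_nS hL hp hd) (num_nS hL hp1 hd1))
      (gg_triv hL)) (gg_triv hL)).congr (fun a => by
        by_cases h1 : 1 ≤ d a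
        · by_cases h2 : d a < L a
          · rw [if_pos h1, if_pos (Nat.succ_le_of_lt h2), if_pos ⟨h1, h2⟩]
          · rw [if_pos h1, if_neg (fun h => h2 (Nat.lt_of_succ_le h)), if_neg (fun h => h2 h.2)]
        · rw [if_neg h1, if_neg (fun h => h1 h.1)])
  have topg : Gg m (fun a => if 1 ≤ d a then
      cp (L a) (nS (L a) (p a) (d a)) (nS (L a) (p a + 1) (d a)) else triv (L a)) :=
    Gg.ite one hd keep (gg_triv hL)
  cases c
  case var => exact push
  case const => exact push
  case plus => exact keep
  case minus => exact keep
  case zero => exact keep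
  case one => exact keep
  case tick => exact keep
  case stop => exact keep
  case add => exact pop
  case mul => exact pop
  case eq => exact topg
  case gt => exact topg
  case ge => exact topg
  case fin => exact keep
  case and => exact pop
  case or => exact pop
  case not => exact topg

theorem gg_reg (c : Sym) {L p d : (Fin m → ℕ) → ℕ} (hL : NumA m L) (hp : NumA m p)
    (hd : NumA m d) : Gg m (fun a => regGate (L a) (p a) c (d a)) := by
  have one : NumA m (fun _ => 1) := num_const 1
  have hp1 : NumA m (fun a => p a + 1) := num_add hp one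
  have hd1 : NumA m (fun a => d a + 1) := num_add hd one
  cases c
  case tick =>
    exact (Gg.ite hd1 hL (gg_cp hL (num_nT hL hp hd) (num_nT hL hp1 hd1)) (gg_triv hL)).congr
      (fun a => rfl)
  case stop => exact gg_cp hL (num_nT hL hp hd) (num_nX hL hd)
  all_goals exact gg_triv hL

/-- generators for lists of numbered gates -/
def Gl (m : ℕ) (f : (Fin m → ℕ) → List (ℕ × Gate)) : Prop :=
  ∀ r β : (Fin m → ℕ) → ℕ, NumA m r → NumA m β →
    Cs m (fun a => (f a).flatMap (fun t => gateCons (r a) (β a + 63 * t.1) t.2))

theorem Gl.nil : Gl m (fun _ => []) := fun _ _ _ _ => Cs.nil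

theorem Gl.cons {i : (Fin m → ℕ) → ℕ} {g : (Fin m → ℕ) → Gate} {f : (Fin m → ℕ) → List (ℕ × Gate)}
    (hi : NumA m i) (hg : Gg m g) (hf : Gl m f) : Gl m (fun a => (i a, g a) :: f a) := by
  intro r β hr hβ
  exact Cs.append (hg r _ hr (num_add hβ (num_mul (num_const 63) hi))) (hf r β hr hβ)

theorem Gl.append {f g : (Fin m → ℕ) → List (ℕ × Gate)} (hf : Gl m f) (hg : Gl m g) :
    Gl m (fun a => f a ++ g a) := by
  intro r β hr hβ
  exact (Cs.append (hf r β hr hβ) (hg r β hr hβ)).congr (fun a => by
    rw [List.flatMap_append])

theorem Gl.loop {e : (Fin m → ℕ) → ℕ} (he : NumA m e) {i : ℕ → (Fin m → ℕ) → ℕ}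
    {g : ℕ → (Fin m → ℕ) → Gate} (hi : NumA (m + 1) (fun a => i (a 0) (a ∘ Fin.succ)))
    (hg : Gg (m + 1) (fun a => g (a 0) (a ∘ Fin.succ))) :
    Gl m (fun a => (List.range (e a)).map (fun k => (i k a, g k a))) := by
  intro r β hr hβ
  refine (Cs.loop he (K := fun k a => gateCons (r a) (β a + 63 * i k a) (g k a)) ?_).congr
    (fun a => ?_)
  · exact hg (fun a => r (a ∘ Fin.succ)) (fun a => β (a ∘ Fin.succ) + 63 * i (a 0) (a ∘ Fin.succ))
      (num_succ hr) (num_add (num_succ hβ)
        (num_mul (num_const 63) hi))
  · rw [List.flatMap_map]

/-- a list of gates with consecutive numbers -/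
theorem Gl.zip {i : (Fin m → ℕ) → ℕ} (hi : NumA m i) : ∀ (l : List ((Fin m → ℕ) → Gate)) (k : ℕ),
    (∀ g ∈ l, Gg m g) →
    Gl m (fun a => ((l.map (fun g => g a)).zipIdx k).map
      (fun x : Gate × ℕ => (i a + x.2, x.1)))
  | [], _, _ => Gl.nil
  | g :: l, k, h => by
    have h1 := Gl.zip hi l (k + 1) (fun g' hg' => h g' (List.mem_cons_of_mem _ hg'))
    exact Gl.cons (num_add hi (num_const k)) (h g List.mem_cons_self) h1

theorem gl_extra (c : Sym) {L p i : (Fin m → ℕ) → ℕ} (hL : NumA m L) (hp : NumA m p)
    (hi : NumA m i) : Gl m (fun a => (extra (L a) (p a) c).zipIdx.map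
      (fun x : Gate × ℕ => (i a + x.2, x.1))) := by
  have one : NumA m (fun _ => 1) := num_const 1
  have zero : NumA m (fun _ => 0) := num_const 0
  have hp1 : NumA m (fun a => p a + 1) := num_add hp one
  have hO := num_nO hL
  have hE := num_nE hL
  have hS0 := num_nS hL hp zero
  have hS1 := num_nS hL hp1 zero
  have hS2 := num_nS hL hp1 one
  have hB := num_nB hL hp
  have hB1 := num_nB hL hp1
  have hA := num_nA hL hp
  cases c
  case var => exact Gl.zip hi [fun a => cp (L a) (nS (L a) (p a) 0) (nT (L a) (p a + 1) 0)] 0
                    (by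
                      intro g hg
                      simp only [List.mem_singleton] at hg
                      subst hg
                      exact gg_cp hL hS0 (num_nT hL hp1 zero))
  case const => exact Gl.zip hi [fun a => cp (L a) (nS (L a) (p a) 0) (nB (L a) (p a + 1))] 0
                    (by
                      intro g hg
                      simp only [List.mem_singleton] at hg
                      subst hg
                      exact gg_cp hL hS0 hB1)
  case plus => exact Gl.zip hi [fun a => cp (L a) (nB (L a) (p a)) (nB (L a) (p a + 1))] 0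
                    (by
                      intro g hg
                      simp only [List.mem_singleton] at hg
                      subst hg
                      exact gg_cp hL hB hB1)
  case minus => exact Gl.zip hi [fun a => .add (nO (L a)) (nB (L a) (p a)) (nB (L a) (p a + 1))] 0
                    (by
                      intro g hg
                      simp only [List.mem_singleton] at hg
                      subst hg
                      exact gg_add hO hB hB1)
  case zero => exact Gl.zip hi [fun a => .add (nB (L a) (p a)) (nB (L a) (p a + 1))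
                  (nB (L a) (p a + 1))] 0
                    (by
                      intro g hg
                      simp only [List.mem_singleton] at hg
                      subst hg
                      exact gg_add hB hB1 hB1)
  case one => exact Gl.zip hi [fun a => .add (nA (L a) (p a) 0) (nB (L a) (p a + 1))
                  (nB (L a) (p a + 1)), fun a => .add (nB (L a) (p a)) (nA (L a) (p a) 0) (nE (L a))] 0
                    (by
                      intro g hg
                      simp only [List.mem_cons, List.not_mem_nil, or_false] at hg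
                      rcases hg with rfl | rfl
                      · exact gg_add (hA 0) hB1 hB1
                      · exact gg_add hB (hA 0) hE)
  case tick => exact Gl.nil
  case stop => exact Gl.zip hi [fun a => cp (L a) (nB (L a) (p a)) (nO (L a))] 0
                    (by
                      intro g hg
                      simp only [List.mem_singleton] at hg
                      subst hg
                      exact gg_cp hL hB hO)
  case add => exact Gl.zip hi [fun a => .add (nS (L a) (p a) 0) (nS (L a) (p a + 1) 0)
                  (nS (L a) (p a + 1) 1)] 0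
                    (by
                      intro g hg
                      simp only [List.mem_singleton] at hg
                      subst hg
                      exact gg_add hS0 hS1 hS2)
  case mul => exact Gl.zip hi [fun a => .mul (nS (L a) (p a) 0) (nS (L a) (p a + 1) 0)
                  (nS (L a) (p a + 1) 1)] 0
                    (by
                      intro g hg
                      simp only [List.mem_singleton] at hg
                      subst hg
                      exact gg_mul hS0 hS1 hS2)
  case eq => exact Gl.zip hi [fun a => .mul (nS (L a) (p a) 0) (nS (L a) (p a) 0) (nS (L a) (p a) 0),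
                fun a => .mul (nA (L a) (p a) 2) (nS (L a) (p a + 1) 0) (nA (L a) (p a) 0),
                fun a => .add (nA (L a) (p a) 2) (nA (L a) (p a) 3) (nE (L a)),
                fun a => .add (nE (L a)) (nA (L a) (p a) 4) (nS (L a) (p a) 0),
                fun a => .mul (nA (L a) (p a) 5) (nS (L a) (p a) 0) (nS (L a) (p a + 1) 0),
                fun a => .mul (nA (L a) (p a) 6) (nA (L a) (p a) 4) (nA (L a) (p a) 3),
                fun a => .add (nO (L a)) (nA (L a) (p a) 5) (nA (L a) (p a) 6)] 0
                    (by
                      intro g hg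
                      simp only [List.mem_cons, List.not_mem_nil, or_false] at hg
                      rcases hg with rfl | rfl | rfl | rfl | rfl | rfl | rfl
                      · exact gg_mul hS0 hS0 hS0
                      · exact gg_mul (hA 2) hS1 (hA 0)
                      · exact gg_add (hA 2) (hA 3) hE
                      · exact gg_add hE (hA 4) hS0
                      · exact gg_mul (hA 5) hS0 hS1
                      · exact gg_mul (hA 6) (hA 4) (hA 3)
                      · exact gg_add hO (hA 5) (hA 6))
  case gt => exact Gl.zip hi [fun a => .mul (nS (L a) (p a) 0) (nS (L a) (p a) 0) (nS (L a) (p a) 0),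
                fun a => .mul (nA (L a) (p a) 1) (nA (L a) (p a) 0) (nA (L a) (p a) 0),
                fun a => .mul (nA (L a) (p a) 2) (nS (L a) (p a + 1) 0) (nA (L a) (p a) 1),
                fun a => .add (nA (L a) (p a) 2) (nA (L a) (p a) 3) (nE (L a)),
                fun a => .add (nE (L a)) (nA (L a) (p a) 4) (nS (L a) (p a) 0),
                fun a => .add (nA (L a) (p a) 7) (nS (L a) (p a + 1) 0) (nA (L a) (p a) 1),
                fun a => .mul (nA (L a) (p a) 5) (nS (L a) (p a) 0) (nA (L a) (p a) 3),
                fun a => .mul (nA (L a) (p a) 6) (nA (L a) (p a) 4) (nA (L a) (p a) 7),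
                fun a => .add (nO (L a)) (nA (L a) (p a) 5) (nA (L a) (p a) 6)] 0
                    (by
                      intro g hg
                      simp only [List.mem_cons, List.not_mem_nil, or_false] at hg
                      rcases hg with rfl | rfl | rfl | rfl | rfl | rfl | rfl | rfl | rfl
                      · exact gg_mul hS0 hS0 hS0
                      · exact gg_mul (hA 1) (hA 0) (hA 0)
                      · exact gg_mul (hA 2) hS1 (hA 1)
                      · exact gg_add (hA 2) (hA 3) hE
                      · exact gg_add hE (hA 4) hS0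
                      · exact gg_add (hA 7) hS1 (hA 1)
                      · exact gg_mul (hA 5) hS0 (hA 3)
                      · exact gg_mul (hA 6) (hA 4) (hA 7)
                      · exact gg_add hO (hA 5) (hA 6))
  case ge => exact Gl.zip hi [fun a => .mul (nS (L a) (p a) 0) (nS (L a) (p a) 0) (nS (L a) (p a) 0),
                fun a => .mul (nA (L a) (p a) 1) (nA (L a) (p a) 0) (nA (L a) (p a) 0),
                fun a => .mul (nA (L a) (p a) 2) (nS (L a) (p a + 1) 0) (nA (L a) (p a) 1),
                fun a => .add (nA (L a) (p a) 3) (nA (L a) (p a) 2) (nE (L a)),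
                fun a => .add (nE (L a)) (nA (L a) (p a) 4) (nS (L a) (p a) 0),
                fun a => .add (nS (L a) (p a + 1) 0) (nA (L a) (p a) 7) (nA (L a) (p a) 1),
                fun a => .mul (nA (L a) (p a) 5) (nS (L a) (p a) 0) (nA (L a) (p a) 7),
                fun a => .mul (nA (L a) (p a) 6) (nA (L a) (p a) 4) (nA (L a) (p a) 3),
                fun a => .add (nO (L a)) (nA (L a) (p a) 5) (nA (L a) (p a) 6)] 0
                    (by
                      intro g hg
                      simp only [List.mem_cons, List.not_mem_nil, or_false] at hg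
                      rcases hg with rfl | rfl | rfl | rfl | rfl | rfl | rfl | rfl | rfl
                      · exact gg_mul hS0 hS0 hS0
                      · exact gg_mul (hA 1) (hA 0) (hA 0)
                      · exact gg_mul (hA 2) hS1 (hA 1)
                      · exact gg_add (hA 3) (hA 2) hE
                      · exact gg_add hE (hA 4) hS0
                      · exact gg_add hS1 (hA 7) (hA 1)
                      · exact gg_mul (hA 5) hS0 (hA 7)
                      · exact gg_mul (hA 6) (hA 4) (hA 3)
                      · exact gg_add hO (hA 5) (hA 6))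
  case fin => exact Gl.nil
  case and => exact Gl.zip hi [fun a => .mul (nS (L a) (p a) 0) (nS (L a) (p a + 1) 0)
                  (nS (L a) (p a + 1) 1)] 0
                    (by
                      intro g hg
                      simp only [List.mem_singleton] at hg
                      subst hg
                      exact gg_mul hS0 hS1 hS2)
  case or => exact Gl.zip hi [fun a => .mul (nA (L a) (p a) 0) (nS (L a) (p a + 1) 0)
                  (nS (L a) (p a + 1) 1), fun a => .add (nA (L a) (p a) 1) (nS (L a) (p a + 1) 0)
                  (nS (L a) (p a + 1) 1), fun a => .add (nA (L a) (p a) 1) (nS (L a) (p a) 0)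
                  (nA (L a) (p a) 0)] 0
                    (by
                      intro g hg
                      simp only [List.mem_cons, List.not_mem_nil, or_false] at hg
                      rcases hg with rfl | rfl | rfl
                      · exact gg_mul (hA 0) hS1 hS2
                      · exact gg_add (hA 1) hS1 hS2
                      · exact gg_add (hA 1) hS0 (hA 0))
  case not => exact Gl.zip hi [fun a => .add (nE (L a)) (nS (L a) (p a) 0) (nS (L a) (p a + 1) 0)] 0
                    (by
                      intro g hg
                      simp only [List.mem_singleton] at hg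
                      subst hg
                      exact gg_add hE hS0 hS1)

theorem gl_pos (c : Sym) {L p : (Fin m → ℕ) → ℕ} (hL : NumA m L) (hp : NumA m p) :
    Gl m (fun a => posGates (L a) (p a) c) := by
  have one : NumA m (fun _ => 1) := num_const 1
  have hL1 : NumA m (fun a => L a + 1) := num_add hL one
  have hL' : NumA (m + 1) (fun a => L (a ∘ Fin.succ)) := num_succ hL
  have hp' : NumA (m + 1) (fun a => p (a ∘ Fin.succ)) := num_succ hp
  have hd' : NumA (m + 1) (fun a => a 0) := num_var 0
  have hg' : NumA (m + 1) (fun a => gid (L (a ∘ Fin.succ)) (p (a ∘ Fin.succ))) := num_gid hL' hp'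
  refine Gl.append (Gl.append ?_ ?_) ?_
  · exact Gl.loop hL1 (i := fun d a => gid (L a) (p a) + d)
      (g := fun d a => stackGate (L a) (p a) c d) (num_add hg' hd') (gg_stack c hL' hp' hd')
  · exact Gl.loop hL1 (i := fun d a => gid (L a) (p a) + (L a + 1) + d)
      (g := fun d a => regGate (L a) (p a) c d)
      (num_add (num_add hg' (num_add hL' (num_const 1))) hd') (gg_reg c hL' hp' hd')
  · exact gl_extra c hL hp (num_add (num_gid hL hp) (num_mul (num_const 2) hL1))

/-! ### The whole word -/

theorem scan_zipIdx {C : Type} (h : C → ℕ → List C) : ∀ (p l : List C),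
    scan (fun q c => h c q.length) p l = (l.zipIdx p.length).flatMap (fun x => h x.1 x.2)
  | p, [] => rfl
  | p, c :: l => by
    rw [scan, scan_zipIdx h (p ++ [c]) l, List.zipIdx_cons, List.flatMap_cons]
    simp

/-- the letters of the input -/
def toSym : CA → Sym
  | .inl s => s
  | .inr _ => .fin

/-- the word of the constraints of one position -/
def posW (L p : ℕ) (c : Sym) : List CA :=
  (((posGates L p c).flatMap (fun t => gateCons (nR L) (nL L + 63 * t.1) t.2)).flatMap
    Con.enc).map Sum.inr

theorem gen_posW (c : Sym) : LGen 2 (fun a => posW (a 1) (a 0) c) :=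
  gl_pos c (num_var 1) (num_var 0) _ _ (num_nR (num_var 1)) (num_nL (num_var 1))

theorem gen_chain : Cs 1 (fun a => chainCons (a 0)) := by
  have hL : NumA 1 (fun a => a 0) := num_var 0
  have hV := num_nV hL
  have hK := num_nK hL
  unfold chainCons
  refine Cs.append ?_ (Cs.loop hK (K := fun j a => sqCons (nV (a 0) + 2 + 9 * j)
    (nV (a 0) + 2 + 9 * j + 1) ++ [.sum [nV (a 0) + 2 + 9 * j + 8, nV (a 0) + 2 + 9 * j + 9] 0]) ?_)
  · repeat' first
      | assumption
      | exact Cs.nil
      | apply Cs.cons
      | apply Cs.append
      | apply cc_sum1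
      | apply cc_sum2
      | apply cc_sum3
      | apply cc_inv
      | exact num_const _
      | exact num_var _
      | apply num_add
      | apply num_mul
  · have hV2 : NumA 2 (fun a => nV ((a ∘ Fin.succ) 0)) := num_succ hV
    have hX : NumA 2 (fun a => nV ((a ∘ Fin.succ) 0) + 2 + 9 * a 0) := by
      repeat' first
        | assumption
        | exact num_const _
        | exact num_var _
        | apply num_add
        | apply num_mul
    refine Cs.append (cs_sq hX (num_add hX (num_const 1))) ?_
    refine Cs.cons (cc_sum2 0 (num_add hX (num_const 8)) (num_add hX (num_const 9))) Cs.nil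

theorem gen_head : Cs 1 (fun a => [(0, Gate.lin (nO (a 0)) false), (1, .lin (nE (a 0)) true),
    (2, cp (a 0) (nS (a 0) 0 0) (nE (a 0)))].flatMap
      (fun t : ℕ × Gate => gateCons (nR (a 0)) (nL (a 0) + 63 * t.1) t.2)) := by
  have hL : NumA 1 (fun a => a 0) := num_var 0
  have h0 : NumA 1 (fun _ => 0) := num_const 0
  exact (Gl.cons (num_const 0) (gg_lin false (num_nO hL)) (Gl.cons (num_const 1)
    (gg_lin true (num_nE hL)) (Gl.cons (num_const 2)
      (gg_cp hL (num_nS hL h0 h0) (num_nE hL)) Gl.nil))) _ _ (num_nR hL) (num_nL hL)

/-- the output word over the common alphabet -/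
def outA (w : List CA) : List CA := ((sysOf (w.map toSym)).enc).map Sum.inr

theorem outA_eq (w : List CA) : outA w =
    List.replicate (nN w.length) ua ++ ([Sum.inr .stop] ++
      (((chainCons w.length).flatMap Con.enc).map Sum.inr ++
      ((([(0, Gate.lin (nO w.length) false), (1, .lin (nE w.length) true),
        (2, cp w.length (nS w.length 0 0) (nE w.length))].flatMap
          (fun t : ℕ × Gate => gateCons (nR w.length) (nL w.length + 63 * t.1) t.2)).flatMap
            Con.enc).map Sum.inr ++
        scan (fun q c => posW w.length q.length (toSym c)) [] w))) := by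
  have hL : (w.map toSym).length = w.length := List.length_map _
  have e1 : outA w = List.replicate (nN w.length) ua ++ ([Sum.inr .stop] ++
      ((chainCons w.length ++ (tagged (w.map toSym)).flatMap (fun t : ℕ × Gate =>
        gateCons (nR w.length) (nL w.length + 63 * t.1) t.2)).flatMap Con.enc).map Sum.inr) := by
    unfold outA SInst.enc sysOf
    rw [hL, List.map_append, List.map_replicate, List.map_cons]
    rfl
  have e2 : tagged (w.map toSym) = [(0, Gate.lin (nO w.length) false), (1, .lin (nE w.length) true),
        (2, cp w.length (nS w.length 0 0) (nE w.length))] ++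
      w.zipIdx.flatMap (fun x : CA × ℕ => posGates w.length x.2 (toSym x.1)) := by
    unfold tagged
    rw [hL, List.zipIdx_map, List.flatMap_map]
    rfl
  have e3 : scan (fun q c => posW w.length q.length (toSym c)) [] w =
      (((w.zipIdx.flatMap (fun x : CA × ℕ => posGates w.length x.2 (toSym x.1))).flatMap
        (fun t : ℕ × Gate => gateCons (nR w.length) (nL w.length + 63 * t.1) t.2)).flatMap
          Con.enc).map Sum.inr := by
    rw [scan_zipIdx (fun c k => posW w.length k (toSym c)) [] w]
    rw [List.flatMap_assoc (l := w.zipIdx), List.flatMap_assoc (l := w.zipIdx), List.map_flatMap]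
    rfl
  rw [e1, e2, e3, List.flatMap_append, List.flatMap_append, List.map_append, List.flatMap_append,
    List.map_append]

theorem gen_outA : PGen 1 (fun ρ : Fin 1 → List CA => outA (ρ 0)) := by
  have h1 : PGen 1 (fun ρ : Fin 1 → List CA => List.replicate (nN (ρ 0).length) ua) := by
    have h : NumA 1 (fun a => nN (a 0)) := num_nN (L := fun a => a 0) (num_var 0)
    exact h
  have h2 : PGen 1 (fun ρ : Fin 1 → List CA =>
      ((chainCons (ρ 0).length).flatMap Con.enc).map (Sum.inr : SLetter → CA)) := gen_chain
  have h3 : PGen 1 (fun ρ : Fin 1 → List CA =>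
      (([(0, Gate.lin (nO (ρ 0).length) false), (1, .lin (nE (ρ 0).length) true),
        (2, cp (ρ 0).length (nS (ρ 0).length 0 0) (nE (ρ 0).length))].flatMap
          (fun t : ℕ × Gate => gateCons (nR (ρ 0).length) (nL (ρ 0).length + 63 * t.1)
            t.2)).flatMap Con.enc).map (Sum.inr : SLetter → CA)) := gen_head
  have h4 : PGen 1 (fun ρ : Fin 1 → List CA =>
      scan (fun q c => posW (ρ 0).length q.length (toSym c)) [] (ρ 0)) :=
    PGen.loopG (PGen.var 0) (K := fun c q ρ => posW (ρ 0).length q.length (toSym c))
      (fun c => gen_posW (toSym c))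
  exact PGen.congr (PGen.append h1 (PGen.append (PGen.const [Sum.inr .stop]) (PGen.append h2
    (PGen.append h3 h4)))) (fun ρ => (outA_eq (ρ 0)).symm)

instance : Inhabited CA := ⟨.inl .tick⟩

/-- L9 -/
theorem l9 : L9Stmt := by
  obtain ⟨c2⟩ := pgen_computable _ gen_outA
  have c1 : TM2ComputableInPolyTime (id : List Sym → List Sym) (id : List CA → List CA)
      (fun w => w.map Sum.inl) :=
    morphComputable id id _ [] (fun b => [Sum.inl b]) (fun w => by
      show w.map Sum.inl = [] ++ w.flatMap (fun b => [Sum.inl b])
      rw [List.nil_append]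
      induction w with
      | nil => rfl
      | cons a w ih => rw [List.map_cons, List.flatMap_cons, ← ih]; rfl)
  have c3 : TM2ComputableInPolyTime (id : List CA → List CA) (id : List SLetter → List SLetter)
      (fun w => w.flatMap (Sum.elim (fun _ => []) (fun b => [b]))) :=
    morphComputable id id _ [] (Sum.elim (fun _ => []) (fun b => [b])) (fun w => by
      rw [List.nil_append]
      rfl)
  obtain ⟨c4⟩ := TM2ComputableInPolyTime.comp c1 c2
  obtain ⟨c5⟩ := TM2ComputableInPolyTime.comp c4 c3
  refine ⟨⟨c5.toTM2ComputableAux, c5.time, fun w => ?_⟩⟩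
  have h := c5.outputsFun w
  have e : (id (((fun w : List CA => w.flatMap (Sum.elim (fun _ => []) (fun b => [b]))) ∘
      (fun w : List CA => outA ((![w] : Fin 1 → List CA) 0)) ∘ fun w : List Sym =>
        w.map Sum.inl) w) : List SLetter) = (sysOf w).enc := by
    show (outA (w.map Sum.inl)).flatMap (Sum.elim (fun _ => []) (fun b => [b])) = _
    unfold outA
    have e1 : (w.map (Sum.inl : Sym → CA)).map toSym = w := by
      rw [List.map_map]
      exact List.map_id w
    rw [e1]
    generalize (sysOf w).enc = v
    induction v with
    | nil => rfl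
    | cons a v ih => rw [List.map_cons, List.flatMap_cons, ih]; rfl
  rw [e] at h
  exact h

end Pool.Agent.Helper2_Pack
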