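import Pool.Agent.Helper2_Pack.Stmts3

/-!
# S1: regions between two graphs
-/

namespace Pool.Agent.Helper2_Pack

open MeasureTheory Set

theorem Sh.Good.open_set {s : Sh} (h : s.Good) :
    IsOpen {z : ℂ | s.xl < z.re ∧ z.re < s.xr ∧ s.lo z.re < z.im ∧ z.im < s.hi z.re} := by
  have h1 := Complex.continuous_re
  have h2 := Complex.continuous_im
  exact ((isOpen_lt continuous_const h1).inter ((isOpen_lt h1 continuous_const).inter
    ((isOpen_lt (h.lo_cont.comp h1) h2).inter (isOpen_lt h2 (h.hi_cont.comp h1)))))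

theorem Sh.Good.closed_set {s : Sh} (h : s.Good) : IsClosed s.reg := by
  have h1 := Complex.continuous_re
  have h2 := Complex.continuous_im
  exact ((isClosed_le continuous_const h1).inter ((isClosed_le h1 continuous_const).inter
    ((isClosed_le (h.lo_cont.comp h1) h2).inter (isClosed_le h2 (h.hi_cont.comp h1)))))

/-- a point from which one can leave the set by small real multiples of `w` is not interior -/
theorem not_interior {S : Set ℂ} {z w : ℂ} (h : ∀ t : ℝ, 0 < t → z + t * w ∉ S) :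
    z ∉ interior S := by
  intro hz
  rw [mem_interior_iff_mem_nhds] at hz
  have hc : Filter.Tendsto (fun t : ℝ => z + t * w) (nhds 0) (nhds z) := by
    have : Continuous (fun t : ℝ => z + t * w) := by fun_prop
    have h2 := this.tendsto 0
    simpa using h2
  have h3 : ∀ᶠ t : ℝ in nhds (0 : ℝ), z + t * w ∈ S := hc.eventually hz
  have h4 : ∀ᶠ t : ℝ in nhdsWithin (0 : ℝ) (Ioi 0), z + t * w ∈ S :=
    h3.filter_mono nhdsWithin_le_nhds
  have h5 : ∀ᶠ t : ℝ in nhdsWithin (0 : ℝ) (Ioi 0), (0 : ℝ) < t := self_mem_nhdsWithin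
  obtain ⟨t, h6, h7⟩ := (h4.and h5).exists
  exact h t h7 h6

theorem Sh.Good.interior_eq {s : Sh} (h : s.Good) :
    interior s.reg = {z : ℂ | s.xl < z.re ∧ z.re < s.xr ∧ s.lo z.re < z.im ∧ z.im < s.hi z.re} := by
  apply Subset.antisymm
  · intro z hz
    have hm := interior_subset hz
    obtain ⟨h1, h2, h3, h4⟩ := hm
    refine ⟨lt_of_le_of_ne h1 ?_, lt_of_le_of_ne h2 ?_, lt_of_le_of_ne h3 ?_, lt_of_le_of_ne h4 ?_⟩
    · intro e
      refine not_interior (w := -1) (fun t ht hm => ?_) hz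
      have := hm.1
      simp at this
      linarith
    · intro e
      refine not_interior (w := 1) (fun t ht hm => ?_) hz
      have := hm.2.1
      simp at this
      linarith
    · intro e
      refine not_interior (w := -Complex.I) (fun t ht hm => ?_) hz
      have := hm.2.2.1
      simp at this
      linarith
    · intro e
      refine not_interior (w := Complex.I) (fun t ht hm => ?_) hz
      have := hm.2.2.2
      simp at this
      linarith
  · refine interior_maximal ?_ h.open_set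
    rintro z ⟨h1, h2, h3, h4⟩
    exact ⟨h1.le, h2.le, h3.le, h4.le⟩

theorem Sh.Good.subset_closure {s : Sh} (h : s.Good) : s.reg ⊆ closure (interior s.reg) := by
  rw [h.interior_eq]
  -- first: points with abscissa in the open interval
  have key : ∀ z : ℂ, s.xl < z.re → z.re < s.xr → s.lo z.re ≤ z.im → z.im ≤ s.hi z.re →
      z ∈ closure {z : ℂ | s.xl < z.re ∧ z.re < s.xr ∧ s.lo z.re < z.im ∧ z.im < s.hi z.re} := by
    intro z h1 h2 h3 h4
    have hlt := h.lo_lt z.re h1.le h2.le
    have hz : z.im ∈ closure (Ioo (s.lo z.re) (s.hi z.re)) := by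
      rw [closure_Ioo hlt.ne]
      exact ⟨h3, h4⟩
    have hc : Continuous (fun y : ℝ => (⟨z.re, y⟩ : ℂ)) := by
      have : (fun y : ℝ => (⟨z.re, y⟩ : ℂ)) = fun y : ℝ => (z.re : ℂ) + y * Complex.I := by
        funext y
        apply Complex.ext <;> simp
      rw [this]
      fun_prop
    have := image_closure_subset_closure_image hc (mem_image_of_mem _ hz)
    refine closure_mono ?_ this
    rintro _ ⟨y, hy, rfl⟩
    exact ⟨h1, h2, hy.1, hy.2⟩
  rintro z ⟨h1, h2, h3, h4⟩
  -- parameter of the height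
  have hlt := h.lo_lt z.re h1 h2
  set μ : ℝ := (z.im - s.lo z.re) / (s.hi z.re - s.lo z.re) with hμ
  have hμ0 : 0 ≤ μ := div_nonneg (by linarith) (by linarith)
  have hμ1 : μ ≤ 1 := by
    rw [hμ, div_le_one (by linarith)]
    linarith
  have hzim : z.im = s.lo z.re + μ * (s.hi z.re - s.lo z.re) := by
    rw [hμ, div_mul_cancel₀ _ (by linarith)]
    ring
  have hx : z.re ∈ closure (Ioo s.xl s.xr) := by
    rw [closure_Ioo h.lt.ne]
    exact ⟨h1, h2⟩
  have hc : Continuous (fun x : ℝ => (⟨x, s.lo x + μ * (s.hi x - s.lo x)⟩ : ℂ)) := by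
    have : (fun x : ℝ => (⟨x, s.lo x + μ * (s.hi x - s.lo x)⟩ : ℂ)) =
        fun x : ℝ => (x : ℂ) + ((s.lo x + μ * (s.hi x - s.lo x) : ℝ) : ℂ) * Complex.I := by
      funext y
      apply Complex.ext <;> simp
    rw [this]
    have h5 := h.lo_cont
    have h6 := h.hi_cont
    fun_prop
  have h7 := image_closure_subset_closure_image hc (mem_image_of_mem _ hx)
  beta_reduce at h7
  have e : (⟨z.re, s.lo z.re + μ * (s.hi z.re - s.lo z.re)⟩ : ℂ) = z := by
    apply Complex.ext
    · rfl
    · exact hzim.symm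
  rw [e] at h7
  rw [← closure_closure]
  refine closure_mono ?_ h7
  rintro _ ⟨x, hx, rfl⟩
  have hlt' := h.lo_lt x hx.1.le hx.2.le
  refine key _ hx.1 hx.2 ?_ ?_
  · show s.lo x ≤ s.lo x + μ * (s.hi x - s.lo x)
    nlinarith
  · show s.lo x + μ * (s.hi x - s.lo x) ≤ s.hi x
    nlinarith

theorem Sh.Good.compact {s : Sh} (h : s.Good) : IsCompact s.reg := by
  refine Metric.isCompact_of_isClosed_isBounded h.closed_set ?_
  obtain ⟨a, ha⟩ := (isCompact_Icc (a := s.xl) (b := s.xr)).bddBelow_image h.lo_cont.continuousOn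
  obtain ⟨b, hb⟩ := (isCompact_Icc (a := s.xl) (b := s.xr)).bddAbove_image h.hi_cont.continuousOn
  rw [Metric.isBounded_iff_subset_closedBall 0]
  refine ⟨max |s.xl| |s.xr| + max |a| |b|, ?_⟩
  rintro z ⟨h1, h2, h3, h4⟩
  rw [mem_closedBall_zero_iff]
  have h5 := ha ⟨z.re, ⟨h1, h2⟩, rfl⟩
  have h6 := hb ⟨z.re, ⟨h1, h2⟩, rfl⟩
  refine (Complex.norm_le_abs_re_add_abs_im z).trans (add_le_add ?_ ?_)
  · exact abs_le_max_abs_abs h1 h2
  · exact abs_le_max_abs_abs (h5.trans h3) (h4.trans h6)

/-- graphs have measure zero -/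
theorem volume_graph {f : ℝ → ℝ} (hf : Continuous f) : volume {z : ℂ | z.im = f z.re} = 0 := by
  have h1 := Complex.volume_preserving_equiv_real_prod
  have hm : MeasurableSet {p : ℝ × ℝ | p.2 = f p.1} :=
    measurableSet_eq_fun measurable_snd (hf.measurable.comp measurable_fst)
  have e : {z : ℂ | z.im = f z.re} =
      Complex.measurableEquivRealProd ⁻¹' {p : ℝ × ℝ | p.2 = f p.1} := rfl
  rw [e, h1.measure_preimage hm.nullMeasurableSet, Measure.volume_eq_prod,
    Measure.prod_apply hm]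
  have : ∀ x : ℝ, volume (Prod.mk x ⁻¹' {p : ℝ × ℝ | p.2 = f p.1}) = 0 := by
    intro x
    have : Prod.mk x ⁻¹' {p : ℝ × ℝ | p.2 = f p.1} = {f x} := by
      ext y
      simp
    rw [this]
    exact Real.volume_singleton
  simp_rw [this]
  exact MeasureTheory.lintegral_zero

theorem volume_vert (a : ℝ) : volume {z : ℂ | z.re = a} = 0 := by
  have h1 := Complex.volume_preserving_equiv_real_prod
  have hm : MeasurableSet {p : ℝ × ℝ | p.1 = a} :=
    measurableSet_eq_fun measurable_fst measurable_const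
  have e : {z : ℂ | z.re = a} =
      Complex.measurableEquivRealProd ⁻¹' {p : ℝ × ℝ | p.1 = a} := rfl
  rw [e, h1.measure_preimage hm.nullMeasurableSet]
  have : {p : ℝ × ℝ | p.1 = a} = {a} ×ˢ (univ : Set ℝ) := by
    ext p
    simp
  rw [this, Measure.volume_eq_prod, Measure.prod_prod, Real.volume_singleton, zero_mul]

theorem Sh.Good.frontier_null {s : Sh} (h : s.Good) : volume (frontier s.reg) = 0 := by
  refine measure_mono_null (t := {z : ℂ | z.re = s.xl} ∪ {z : ℂ | z.re = s.xr} ∪
    {z : ℂ | z.im = s.lo z.re} ∪ {z : ℂ | z.im = s.hi z.re}) ?_ ?_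
  · rw [h.closed_set.frontier_eq, h.interior_eq]
    rintro z ⟨⟨h1, h2, h3, h4⟩, h5⟩
    simp only [mem_union, Set.mem_ofPred_eq]
    by_contra hc
    push Not at hc
    obtain ⟨⟨⟨c1, c2⟩, c3⟩, c4⟩ := hc
    exact h5 ⟨lt_of_le_of_ne h1 (Ne.symm c1), lt_of_le_of_ne h2 c2,
      lt_of_le_of_ne h3 (Ne.symm c3), lt_of_le_of_ne h4 c4⟩
  · rw [measure_union_null_iff, measure_union_null_iff, measure_union_null_iff]
    exact ⟨⟨⟨volume_vert _, volume_vert _⟩, volume_graph h.lo_cont⟩, volume_graph h.hi_cont⟩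

/-- S1 -/
theorem s1 : S1Stmt := fun _ h => ⟨h.interior_eq, h.subset_closure, h.compact, h.frontier_null⟩

end Pool.Agent.Helper2_Pack
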