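import Pool.Agent.Helper2_Pack.Main
import Pool.Agent.Helper2_Pack.Alg
import Pool.Agent.Helper2_Pack.L9
import Pool.Agent.Helper2_Pack.K5
import Pool.Agent.Helper2_Pack.F3
import Pool.Agent.Helper2_Pack.F8
import Pool.Agent.Helper2_Pack.S1
import Pool.Agent.Helper2_Pack.S2
import Pool.Agent.Helper2_Pack.S3
import Pool.Agent.Helper2_Pack.S4
import Pool.Agent.Helper13_Pack.F4
import Pool.Agent.Helper13_Pack.F5
import Pool.Agent.Helper13_Pack.F6
import Pool.Agent.Helper13_Pack.F7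
import Pool.Agent.Helper14_Pack.A2
import Pool.Agent.Helper15_Pack.P1
import Pool.Agent.Helper15_Pack.P5
import Pool.Agent.Helper15_Pack.P6
import Pool.Agent.Helper34_Pack.P2
import Pool.Agent.Helper34_Pack.P3
import Pool.Agent.Helper34_Pack.F9
import Pool.Agent.Helper51_Pack.C3
import Pool.Agent.Helper51_Pack.C456
import Pool.Agent.Helper51_Pack.C8
import Pool.Agent.Helper55_Pack.L1
import Pool.Agent.Helper55_Pack.T2
import Pool.Agent.Helper55_Pack.T5
import Pool.Agent.Helper55_Pack.Time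
import Pool.Agent.Helper60_Pack.C12
import Pool.Agent.Helper60_Pack.C7
import Pool.Agent.Helper60_Pack.K12
import Pool.Agent.Helper60_Pack.K3
import Pool.Agent.Helper60_Pack.K4
import Pool.Agent.Helper61_Pack.U1
import Pool.Agent.Helper61_Pack.U2
import Pool.Agent.Helper61_Pack.U3
import Pool.Agent.Helper61_Pack.U4
import Pool.Agent.Helper67_Pack.E4
import Pool.Agent.Helper67_Pack.E5
import Pool.Agent.Helper67_Pack.E6
import Pool.Agent.Helper67_Pack.E7
import Pool.Agent.Helper80_Pack.E1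
import Pool.Agent.Helper80_Pack.E3
import Pool.Agent.Helper85_Pack.Place
import Pool.Agent.Helper85_Pack.Room
import Pool.Agent.Helper91_Pack.T1
import Pool.Agent.Helper91_Pack.T3
import Pool.Agent.Helper91_Pack.T4
import Pool.Agent.Helper91_Pack.T6
import Pool.Agent.Helper91_Pack.T7
import Pool.Agent.Helper91_Pack.T10
import Pool.Agent.Helper91_Pack.T11
import Pool.Agent.Helper92_Pack.L7
import Pool.Agent.Helper92_Pack.L8

/-!
# Everything together
-/

namespace Pool.Agent.Helper2_Pack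

open Pool.Agent.Helper13_Pack Pool.Agent.Helper14_Pack Pool.Agent.Helper15_Pack
  Pool.Agent.Helper34_Pack Pool.Agent.Helper51_Pack Pool.Agent.Helper55_Pack
  Pool.Agent.Helper60_Pack Pool.Agent.Helper61_Pack Pool.Agent.Helper67_Pack
  Pool.Agent.Helper80_Pack Pool.Agent.Helper85_Pack Pool.Agent.Helper91_Pack
  Pool.Agent.Helper92_Pack

theorem all_geo : GeoStmt := by
  have hS1 : S1Stmt := s1
  have hS2 : S2Stmt := s2
  have hS3 : S3Stmt := s3
  have hS4 : S4Stmt := s4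
  have hA2 : A2Stmt := a2
  have hC7 : C7Stmt := c7 hS3
  have hC3 : C3Stmt := c3 c1 c2 (c4 hS3) (c5 hS3) (c6 hA2) hC7 (c8 hS4) hS3 hS4
  have hF1 : F1Stmt := f1 hS1 hS2 hS3
  have hF2 : F2Stmt := f2 hS1 hS2 hS3
  have hF9 : F9Stmt := f9 hA2 hC7
  have hF4 : F4Stmt := f4 hF1 hA2 hC7
  have hF5 : F5Stmt := f5 hF1 hA2 hC7
  have hF6 : F6Stmt := f6 hF4 hF5
  have hF7 : F7Stmt := f7 hA2 hC7
  have hF8 : F8Stmt := f8 hA2 hC7 hF2
  have hF3 : F3Stmt := f3 hC3 hF6 hF7 hF8 hF9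
  have hE1 : E1Stmt := e1 hS1 hS2 hS3
  have hE2 : E2Stmt := e2 hS1 hS2 hS3
  have hE3 : E3Stmt := e3 hS1 hS2 hS3
  have hE6 : E6Stmt := e6 hS3 hS4
  have hE5 : E5Stmt := e5 hE6
  have hE7 : E7Stmt := e7 hS3 hS4 hE5
  have hE4 : E4Stmt := e4 hS3 hS4 hE1 hE2 hE3 hE5 hE6 hE7
  have hK5 : K5Stmt := k5 k1 k2 k3 (k4 hS4)
  have hP2 : P2Stmt := p2 p5 p6
  have hP3 : P3Stmt := p3 p1 hP2
  exact geo u1 u2 u3 u4 hP3 hF3 hE4 hK5

theorem all_alg : AlgStmt := alg l1 l7 l8 l9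

theorem all_time : TimeStmt := by
  have hT4 : T4Stmt := t4 t3
  exact time u1 t1 t2 t5 t9 (t10 hT4 t6 t7) (t11 hT4 t6 t7)

theorem final (k : ℕ) (hk : 11 ≤ k) : ExistsRHard (packing k) :=
  main all_geo all_alg all_time k hk

end Pool.Agent.Helper2_Pack
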