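import Pool.Agent.Helper2_Pack.Defs

/-!
# The geometry of the reduction

All shapes are nearly unit squares; `q` is a tiny positive number.  The sizes are

* `q` : height of the bumps on the top sides, shift of the vertical sides of colour `X`;
* `q ^ 3` : clearance, `8 * q ^ 3` : size of the chamfers at the corners;
* `q ^ 4` : the amplitude of the signals.
-/

namespace Pool.Agent.Helper2_Pack

/-! ### Colours and tiles -/

/-- colours of the horizontal sides -/
inductive Col
  | zero | D | V | W
  deriving DecidableEq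

instance : Fintype Col := ⟨{.zero, .D, .V, .W}, by intro x; cases x <;> decide⟩

/-- the positions of the bumps of a colour, in units of `1/32` -/
def Col.marks : Col → List ℕ
  | .zero => [14]
  | .D => [14, 18]
  | .V => [14, 26]
  | .W => [10, 14, 26, 29]

/-- the tiles of the fabric -/
inductive Tile
  | P | Q | Qm | R | U | Tap | Tbp | Tam | Tbm
  deriving DecidableEq

instance : Fintype Tile :=
  ⟨{.P, .Q, .Qm, .R, .U, .Tap, .Tbp, .Tam, .Tbm}, by intro x; cases x <;> decide⟩

/-- colour of the bottom side -/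
def Tile.bot : Tile → Col
  | .P => .zero
  | .Q => .V
  | .Qm => .W
  | .R => .D
  | .U => .zero
  | .Tap => .zero
  | .Tbp => .V
  | .Tam => .zero
  | .Tbm => .W

/-- colour of the top side -/
def Tile.top : Tile → Col
  | .P => .zero
  | .Q => .V
  | .Qm => .W
  | .R => .zero
  | .U => .D
  | .Tap => .V
  | .Tbp => .V
  | .Tam => .W
  | .Tbm => .W

/-- the left side is shifted to the right by `q` -/
def Tile.narrow : Tile → Bool
  | .U => true
  | .Tap => true
  | .Tbp => true
  | .Tam => true
  | .Tbm => true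
  | _ => false

/-- the right side is shifted to the right by `q` -/
def Tile.wide : Tile → Bool
  | .R => true
  | _ => false

/-- The contribution of a tile to the column sums: `1` for an adder, `-1` for a subtractor, `0` for
the other tiles. -/
def Tile.sgn : Tile → ℤ
  | .Tap => 1
  | .Tbp => 1
  | .Tam => -1
  | .Tbm => -1
  | _ => 0

/-- the eleven shapes: the nine tiles and the two levers -/
inductive Shp
  | tile (t : Tile)
  | lever (σ : Bool)
  deriving DecidableEq

/-- the sign of a lever -/
def sg : Bool → ℤ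
  | true => 1
  | false => -1

/-- the colour of the ports of a lever -/
def pcol : Bool → Col
  | true => .V
  | false => .W

/-! ### Shapes as regions between two functions -/

/-- the maximum of `g` and of the tents `h - |x - p|` for `(p, h)` in the list -/
def tents (g : ℝ) (L : List (ℝ × ℝ)) (x : ℝ) : ℝ :=
  L.foldr (fun d m => max (d.2 - |x - d.1|) m) g

/-- a region between the graphs of two functions -/
structure Sh where
  /-- left end -/
  xl : ℝ
  /-- right end -/
  xr : ℝ
  /-- lower boundary -/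
  lo : ℝ → ℝ
  /-- upper boundary -/
  hi : ℝ → ℝ

/-- the region -/
def Sh.reg (s : Sh) : Set ℂ :=
  {z | s.xl ≤ z.re ∧ z.re ≤ s.xr ∧ s.lo z.re ≤ z.im ∧ z.im ≤ s.hi z.re}

/-- the chamfers (and the vertical end pieces of wide tiles) -/
noncomputable def cham (q xl x : ℝ) : ℝ := max 0 (max (xl + 8 * q ^ 3 - x) (min (8 * q ^ 3) (x - 1 + 8 * q ^ 3)))

/-- the bumps of a colour -/
noncomputable def bumps (q : ℝ) (a : Col) : List (ℝ × ℝ) := a.marks.map fun p : ℕ => ((p : ℝ) / 32, q)

/-- the base level of the bottom side of a tile -/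
noncomputable def Tile.base (q : ℝ) (t : Tile) : ℝ := if t.sgn = 0 then 0 else q ^ 3

/-- the dents in the bottom side of a tile -/
noncomputable def Tile.dents (q : ℝ) (t : Tile) : List (ℝ × ℝ) :=
  t.bot.marks.map fun p : ℕ =>
    if t.sgn = 0 then ((p : ℝ) / 32, q + q ^ 3)
    else if p = 14 then ((p : ℝ) / 32 + t.sgn * q ^ 3, q + q ^ 3)
    else ((p : ℝ) / 32, q + 2 * q ^ 3)

/-- left end of a tile -/
noncomputable def Tile.xl (q : ℝ) (t : Tile) : ℝ := if t.narrow then q else 0

/-- right end of a tile -/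
noncomputable def Tile.xr (q : ℝ) (t : Tile) : ℝ := if t.wide then 1 + q else 1

/-- the shape of a tile -/
noncomputable def Tile.sh (q : ℝ) (t : Tile) : Sh where
  xl := t.xl q
  xr := t.xr q
  lo := fun x => max (cham q (t.xl q) x) (tents (t.base q) (t.dents q) x)
  hi := fun x => tents 1 (t.top.marks.map fun p : ℕ => ((p : ℝ) / 32, 1 + q)) x - cham q (t.xl q) x

/-- height of the pivot of a lever -/
noncomputable def piv (q : ℝ) (σ : Bool) : ℝ := q - sg σ * q * (10 / 32)

/-- the roof lines of a lever (lines of slope `± q` through the pivot `(20/32, piv)`) -/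
noncomputable def roof (q : ℝ) (σ : Bool) (x : ℝ) : ℝ := piv q σ + sg σ * q * |x - 20 / 32|

/-- a port dent with centre `p`: a roof segment of width `6 q³` and two sides of slope `± 1` -/
noncomputable def port (q : ℝ) (σ : Bool) (p x : ℝ) : ℝ :=
  min (roof q σ x) (min (roof q σ (p - 3 * q ^ 3) + 3 * q ^ 3 - (p - x))
    (roof q σ (p + 3 * q ^ 3) + 3 * q ^ 3 - (x - p)))

/-- the shape of a lever -/
noncomputable def leverSh (q : ℝ) (σ : Bool) : Sh where
  xl := 0
  xr := 1
  lo := fun x => max (max (cham q 0 x)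
      (tents (q ^ 3) (if σ then [] else [(13 / 32, q + 2 * q ^ 3), (26 / 32, q + 2 * q ^ 3)]) x))
    (max (port q σ (10 / 32) x) (port q σ (30 / 32) x))
  hi := fun x => min (1 - cham q 0 x) (piv q σ + (1 - piv q σ) * |x - 20 / 32| / (2 * q ^ 3))

/-- the shapes -/
noncomputable def Shp.sh (q : ℝ) : Shp → Sh
  | .tile t => t.sh q
  | .lever σ => leverSh q σ

/-! ### Layouts -/

/-- the kinds of ceiling above a column: a flat ceiling with the dents of a colour and an offset
`o * q ^ 4`, and the left and the right half of the room of a lever -/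
inductive Top
  | flat (a : Col) (o : ℤ)
  | portL (σ : Bool)
  | portR (σ : Bool)
  deriving DecidableEq

/-- colour of the top of the column -/
def Top.col : Top → Col
  | .flat a _ => a
  | .portL σ => pcol σ
  | .portR σ => pcol σ

/-- is this the left half of a room -/
def Top.isL : Top → Bool
  | .portL _ => true
  | _ => false

/-- the sign of the lever -/
def Top.sig : Top → Bool
  | .portL σ => σ
  | .portR σ => σ
  | _ => true

/-- A layout: an array of tiles with `M` columns and `2 n + 1` rows, and the ceiling. -/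
structure Layout where
  /-- number of literal rows -/
  n : ℕ
  /-- number of columns -/
  M : ℕ
  /-- the tile in column `c` and row `r` -/
  ty : ℕ → ℕ → Tile
  /-- the ceiling above column `c` -/
  top : ℕ → Top

/-- number of rows -/
def Layout.N (G : Layout) : ℕ := 2 * G.n + 1

/-- An assignment of tiles to the cells which fits to the floor, the ceiling and the walls of the
layout `G`. -/
structure Fits (G : Layout) (ty : ℕ → ℕ → Tile) : Prop where
  vert : ∀ c r, c < G.M → r + 1 < G.N → (ty c r).top = (ty c (r + 1)).bot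
  horiz : ∀ c r, c + 1 < G.M → r < G.N → (ty c r).wide = (ty (c + 1) r).narrow
  left : ∀ r, r < G.N → (ty 0 r).narrow = false
  right : ∀ r, r < G.N → (ty (G.M - 1) r).wide = false
  floor : ∀ c, c < G.M → (ty c 0).bot = (G.ty c 0).bot
  ceil : ∀ c, c < G.M → (ty c (G.N - 1)).top = (G.top c).col

/-- the conditions for a layout -/
structure Layout.OK (G : Layout) : Prop where
  pos : 0 < G.M
  fits : Fits G G.ty
  floor : ∀ c, c < G.M → (G.ty c 0).bot = .zero ∨ (G.ty c 0).bot = .D
  odd : ∀ c r, c < G.M → r < G.N → (G.ty c r).sgn ≠ 0 → r % 2 = 1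
  portL : ∀ c σ, c < G.M → G.top c = .portL σ → c + 1 < G.M ∧ G.top (c + 1) = .portR σ
  portR : ∀ c σ, c < G.M → G.top c = .portR σ → 0 < c ∧ G.top (c - 1) = .portL σ
  flat : ∀ c a o, c < G.M → G.top c = .flat a o → a ≠ .D ∧ (o = -1 ∨ o = 0 ∨ o = 1)
  out : ∀ c, G.M ≤ c → G.top c = .flat .zero 0

/-- the cells: the cells of the array and the rooms of the levers -/
abbrev Cell (G : Layout) : Type := (Fin G.M × Fin G.N) ⊕ {c : Fin G.M // (G.top c).isL = true}

/-- the number of cells -/
def Layout.K (G : Layout) : ℕ := Fintype.card (Cell G)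

/-- the shape which belongs to a cell -/
def Layout.shp (G : Layout) : Cell G → Shp
  | .inl p => .tile (G.ty p.1 p.2)
  | .inr c => .lever (G.top c.1).sig

/-- the lower left corner of a cell -/
noncomputable def corner {G : Layout} : Cell G → ℂ
  | .inl p => ⟨p.1, p.2⟩
  | .inr c => ⟨c.1 + 1 / 2, G.N⟩

/-! ### The container -/

/-- the floor of a column -/
noncomputable def locFloor (q : ℝ) (a : Col) (x : ℝ) : ℝ := tents 0 (bumps q a) x

/-- the ceiling of a column, relative to the height `N` -/
noncomputable def locCeil (q : ℝ) : Top → ℝ → ℝ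
  | .flat a o, x => max (o * q ^ 4 * min 1 (min (x / (4 * q ^ 3)) ((1 - x) / (4 * q ^ 3))))
      (tents (o * q ^ 4 - 1) (a.marks.map fun p : ℕ => ((p : ℝ) / 32, o * q ^ 4 + q + q ^ 3)) x)
  | .portL σ, x => max (max (q ^ 3 * min 1 (x / (4 * q ^ 3)))
      (tents 0 (((pcol σ).marks.filter (fun p : ℕ => p < 16)).map fun p : ℕ => ((p : ℝ) / 32, q + 2 * q ^ 3)) x))
      (min (1 + q ^ 3) (q ^ 3 + (x - 1 / 2 + 2 * q ^ 3) / q ^ 3))
  | .portR σ, x => max (max (q ^ 3 * min 1 ((1 - x) / (4 * q ^ 3)))
      (tents 0 (((pcol σ).marks.filter (fun p : ℕ => 16 < p)).map fun p : ℕ => ((p : ℝ) / 32, q + 2 * q ^ 3)) x))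
      (min (min (1 + q ^ 3) (q ^ 3 + (1 / 2 + 2 * q ^ 3 - x) / q ^ 3))
        (piv q σ + (1 + q ^ 3 - piv q σ) * |x - 4 / 32| / q ^ 3))

/-- the floor -/
noncomputable def Layout.floorF (q : ℝ) (G : Layout) (x : ℝ) : ℝ :=
  locFloor q (G.ty ⌊x⌋₊ 0).bot (x - ⌊x⌋₊)

/-- the ceiling -/
noncomputable def Layout.ceilF (q : ℝ) (G : Layout) (x : ℝ) : ℝ :=
  G.N + locCeil q (G.top ⌊x⌋₊) (x - ⌊x⌋₊)

/-- The container: the main part between the floor and the ceiling, and the recesses of width
`q ^ 4` at the left and right ends of the literal rows. -/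
def Layout.cont (q : ℝ) (G : Layout) : Set ℂ :=
  {z | 0 ≤ z.re ∧ z.re ≤ G.M ∧ G.floorF q z.re ≤ z.im ∧ z.im ≤ G.ceilF q z.re} ∪
  {z | ((-q ^ 4 ≤ z.re ∧ z.re ≤ 0) ∨ (G.M ≤ z.re ∧ z.re ≤ G.M + q ^ 4)) ∧
    ∃ r : ℕ, r < G.N ∧ r % 2 = 1 ∧ (r : ℝ) ≤ z.im ∧ z.im ≤ r + 1}

/-! ### Packings -/

/-- the region occupied by a shape -/
noncomputable def Shp.reg (q : ℝ) (s : Shp) : Set ℂ := (s.sh q).reg

/-- the image of a shape under a motion -/
noncomputable def img (q : ℝ) (g : Motion) (s : Shp) : Set ℂ := g.app '' s.reg q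

/-- a packing of the shapes of a layout into the container -/
structure Packing (q : ℝ) (G : Layout) where
  /-- the motions -/
  g : Cell G → Motion
  sub : ∀ i, img q (g i) (G.shp i) ⊆ G.cont q
  disj : ∀ i j, i ≠ j → Disjoint (interior (img q (g i) (G.shp i)))
    (interior (img q (g j) (G.shp j)))

/-- `q` is small compared with the layout -/
structure Small (q : ℝ) (G : Layout) : Prop where
  pos : 0 < q
  small : q * 2 ^ (8 * G.K + 60) ≤ 1

end Pool.Agent.Helper2_Pack
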