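import Pool.Agent.Helper2_Pack.Geo

/-!
# The polygons of the reduction

All polygons are translated by `shift m * (1 + i)`: then all coordinates are positive dyadic
numbers with an odd numerator and the denominator `2 ^ (5 m)`.
-/

namespace Pool.Agent.Helper2_Pack

/-- the basic length -/
def qq (m : ℕ) : ℚ := (1 / 2) ^ m

/-- the translation -/
def shift (m : ℕ) : ℚ := 2 + 4 * qq m + 8 * qq m ^ 3 + 8 * qq m ^ 4 + qq m ^ 5

/-- translation of a list of corners -/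
def translate (m : ℕ) (L : Polygon) : Polygon := L.map fun p => (p.1 + shift m, p.2 + shift m)

/-- the corners of tents of slope `± 1` above the level `g`; `(p, h)` is the apex -/
def tentPts (g : ℚ) (L : List (ℚ × ℚ)) : Polygon :=
  L.flatMap fun d => [(d.1 - (d.2 - g), g), (d.1, d.2), (d.1 + (d.2 - g), g)]

/-! ### Tiles -/

/-- the dents of a tile -/
def Tile.dentsQ (q : ℚ) (t : Tile) : List (ℚ × ℚ) :=
  t.bot.marks.map fun p : ℕ =>
    if t.sgn = 0 then ((p : ℚ) / 32, q + q ^ 3)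
    else if p = 14 then ((p : ℚ) / 32 + t.sgn * q ^ 3, q + q ^ 3)
    else ((p : ℚ) / 32, q + 2 * q ^ 3)

/-- lower boundary of a tile -/
def Tile.loPts (q : ℚ) (t : Tile) : Polygon :=
  let xl := if t.narrow then q else 0
  let g := if t.sgn = 0 then 0 else q ^ 3
  [(xl, 8 * q ^ 3), (xl + 8 * q ^ 3 - g, g)] ++ tentPts g (t.dentsQ q) ++
    [(1 - 8 * q ^ 3 + g, g), (1, 8 * q ^ 3)] ++ (if t.wide then [(1 + q, 8 * q ^ 3)] else [])

/-- upper boundary of a tile -/
def Tile.hiPts (q : ℚ) (t : Tile) : Polygon :=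
  let xl := if t.narrow then q else 0
  [(xl, 1 - 8 * q ^ 3), (xl + 8 * q ^ 3, 1)] ++
    tentPts 1 (t.top.marks.map fun p : ℕ => ((p : ℚ) / 32, 1 + q)) ++
    [(1 - 8 * q ^ 3, 1), (1, 1 - 8 * q ^ 3)] ++ (if t.wide then [(1 + q, 1 - 8 * q ^ 3)] else [])

/-! ### Levers -/

/-- height of the pivot -/
def pivQ (q : ℚ) (σ : Bool) : ℚ := q - sg σ * q * (10 / 32)

/-- the corners of a port dent with centre `p`; `a`, `b` are the heights of the ends of the roof -/
def portPts (q p a b : ℚ) : Polygon :=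
  [(p - 3 * q ^ 3 - (a - q ^ 3), q ^ 3), (p - 3 * q ^ 3, a), (p + 3 * q ^ 3, b),
    (p + 3 * q ^ 3 + (b - q ^ 3), q ^ 3)]

/-- lower boundary of a lever -/
def leverLo (q : ℚ) (σ : Bool) : Polygon :=
  [(0, 8 * q ^ 3), (7 * q ^ 3, q ^ 3)] ++
    portPts q (10 / 32) (q + 3 * sg σ * q ^ 4) (q - 3 * sg σ * q ^ 4) ++
    (if σ then [] else tentPts (q ^ 3) [(13 / 32, q + 2 * q ^ 3), (26 / 32, q + 2 * q ^ 3)]) ++
    portPts q (30 / 32) (q - 3 * sg σ * q ^ 4) (q + 3 * sg σ * q ^ 4) ++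
    [(1 - 7 * q ^ 3, q ^ 3), (1, 8 * q ^ 3)]

/-- upper boundary of a lever -/
def leverHi (q : ℚ) (σ : Bool) : Polygon :=
  [(0, 1 - 8 * q ^ 3), (8 * q ^ 3, 1), (20 / 32 - 2 * q ^ 3, 1), (20 / 32, pivQ q σ),
    (20 / 32 + 2 * q ^ 3, 1), (1 - 8 * q ^ 3, 1), (1, 1 - 8 * q ^ 3)]

/-- the polygon of a shape -/
def poly (m : ℕ) : Shp → Polygon
  | .tile t => translate m (t.loPts (qq m) ++ (t.hiPts (qq m)).reverse)
  | .lever σ => translate m (leverLo (qq m) σ ++ (leverHi (qq m) σ).reverse)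

/-! ### The container -/

/-- translation of the corners of a column -/
def place (c N : ℕ) (L : Polygon) : Polygon := L.map fun p => (c + p.1, N + p.2)

/-- the corners of the ceiling of a column, relative to the height `N` -/
def Top.pts (q : ℚ) : Top → Polygon
  | .flat a o => [(0, 0), (4 * q ^ 3, o * q ^ 4)] ++
      tentPts (o * q ^ 4) (a.marks.map fun p : ℕ => ((p : ℚ) / 32, o * q ^ 4 + q + q ^ 3)) ++
      [(1 - 4 * q ^ 3, o * q ^ 4)]
  | .portL σ => [(0, 0), (4 * q ^ 3, q ^ 3)] ++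
      tentPts (q ^ 3) (((pcol σ).marks.filter (fun p : ℕ => p < 16)).map fun p : ℕ => ((p : ℚ) / 32, q + 2 * q ^ 3)) ++
      [(1 / 2 - 2 * q ^ 3, q ^ 3), (1 / 2 - q ^ 3, 1 + q ^ 3)]
  | .portR σ => [(0, 1 + q ^ 3), (4 / 32 - q ^ 3, 1 + q ^ 3), (4 / 32, pivQ q σ),
      (4 / 32 + q ^ 3, 1 + q ^ 3), (1 / 2 + q ^ 3, 1 + q ^ 3), (1 / 2 + 2 * q ^ 3, q ^ 3)] ++
      tentPts (q ^ 3) (((pcol σ).marks.filter (fun p : ℕ => 16 < p)).map fun p : ℕ => ((p : ℚ) / 32, q + 2 * q ^ 3)) ++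
      [(1 - 4 * q ^ 3, q ^ 3)]

/-- the floor from left to right -/
def Layout.floorPts (q : ℚ) (G : Layout) : Polygon :=
  [(0, 0)] ++ (List.range G.M).flatMap (fun c : ℕ =>
    place c 0 (tentPts 0 ((G.ty c 0).bot.marks.map fun p : ℕ => ((p : ℚ) / 32, q)))) ++ [((G.M : ℚ), 0)]

/-- the right wall, upwards -/
def Layout.rightPts (q : ℚ) (G : Layout) : Polygon :=
  (List.range G.n).flatMap fun i : ℕ => [((G.M : ℚ), 2 * (i : ℚ) + 1), (G.M + q ^ 4, 2 * (i : ℚ) + 1),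
    (G.M + q ^ 4, 2 * (i : ℚ) + 2), ((G.M : ℚ), 2 * (i : ℚ) + 2)]

/-- the left wall, upwards -/
def Layout.leftPts (q : ℚ) (G : Layout) : Polygon :=
  (List.range G.n).flatMap fun i : ℕ => [((0 : ℚ), 2 * (i : ℚ) + 1), (-q ^ 4, 2 * (i : ℚ) + 1),
    (-q ^ 4, 2 * (i : ℚ) + 2), ((0 : ℚ), 2 * (i : ℚ) + 2)]

/-- the ceiling from left to right -/
def Layout.ceilPts (q : ℚ) (G : Layout) : Polygon :=
  (List.range G.M).flatMap (fun c : ℕ => place c G.N ((G.top c).pts q)) ++ [((G.M : ℚ), (G.N : ℚ))]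

/-- the polygon of the container -/
def Layout.contPoly (m : ℕ) (G : Layout) : Polygon :=
  translate m (G.floorPts (qq m) ++ G.rightPts (qq m) ++ (G.ceilPts (qq m)).reverse ++
    (G.leftPts (qq m)).reverse)

/-! ### The instance -/

/-- the shapes of the pieces, column by column -/
def Layout.shapes (G : Layout) : List Shp :=
  (List.range G.M).flatMap fun c => (List.range G.N).map (fun r => .tile (G.ty c r)) ++
    (if (G.top c).isL then [.lever (G.top c).sig] else [])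

/-- the instance of geometric packing for a layout -/
def inst (m : ℕ) (G : Layout) : Instance := ⟨G.contPoly m, G.shapes.map (poly m)⟩

end Pool.Agent.Helper2_Pack
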