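import Pool.Agent.Helper2_Pack.Stmts2
import Pool.Agent.Helper32_Poly.Comp

/-!
# Assembly
-/

namespace Pool.Agent.Helper2_Pack

open Pool.Agent.Helper53_Closed (DecisionProblem PolyReduces Formula encInst)
open Pool.Agent.Helper32_Poly Turing

theorem small_of_le {m : ℕ} {G : Layout} (h : 8 * G.K + 60 ≤ m) : Small ((1 / 2) ^ m) G := by
  refine ⟨by positivity, ?_⟩
  have h1 : ((1 : ℝ) / 2) ^ m ≤ (1 / 2) ^ (8 * G.K + 60) :=
    pow_le_pow_of_le_one (by norm_num) (by norm_num) h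
  calc ((1 : ℝ) / 2) ^ m * 2 ^ (8 * G.K + 60) ≤ (1 / 2) ^ (8 * G.K + 60) * 2 ^ (8 * G.K + 60) :=
        mul_le_mul_of_nonneg_right h1 (by positivity)
    _ = 1 := by rw [← mul_pow]; norm_num

theorem Nice.congr {q : ℝ} {G : Layout} {ty ty' : ℕ → ℕ → Tile} {g : Cell G → Motion}
    (h : Nice q G ty g) (he : ∀ c r, c < G.M → r < G.N → ty c r = ty' c r) : Nice q G ty' g := by
  have e : ∀ i, G.shpOf ty i = G.shpOf ty' i := by
    rintro (p | c)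
    · show Shp.tile _ = Shp.tile _
      rw [he _ _ p.1.isLt p.2.isLt]
    · rfl
  refine ⟨fun i => ?_, fun i j hij => ?_, h.tile, h.lever⟩
  · rw [← e]
    exact h.sub i
  · rw [← e, ← e]
    exact h.disj i j hij

theorem geo (hU1 : U1Stmt) (hU2 : U2Stmt) (hU3 : U3Stmt) (hU4 : U4Stmt) (hP3 : P3Stmt)
    (hF3 : F3Stmt) (hE4 : E4Stmt) (hK5 : K5Stmt) : GeoStmt := by
  intro S m hS hm
  have hOK := hU1 S hS
  have hsm := small_of_le hm
  have hm20 : 20 ≤ m := by omega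
  have hq0 : (0 : ℝ) < (1 / 2) ^ m := by positivity
  have hq1 : ((1 : ℝ) / 2) ^ m ≤ 1 / 2 ^ 20 := by
    rw [← one_div_pow]
    exact pow_le_pow_of_le_one (by norm_num) (by norm_num) hm20
  obtain ⟨h1, h2, h3⟩ := hP3 m S.layout hOK hm20
  refine ⟨h2, h3, h1.trans ⟨?_, ?_⟩⟩
  · rintro ⟨p⟩
    obtain ⟨ty, g, hf, hn⟩ := hF3 _ _ p hOK hsm
    obtain ⟨xl, xr, Y, hw⟩ := hE4 _ _ g hOK hsm (hn.congr (hU2 S hS ty hf))
    exact hU3 S _ xl xr Y hS hq0 hq1 hw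
  · intro h
    obtain ⟨x, hx⟩ := hU4 S _ hS hq0 hq1 h
    exact hK5 _ _ x hOK hsm hx

theorem epsOf_bound {q : ℝ} (h0 : 0 < q) (h1 : q ≤ 1 / 2) : 0 < epsOf q ∧ epsOf q ≤ 1 / 4 := by
  unfold epsOf
  have h2 : 0 < 10 / 32 * (1 + q ^ 2) := by positivity
  refine ⟨by positivity, ?_⟩
  rw [div_le_iff₀ h2]
  have h3 : q ^ 5 ≤ (1 / 2) ^ 5 := pow_le_pow_left₀ h0.le h1 5
  nlinarith [sq_nonneg q]

theorem hard_packing (hG : GeoStmt) (hA : AlgStmt) (hT : TimeStmt) (k : ℕ) (hk : 11 ≤ k) :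
    PolyReduces existentialTheory (packing k) := by
  obtain ⟨F, hF2, ⟨cF⟩⟩ := hA
  obtain ⟨μ, hμ, ⟨cT⟩⟩ := hT
  refine ⟨fun x => ⟨inst (μ (F x)) (F x).1.layout, (hG (F x).1 _ (F x).2 (hμ _)).1,
    (hG (F x).1 _ (F x).2 (hμ _)).2.1 k hk⟩, ?_, ?_⟩
  · obtain ⟨c⟩ := TM2ComputableInPolyTime.comp cF cT
    exact ⟨⟨c.toTM2ComputableAux, c.time, fun x => c.outputsFun x⟩⟩
  · intro x
    have h := (hG (F x).1 _ (F x).2 (hμ _)).2.2
    have hq : (0 : ℝ) < (1 / 2) ^ μ (F x) := by positivity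
    have hq1 : ((1 : ℝ) / 2) ^ μ (F x) ≤ 1 / 2 := by
      have h1 := hμ (F x)
      calc ((1 : ℝ) / 2) ^ μ (F x) ≤ (1 / 2) ^ 1 :=
            pow_le_pow_of_le_one (by norm_num) (by norm_num) (by omega)
        _ = 1 / 2 := by norm_num
    have hb := epsOf_bound hq hq1
    exact (hF2 x _ hb.1 hb.2).trans h.symm

theorem polyReduces_trans {P Q R : DecisionProblem} (h1 : PolyReduces P Q)
    (h2 : PolyReduces Q R) : PolyReduces P R := by
  obtain ⟨f, ⟨cf⟩, hf⟩ := h1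
  obtain ⟨g, ⟨cg⟩, hg⟩ := h2
  exact ⟨g ∘ f, TM2ComputableInPolyTime.comp cf cg, fun x => (hf x).trans (hg (f x))⟩

/-- the main theorem from its parts -/
theorem main (hG : GeoStmt) (hA : AlgStmt) (hT : TimeStmt) (k : ℕ) (hk : 11 ≤ k) :
    ExistsRHard (packing k) :=
  fun _ hP => polyReduces_trans hP (hard_packing hG hA hT k hk)

end Pool.Agent.Helper2_Pack
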