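import Pool.Agent.Helper2_Pack.Geo

/-!
# Statements of the geometric modules
-/

namespace Pool.Agent.Helper2_Pack

open MeasureTheory

/-! ### Block S: general facts -/

/-- a well-behaved region between two graphs -/
structure Sh.Good (s : Sh) : Prop where
  lt : s.xl < s.xr
  lo_cont : Continuous s.lo
  hi_cont : Continuous s.hi
  lo_lt : ∀ x, s.xl ≤ x → x ≤ s.xr → s.lo x < s.hi x

/-- S1 -/
def S1Stmt : Prop := ∀ s : Sh, s.Good →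
  interior s.reg = {z : ℂ | s.xl < z.re ∧ z.re < s.xr ∧ s.lo z.re < z.im ∧ z.im < s.hi z.re} ∧
  s.reg ⊆ closure (interior s.reg) ∧ IsCompact s.reg ∧ volume (frontier s.reg) = 0

/-- S2 -/
def S2Stmt : Prop := ∀ (g : Motion) (S : Set ℂ),
  interior (g.app '' S) = g.app '' interior S ∧ closure (g.app '' S) = g.app '' closure S ∧
  frontier (g.app '' S) = g.app '' frontier S ∧ volume (g.app '' S) = volume S ∧
  (∀ z, z ∈ g.app '' S ↔ (starRingEnd ℂ g.u) * (z - g.v) ∈ S)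

/-- S3: the shapes are well-behaved and nearly unit squares -/
def S3Stmt : Prop := ∀ (q : ℝ) (s : Shp), 0 < q → q ≤ 1 / 1000 →
  (s.sh q).Good ∧
  s.reg q ⊆ {z : ℂ | 0 ≤ z.re ∧ z.re ≤ 1 + q ∧ 0 ≤ z.im ∧ z.im ≤ 1 + q} ∧
  volume ({z : ℂ | 2 * q ≤ z.re ∧ z.re ≤ 1 - 2 * q ∧ 2 * q ≤ z.im ∧ z.im ≤ 1 - 2 * q} \ s.reg q) ≤
    ENNReal.ofReal (4 * q ^ 3)

/-- S4: basic facts on the container -/
def S4Stmt : Prop := ∀ (q : ℝ) (G : Layout), G.OK → Small q G →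
  MeasurableSet (G.cont q) ∧
  (∀ z ∈ G.cont q, -q ^ 4 ≤ z.re ∧ z.re ≤ G.M + q ^ 4 ∧ 0 ≤ z.im) ∧
  (∀ z ∈ G.cont q, ∀ r : ℕ, r % 2 = 0 → r < G.N → (r : ℝ) < z.im → z.im < r + 1 →
    0 ≤ z.re ∧ z.re ≤ G.M) ∧
  (∀ z : ℂ, 0 ≤ z.re → z.re ≤ G.M → q ≤ z.im → z.im ≤ G.N - q → z ∈ G.cont q) ∧
  (∀ z ∈ G.cont q, ∀ c : ℕ, c < G.M → (c : ℝ) ≤ z.re → z.re ≤ c + 1 →
    locFloor q (G.ty c 0).bot (z.re - c) ≤ z.im ∧ z.im ≤ G.N + locCeil q (G.top c) (z.re - c)) ∧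
  (∀ z : ℂ, ∀ c : ℕ, c < G.M → (c : ℝ) ≤ z.re → z.re ≤ c + 1 →
    locFloor q (G.ty c 0).bot (z.re - c) ≤ z.im → z.im ≤ G.N + locCeil q (G.top c) (z.re - c) →
    z ∈ G.cont q)

/-! ### Block A: area -/

/-- A1 -/
def A1Stmt : Prop := ∀ (q : ℝ) (G : Layout), G.OK → Small q G →
  volume (G.cont q) ≤ ∑ i, volume ((G.shp i).reg q) + ENNReal.ofReal (64 * G.K * q ^ 3)

/-- the images of the shapes of a packing -/
def Packing.occ {q : ℝ} {G : Layout} (p : Packing q G) : Set ℂ :=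
  ⋃ i, img q (p.g i) (G.shp i)

/-- A2: the uncovered area is small -/
def A2Stmt : Prop := ∀ (q : ℝ) (G : Layout) (p : Packing q G), G.OK → Small q G →
  volume (G.cont q \ p.occ) ≤ ENNReal.ofReal (64 * G.K * q ^ 3)

/-! ### Block C: coarse placement -/

/-- the image of the unit square under `g` is within `e` of the cell with lower left corner `a`,
up to a rotation by a multiple of `90` degrees -/
def NearCell (e : ℝ) (a : ℂ) (g : Motion) : Prop :=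
  |(g.app ⟨1 / 2, 1 / 2⟩ - a).re - 1 / 2| ≤ e ∧ |(g.app ⟨1 / 2, 1 / 2⟩ - a).im - 1 / 2| ≤ e ∧
  ∃ k : ℕ, k < 4 ∧ ‖g.u - Complex.I ^ k‖ ≤ e

/-- C1: a unit square which meets the corner of a cell and avoids the three neighbours -/
def C1Stmt : Prop := ∀ (s : ℝ) (m u z : ℂ) (α β : ℝ), 0 < s → s ≤ 1 / 1000 → ‖u‖ = 1 →
  (∀ w : ℂ, -1 + s ≤ w.re → w.re ≤ -s → s ≤ w.im → w.im ≤ 1 - s → 1 / 2 - s ≤ ‖w - m‖) →
  (∀ w : ℂ, s ≤ w.re → w.re ≤ 1 - s → -1 + s ≤ w.im → w.im ≤ -s → 1 / 2 - s ≤ ‖w - m‖) →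
  (∀ w : ℂ, -1 + s ≤ w.re → w.re ≤ -s → -1 + s ≤ w.im → w.im ≤ -s → 1 / 2 - s ≤ ‖w - m‖) →
  |z.re| ≤ s → |z.im| ≤ s → z = m + u * (α + β * Complex.I) → |α| ≤ 1 / 2 + s → |β| ≤ 1 / 2 + s →
  |m.re - 1 / 2| ≤ 40 * s ∧ |m.im - 1 / 2| ≤ 40 * s ∧ ∃ k : ℕ, k < 4 ∧ ‖u - Complex.I ^ k‖ ≤ 40 * s

/-- C2: the same for the room of a lever: the neighbours are the wall on the left and the two
top tiles below -/
def C2Stmt : Prop := ∀ (s : ℝ) (m u z : ℂ) (α β : ℝ), 0 < s → s ≤ 1 / 1000 → ‖u‖ = 1 →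
  (∀ w : ℂ, -1 / 2 + s ≤ w.re → w.re ≤ -s → s ≤ w.im → w.im ≤ 1 - s → 1 / 2 - s ≤ ‖w - m‖) →
  (∀ w : ℂ, -1 / 2 + s ≤ w.re → w.re ≤ 1 / 2 - s → -1 + s ≤ w.im → w.im ≤ -s →
    1 / 2 - s ≤ ‖w - m‖) →
  (∀ w : ℂ, 1 / 2 + s ≤ w.re → w.re ≤ 3 / 2 - s → -1 + s ≤ w.im → w.im ≤ -s →
    1 / 2 - s ≤ ‖w - m‖) →
  |z.re| ≤ s → |z.im| ≤ s → z = m + u * (α + β * Complex.I) → |α| ≤ 1 / 2 + s → |β| ≤ 1 / 2 + s →
  |m.re - 1 / 2| ≤ 40 * s ∧ |m.im - 1 / 2| ≤ 40 * s ∧ ∃ k : ℕ, k < 4 ∧ ‖u - Complex.I ^ k‖ ≤ 40 * s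

/-- C3: coarse placement of all pieces -/
def C3Stmt : Prop := ∀ (q : ℝ) (G : Layout) (p : Packing q G), G.OK → Small q G →
  ∃ f : Cell G ≃ Cell G, ∀ i, NearCell (1 / 1024) (corner i) (p.g (f i))

/-! ### Block F: fine placement -/

/-- the top of a tile with top colour `a` -/
noncomputable def topF (q : ℝ) (a : Col) (x : ℝ) : ℝ :=
  tents 1 (a.marks.map fun p : ℕ => ((p : ℝ) / 32, 1 + q)) x

/-- F1: a piece above a side with colour `a` -/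
def F1Stmt : Prop := ∀ (q ω : ℝ) (a : Col) (s : Shp) (h : Motion), 0 < q → q ≤ 1 / 2 ^ 20 →
  0 ≤ ω → ω ≤ q ^ 2 / 64 → NearCell (1 / 256) Complex.I h →
  (∀ z : ℂ, 1 / 16 < z.re → z.re < 15 / 16 → 1 / 2 < z.im → z.im < topF q a z.re →
    z ∉ interior (img q h s)) →
  volume ({z : ℂ | 1 / 16 < z.re ∧ z.re < 15 / 16 ∧ topF q a z.re < z.im ∧ z.im < 3 / 2} \
    img q h s) ≤ ENNReal.ofReal ω →
  ∃ t : Tile, s = .tile t ∧ t.bot = a ∧ ‖h.u - 1‖ ≤ 2 ^ 10 * ω ∧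
    ‖h.v - Complex.I‖ ≤ 2 ^ 10 * (ω + q ^ 3)

/-- F2: a piece in the room of a lever -/
def F2Stmt : Prop := ∀ (q ω : ℝ) (σ : Bool) (t₁ t₂ : Tile) (g₁ g₂ : Motion) (s : Shp) (h : Motion),
  0 < q → q ≤ 1 / 2 ^ 20 → 0 ≤ ω → ω ≤ q ^ 2 / 64 →
  t₁.top.marks.filter (fun p : ℕ => p < 16) = (pcol σ).marks.filter (fun p : ℕ => p < 16) →
  t₂.top.marks.filter (fun p : ℕ => 16 < p) = (pcol σ).marks.filter (fun p : ℕ => 16 < p) →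
  ‖g₁.u - 1‖ ≤ q ^ 2 → ‖g₁.v - ⟨-1 / 2, -1⟩‖ ≤ q ^ 2 →
  ‖g₂.u - 1‖ ≤ q ^ 2 → ‖g₂.v - ⟨1 / 2, -1⟩‖ ≤ q ^ 2 →
  NearCell (1 / 256) 0 h →
  Disjoint (interior (img q g₁ (.tile t₁))) (interior (img q h s)) →
  Disjoint (interior (img q g₂ (.tile t₂))) (interior (img q h s)) →
  volume ({z : ℂ | 1 / 16 < z.re ∧ z.re < 31 / 32 ∧ -1 / 2 < z.im ∧ z.im < 1 / 2} \
    (img q h s ∪ img q g₁ (.tile t₁) ∪ img q g₂ (.tile t₂))) ≤ ENNReal.ofReal ω →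
  t₁.top = pcol σ ∧ t₂.top = pcol σ ∧ s = .lever σ ∧ ‖h.u - 1‖ ≤ 2 ^ 12 * q ^ 2 ∧ ‖h.v‖ ≤ 2 ^ 12 * q ^ 2

/-- the shape in a cell for an assignment of tiles -/
def Layout.shpOf (G : Layout) (ty : ℕ → ℕ → Tile) : Cell G → Shp
  | .inl p => .tile (ty p.1 p.2)
  | .inr c => .lever (G.top c.1).sig

/-- a packing in which all pieces are almost exactly in their cells -/
structure Nice (q : ℝ) (G : Layout) (ty : ℕ → ℕ → Tile) (g : Cell G → Motion) : Prop where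
  sub : ∀ i, img q (g i) (G.shpOf ty i) ⊆ G.cont q
  disj : ∀ i j, i ≠ j → Disjoint (interior (img q (g i) (G.shpOf ty i)))
    (interior (img q (g j) (G.shpOf ty j)))
  tile : ∀ p, ‖(g (.inl p)).u - 1‖ ≤ q ^ 2 ∧ ‖(g (.inl p)).v - corner (.inl p : Cell G)‖ ≤ q ^ 2
  lever : ∀ c, ‖(g (.inr c)).u - 1‖ ≤ 2 ^ 12 * q ^ 2 ∧
    ‖(g (.inr c)).v - corner (.inr c : Cell G)‖ ≤ 2 ^ 12 * q ^ 2

/-- F3: fine placement -/
def F3Stmt : Prop := ∀ (q : ℝ) (G : Layout) (_ : Packing q G), G.OK → Small q G →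
  ∃ ty g, Fits G ty ∧ Nice q G ty g

/-! ### Block E: the exact inequalities -/

/-- abscissa of the point at height `y` on the image of the vertical line `x = a` -/
noncomputable def hx (g : Motion) (a y : ℝ) : ℝ :=
  (a + ((starRingEnd ℂ g.u) * g.v).re - y * g.u.im) / g.u.re

/-- E1 (adder): `T` between two unrotated tiles; `x` is the displacement of its left side at height
`1/4` -/
def E1Stmt : Prop := ∀ (q Y₀ Y₂ : ℝ) (t₀ t t₂ : Tile) (g : Motion), 0 < q → q ≤ 1 / 2 ^ 20 →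
  |Y₀| ≤ q ^ 2 → |Y₂| ≤ q ^ 2 → ‖g.u - 1‖ ≤ q ^ 2 → ‖g.v‖ ≤ q ^ 2 → t.sgn = 1 → t₂.sgn = 0 →
  (∀ z ∈ (Shp.tile t₀).reg q, z + ⟨0, -1 + Y₀⟩ ∉ interior (img q g (.tile t))) →
  (∀ z ∈ img q g (.tile t), z - ⟨0, -1 + Y₀⟩ ∉ interior ((Shp.tile t₀).reg q)) →
  (∀ z ∈ img q g (.tile t), z - ⟨0, 1 + Y₂⟩ ∉ interior ((Shp.tile t₂).reg q)) →
  Y₀ + (hx g q (1 / 4) - q) ≤ Y₂

/-- E2 (subtractor): the displacement of the right side counts -/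
def E2Stmt : Prop := ∀ (q Y₀ Y₂ : ℝ) (t₀ t t₂ : Tile) (g : Motion), 0 < q → q ≤ 1 / 2 ^ 20 →
  |Y₀| ≤ q ^ 2 → |Y₂| ≤ q ^ 2 → ‖g.u - 1‖ ≤ q ^ 2 → ‖g.v‖ ≤ q ^ 2 → t.sgn = -1 → t₂.sgn = 0 →
  (∀ z ∈ (Shp.tile t₀).reg q, z + ⟨0, -1 + Y₀⟩ ∉ interior (img q g (.tile t))) →
  (∀ z ∈ img q g (.tile t), z - ⟨0, -1 + Y₀⟩ ∉ interior ((Shp.tile t₀).reg q)) →
  (∀ z ∈ img q g (.tile t), z - ⟨0, 1 + Y₂⟩ ∉ interior ((Shp.tile t₂).reg q)) →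
  Y₀ - (hx g 1 (1 / 4) - 1) ≤ Y₂

/-- E3 (lever): the apexes `P₁`, `P₂` of the bumps of the ports and the tip `O` of the spike are not
in the interior of the lever -/
def E3Stmt : Prop := ∀ (q Y₁ Y₂ : ℝ) (σ : Bool) (h : Motion), 0 < q → q ≤ 1 / 2 ^ 20 →
  |Y₁| ≤ q ^ 2 → |Y₂| ≤ q ^ 2 → ‖h.u - 1‖ ≤ 2 ^ 12 * q ^ 2 → ‖h.v‖ ≤ 2 ^ 12 * q ^ 2 →
  (⟨10 / 32, q + Y₁⟩ : ℂ) ∉ interior (img q h (.lever σ)) →
  (⟨30 / 32, q + Y₂⟩ : ℂ) ∉ interior (img q h (.lever σ)) →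
  (⟨20 / 32, piv q σ⟩ : ℂ) ∉ interior (img q h (.lever σ)) →
  10 / 32 * (1 + q ^ 2) * (Y₁ + Y₂) + 2 * sg σ * q * (Y₁ * Y₂) ≤ 0

/-- the inequalities satisfied by the displacements -/
structure Wit (q : ℝ) (G : Layout) (xl xr Y : ℕ → ℕ → ℝ) : Prop where
  left : ∀ r, r < G.N → r % 2 = 1 → -q ^ 4 ≤ xl 0 r
  right : ∀ r, r < G.N → r % 2 = 1 → xr (G.M - 1) r ≤ q ^ 4
  wid : ∀ c r, c < G.M → r < G.N → r % 2 = 1 → xl c r ≤ xr c r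
  adj : ∀ c r, c + 1 < G.M → r < G.N → r % 2 = 1 → xr c r ≤ xl (c + 1) r
  base : ∀ c, c < G.M → 0 ≤ Y c 0
  step : ∀ c r, c < G.M → r < G.N → r % 2 = 1 → (G.ty c r).sgn = 0 → Y c (r - 1) ≤ Y c (r + 1)
  plus : ∀ c r, c < G.M → r < G.N → r % 2 = 1 → (G.ty c r).sgn = 1 →
    Y c (r - 1) + xl c r ≤ Y c (r + 1)
  minus : ∀ c r, c < G.M → r < G.N → r % 2 = 1 → (G.ty c r).sgn = -1 →
    Y c (r - 1) - xr c r ≤ Y c (r + 1)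
  ceil : ∀ c a o, c < G.M → G.top c = .flat a o → Y c (G.N - 1) ≤ o * q ^ 4
  lever : ∀ c σ, c < G.M → G.top c = .portL σ →
    |Y c (G.N - 1)| ≤ q ^ 2 ∧ |Y (c + 1) (G.N - 1)| ≤ q ^ 2 ∧
    10 / 32 * (1 + q ^ 2) * (Y c (G.N - 1) + Y (c + 1) (G.N - 1)) +
      2 * sg σ * q * (Y c (G.N - 1) * Y (c + 1) (G.N - 1)) ≤ 0

/-- E4: every nice packing gives displacements -/
def E4Stmt : Prop := ∀ (q : ℝ) (G : Layout) (g : Cell G → Motion), G.OK → Small q G →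
  Nice q G G.ty g → ∃ xl xr Y, Wit q G xl xr Y

/-! ### Block K: completeness -/

/-- the vertical displacement of the tile in column `c` and row `r`, when the tiles in row `r` are
displaced by `x r` -/
noncomputable def Layout.disp (G : Layout) (x : ℕ → ℝ) (c r : ℕ) : ℝ :=
  ∑ k ∈ Finset.range (r + 1), (G.ty c k).sgn * x k

/-- the conditions for the displacements of the rows -/
structure Sol (q : ℝ) (G : Layout) (x : ℕ → ℝ) : Prop where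
  row : ∀ r, |x r| ≤ q ^ 4
  even : ∀ r, r % 2 = 0 → x r = 0
  col : ∀ c r, c < G.M → r < G.N → |G.disp x c r| ≤ 3 * q ^ 4
  ceil : ∀ c a o, c < G.M → G.top c = .flat a o → G.disp x c (G.N - 1) ≤ o * q ^ 4
  lever : ∀ c σ, c < G.M → G.top c = .portL σ →
    |G.disp x c (G.N - 1)| ≤ q ^ 4 ∧ |G.disp x (c + 1) (G.N - 1)| ≤ q ^ 4 ∧
    10 / 32 * (1 + q ^ 2) * (G.disp x c (G.N - 1) + G.disp x (c + 1) (G.N - 1)) +
      2 * sg σ * q * (G.disp x c (G.N - 1) * G.disp x (c + 1) (G.N - 1)) ≤ 0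

/-- K5: completeness -/
def K5Stmt : Prop := ∀ (q : ℝ) (G : Layout) (x : ℕ → ℝ), G.OK → Small q G → Sol q G x →
  Nonempty (Packing q G)

end Pool.Agent.Helper2_Pack
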