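import Pool.Agent.Helper2_Pack.Geo

/-!
# Systems of simple constraints on `[-1, 1]` and their layouts
-/

namespace Pool.Agent.Helper2_Pack

/-! ### Systems -/

/-- Constraints on the variables `z₀, z₁, …`: `∑_{i ∈ I} z i = κ` and
`z i + z j + ε z i z j = 0`. -/
inductive Con
  | sum (I : List ℕ) (κ : ℤ)
  | inv (i j : ℕ)
  deriving DecidableEq

/-- the constraint is well formed for `n` variables -/
def Con.WF (n : ℕ) : Con → Prop
  | .sum I κ => I ≠ [] ∧ I.length ≤ 3 ∧ I.Nodup ∧ (∀ i ∈ I, i < n) ∧ (κ = -1 ∨ κ = 0 ∨ κ = 1)
  | .inv i j => i < j ∧ j < n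

/-- the constraint holds -/
def Con.Holds (ε : ℝ) (z : ℕ → ℝ) : Con → Prop
  | .sum I κ => (I.map z).sum = κ
  | .inv i j => z i + z j + ε * (z i * z j) = 0

/-- a system -/
structure SInst where
  /-- number of variables -/
  n : ℕ
  /-- the constraints -/
  cons : List Con

/-- the system is well formed -/
def SInst.WF (S : SInst) : Prop := S.cons ≠ [] ∧ ∀ c ∈ S.cons, c.WF S.n

/-- the system has a solution in `[-1, 1]` -/
def SInst.Solvable (ε : ℝ) (S : SInst) : Prop :=
  ∃ z : ℕ → ℝ, (∀ i, i < S.n → |z i| ≤ 1) ∧ ∀ c ∈ S.cons, c.Holds ε z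

/-- letters for systems -/
inductive SLetter
  | tick | sep | stop | neg | zer | one | inv
  deriving DecidableEq

instance : Fintype SLetter :=
  ⟨{.tick, .sep, .stop, .neg, .zer, .one, .inv}, by intro x; cases x <;> decide⟩

/-- an index in unary -/
def encIdx (i : ℕ) : List SLetter := List.replicate i .tick ++ [.sep]

/-- the word of a constraint -/
def Con.enc : Con → List SLetter
  | .sum I κ => I.flatMap encIdx ++ [if κ = -1 then .neg else if κ = 0 then .zer else .one]
  | .inv i j => encIdx i ++ encIdx j ++ [.inv]

/-- the word of a system -/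
def SInst.enc (S : SInst) : List SLetter :=
  List.replicate S.n .tick ++ .stop :: S.cons.flatMap Con.enc

/-! ### The layout of a system

There are `2 * L` blocks of `2 n + 2` columns, where `L` is the number of the constraints: the
first `L` blocks are the `W` blocks, the last `L` blocks are the `V` blocks.  In the block of a
constraint, the variable `i` belongs to the row `2 n - 1 - 2 i`. -/

/-- the variables with a device in the column `2 n` of the block -/
def Con.first : Con → List ℕ
  | .sum I _ => I
  | .inv i _ => [i]

/-- the variables with a device in the column `2 n + 1` of the block -/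
def Con.second : Con → List ℕ
  | .sum _ _ => []
  | .inv _ j => [j]

/-- the bottom side of the cell `(o, r)` of the block has colour `D` -/
def dcell (n : ℕ) (k : Con) (o r : ℕ) : Bool :=
  (decide (o < 2 * n) && k.first.any fun i => decide (o = r + 2 * i)) ||
  (decide (o < 2 * n + 1) && k.second.any fun j => decide (o = r + (2 * j + 1)))

/-- the bottom side of the cell `(o, r)` of the block has colour `V` (or `W`) -/
def vcell (n : ℕ) (k : Con) (o r : ℕ) : Bool :=
  (decide (o = 2 * n) && k.first.any fun i => decide (2 * n ≤ r + 2 * i)) ||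
  (decide (o = 2 * n + 1) && k.second.any fun j => decide (2 * n ≤ r + 2 * j))

/-- the colour of the bottom side of the cell `(o, r)` of the block -/
def hcol (n : ℕ) (σ : Bool) (k : Con) (o r : ℕ) : Col :=
  if dcell n k o r then .D else if vcell n k o r then pcol σ else .zero

/-- the tile with given colours -/
def mkTile (bot : Col) (left : Bool) (top : Col) (right : Bool) : Tile :=
  if right then .R
  else if left then
    match bot, top with
    | .zero, .V => .Tap
    | .V, .V => .Tbp
    | .zero, .W => .Tam
    | .W, .W => .Tbm
    | _, _ => .U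
  else
    match top with
    | .V => .Q
    | .W => .Qm
    | _ => .P

/-- the tile in the cell `(o, r)` of the block -/
def blockTile (n : ℕ) (σ : Bool) (k : Con) (o r : ℕ) : Tile :=
  mkTile (hcol n σ k o r) (decide (0 < o) && dcell n k (o - 1) r) (hcol n σ k o (r + 1))
    (dcell n k o r)

/-- the ceiling above the column `o` of the block -/
def blockTop (n : ℕ) (σ : Bool) (k : Con) (o : ℕ) : Top :=
  match k with
  | .sum _ κ => if o = 2 * n then .flat (pcol σ) (sg σ * κ) else .flat .zero 0
  | .inv _ _ => if o = 2 * n then .portL σ else if o = 2 * n + 1 then .portR σ else .flat .zero 0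

/-- the constraint of the block which contains the column `c` -/
def SInst.con (S : SInst) (c : ℕ) : Con :=
  S.cons.getD (c / (2 * S.n + 2) % S.cons.length) (.inv 0 1)

/-- the sign of the block which contains the column `c` -/
def SInst.sig (S : SInst) (c : ℕ) : Bool := decide (S.cons.length ≤ c / (2 * S.n + 2))

/-- the layout of a system -/
def SInst.layout (S : SInst) : Layout where
  n := S.n
  M := 2 * S.cons.length * (2 * S.n + 2)
  ty := fun c r => blockTile S.n (S.sig c) (S.con c) (c % (2 * S.n + 2)) r
  top := fun c => if c < 2 * S.cons.length * (2 * S.n + 2) then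
    blockTop S.n (S.sig c) (S.con c) (c % (2 * S.n + 2)) else .flat .zero 0

/-- the nonlinearity of the levers -/
noncomputable def epsOf (q : ℝ) : ℝ := 2 * q ^ 5 / (10 / 32 * (1 + q ^ 2))

end Pool.Agent.Helper2_Pack
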