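import Pool.Agent.Helper2_Pack.Stmts
import Pool.Agent.Helper2_Pack.Inst
import Pool.Agent.Helper2_Pack.Sys

/-!
# Statements of the remaining modules
-/

namespace Pool.Agent.Helper2_Pack

open Pool.Agent.Helper53_Closed (DecisionProblem PolyReduces Formula encInst)

/-! ### Block U: the layout of a system -/

/-- U1 -/
def U1Stmt : Prop := ∀ S : SInst, S.WF → S.layout.OK

/-- U2: the tiles are determined by the floor, the ceiling and the walls -/
def U2Stmt : Prop := ∀ S : SInst, S.WF → ∀ ty, Fits S.layout ty →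
  ∀ c r, c < S.layout.M → r < S.layout.N → ty c r = S.layout.ty c r

/-- U3: from displacements to a solution -/
def U3Stmt : Prop := ∀ (S : SInst) (q : ℝ) (xl xr Y : ℕ → ℕ → ℝ), S.WF → 0 < q →
  q ≤ 1 / 2 ^ 20 → Wit q S.layout xl xr Y → S.Solvable (epsOf q)

/-- U4: from a solution to displacements -/
def U4Stmt : Prop := ∀ (S : SInst) (q : ℝ), S.WF → 0 < q → q ≤ 1 / 2 ^ 20 →
  S.Solvable (epsOf q) → ∃ x, Sol q S.layout x

/-! ### Block P: polygons -/

/-- P1 -/
def P1Stmt : Prop := ∀ (m : ℕ) (s : Shp), 20 ≤ m → IsSimple (poly m s) ∧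
  region (poly m s) = (fun z : ℂ => z + ⟨shift m, shift m⟩) '' (s.reg ((1 / 2) ^ m))

/-- P2 -/
def P2Stmt : Prop := ∀ (m : ℕ) (G : Layout), G.OK → 20 ≤ m → IsSimple (G.contPoly m) ∧
  region (G.contPoly m) = (fun z : ℂ => z + ⟨shift m, shift m⟩) '' (G.cont ((1 / 2) ^ m))

/-- P3 -/
def P3Stmt : Prop := ∀ (m : ℕ) (G : Layout), G.OK → 20 ≤ m →
  ((inst m G).Solvable ↔ Nonempty (Packing ((1 / 2) ^ m) G)) ∧ (inst m G).Valid ∧
  ∀ k, 11 ≤ k → (inst m G).AtMostShapes k

/-! ### The geometric part -/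

/-- the geometric part of the reduction -/
def GeoStmt : Prop := ∀ (S : SInst) (m : ℕ), S.WF → 8 * S.layout.K + 60 ≤ m →
  (inst m S.layout).Valid ∧ (∀ k, 11 ≤ k → (inst m S.layout).AtMostShapes k) ∧
  ((inst m S.layout).Solvable ↔ S.Solvable (epsOf ((1 / 2) ^ m)))

/-! ### Block A: algebra -/

/-- well-formed systems -/
abbrev WInst : Type := {S : SInst // S.WF}

/-- the algebraic part of the reduction -/
def AlgStmt : Prop := ∃ F : (Σ n : ℕ, Formula n) → WInst,
  (∀ x (ε : ℝ), 0 < ε → ε ≤ 1 / 4 → (existentialTheory.Yes x ↔ (F x).1.Solvable ε)) ∧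
  Nonempty (Turing.TM2ComputableInPolyTime encInst (fun S : WInst => S.1.enc) F)

/-! ### Block T: the instance can be written down in polynomial time -/

/-- the polynomial time part of the reduction -/
def TimeStmt : Prop := ∃ μ : WInst → ℕ, (∀ S, 8 * S.1.layout.K + 60 ≤ μ S) ∧
  Nonempty (Turing.TM2ComputableInPolyTime (fun S : WInst => S.1.enc) Instance.enc
    (fun S : WInst => inst (μ S) S.1.layout))

end Pool.Agent.Helper2_Pack
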