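import Pool.Agent.Helper2_Pack.Stmts2

/-!
# Intermediate statements
-/

namespace Pool.Agent.Helper2_Pack

open MeasureTheory

/-! ### Block A -/

/-- A3: the area of a tile -/
def A3Stmt : Prop := ∀ (q : ℝ) (t : Tile), 0 < q → q ≤ 1 / 2 ^ 20 →
  ENNReal.ofReal (t.xr q - t.xl q + (t.top.marks.length - t.bot.marks.length) * q ^ 2 - 2 * q ^ 3) ≤
    volume ((Shp.tile t).reg q)

/-- A4: the area of a lever -/
def A4Stmt : Prop := ∀ (q : ℝ) (σ : Bool), 0 < q → q ≤ 1 / 2 ^ 20 →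
  ENNReal.ofReal (1 - (pcol σ).marks.length * q ^ 2 - 4 * q ^ 3) ≤ volume ((Shp.lever σ).reg q)

/-- the bound for the area above a column -/
noncomputable def colA (q : ℝ) : Top → ℝ
  | .flat a _ => a.marks.length * q ^ 2 + 2 * q ^ 3
  | .portL σ => 1 / 2 + ((pcol σ).marks.filter (fun p : ℕ => p < 16)).length * q ^ 2 + 6 * q ^ 3
  | .portR σ => 1 / 2 + ((pcol σ).marks.filter (fun p : ℕ => 16 < p)).length * q ^ 2 + 6 * q ^ 3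

/-- A5: the area of the container -/
def A5Stmt : Prop := ∀ (q : ℝ) (G : Layout), G.OK → Small q G →
  volume (G.cont q) ≤ ENNReal.ofReal (G.M * G.N +
    ∑ c ∈ Finset.range G.M, (colA q (G.top c) - (G.ty c 0).bot.marks.length * q ^ 2) +
    2 * G.n * q ^ 4)

/-! ### Block C -/

/-- `z` lies in the image of the core square `[2q, 1-2q]²` under `g` -/
def InCore (q : ℝ) (g : Motion) (z : ℂ) : Prop :=
  2 * q ≤ ((starRingEnd ℂ g.u) * (z - g.v)).re ∧ ((starRingEnd ℂ g.u) * (z - g.v)).re ≤ 1 - 2 * q ∧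
  2 * q ≤ ((starRingEnd ℂ g.u) * (z - g.v)).im ∧ ((starRingEnd ℂ g.u) * (z - g.v)).im ≤ 1 - 2 * q

/-- `z` lies in the open square of side `q` around `w` -/
def Sq (q : ℝ) (w z : ℂ) : Prop := |z.re - w.re| < q / 2 ∧ |z.im - w.im| < q / 2

/-- C4: two core squares cannot contain the same little square -/
def C4Stmt : Prop := ∀ (q : ℝ) (G : Layout) (p : Packing q G), G.OK → Small q G →
  ∀ i j, i ≠ j → ∀ w : ℂ, ¬ ((∀ z, Sq q w z → InCore q (p.g i) z) ∧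
    (∀ z, Sq q w z → InCore q (p.g j) z))

/-- C5: a little square in a core square meets the container -/
def C5Stmt : Prop := ∀ (q : ℝ) (G : Layout) (p : Packing q G), G.OK → Small q G →
  ∀ i, ∀ w : ℂ, (∀ z, Sq q w z → InCore q (p.g i) z) → ∃ z, Sq q w z ∧ z ∈ G.cont q

/-- C6: every little square in the container meets a piece -/
def C6Stmt : Prop := ∀ (q : ℝ) (G : Layout) (p : Packing q G), G.OK → Small q G →
  ∀ w : ℂ, (∀ z, Sq q w z → z ∈ G.cont q) → ∃ i z, Sq q w z ∧ z ∈ img q (p.g i) (G.shp i)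

/-- C7: consequences of `NearCell` -/
def C7Stmt : Prop := ∀ (q e : ℝ) (a : ℂ) (g : Motion), 0 < q → q ≤ 1 / 2 ^ 20 → 0 ≤ e →
  e ≤ 1 / 200 → NearCell e a g →
  (∀ z : ℂ, 2 * q + 2 * e ≤ (z - a).re → (z - a).re ≤ 1 - (2 * q + 2 * e) →
    2 * q + 2 * e ≤ (z - a).im → (z - a).im ≤ 1 - (2 * q + 2 * e) → InCore q g z) ∧
  ∀ (s : Shp), ∀ z ∈ img q g s, -(q + 2 * e) ≤ (z - a).re ∧ (z - a).re ≤ 1 + (q + 2 * e) ∧
    -(q + 2 * e) ≤ (z - a).im ∧ (z - a).im ≤ 1 + (q + 2 * e)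

/-- C8: the container near the room of a lever (`a` is the lower left corner of the room) -/
def C8Stmt : Prop := ∀ (q s : ℝ) (G : Layout) (c : ℕ), G.OK → Small q G → c < G.M →
  (G.top c).isL = true → 2 * q ≤ s → s ≤ 1 / 100 →
  (∀ z : ℂ, -1 / 2 + s ≤ (z - ⟨c + 1 / 2, G.N⟩).re → (z - ⟨c + 1 / 2, G.N⟩).re ≤ -s →
    s ≤ (z - ⟨c + 1 / 2, G.N⟩).im → z ∉ G.cont q) ∧
  (∀ z : ℂ, 0 ≤ (z - ⟨c + 1 / 2, G.N⟩).re → (z - ⟨c + 1 / 2, G.N⟩).re ≤ 19 / 32 →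
    q ≤ (z - ⟨c + 1 / 2, G.N⟩).im → (z - ⟨c + 1 / 2, G.N⟩).im ≤ 1 → z ∈ G.cont q)

/-! ### Block F -/

/-- the bijection of a coarse placement -/
def IsCoarse {q : ℝ} {G : Layout} (p : Packing q G) (f : Cell G ≃ Cell G) : Prop :=
  ∀ i, NearCell (1 / 1024) (corner i) (p.g (f i))

/-- F4: the bottom row -/
def F4Stmt : Prop := ∀ (q : ℝ) (G : Layout) (p : Packing q G) (f : Cell G ≃ Cell G), G.OK →
  Small q G → IsCoarse p f → ∀ (c : Fin G.M) (r : Fin G.N), r.val = 0 →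
  ∃ t : Tile, G.shp (f (.inl (c, r))) = .tile t ∧ t.bot = (G.ty c 0).bot ∧
    ‖(p.g (f (.inl (c, r)))).u - 1‖ ≤ 2 ^ 17 * G.K * q ^ 3 ∧
    ‖(p.g (f (.inl (c, r)))).v - ⟨c, r⟩‖ ≤ 2 ^ 17 * G.K * q ^ 3

/-- F5: from a cell to the cell above it -/
def F5Stmt : Prop := ∀ (q : ℝ) (G : Layout) (p : Packing q G) (f : Cell G ≃ Cell G), G.OK →
  Small q G → IsCoarse p f → ∀ (c : Fin G.M) (r r' : Fin G.N) (t : Tile) (θ η : ℝ),
  r'.val = r.val + 1 → G.shp (f (.inl (c, r))) = .tile t → θ ≤ q ^ 2 → η ≤ q ^ 2 →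
  ‖(p.g (f (.inl (c, r)))).u - 1‖ ≤ θ → ‖(p.g (f (.inl (c, r)))).v - ⟨c, r⟩‖ ≤ η →
  ∃ t' : Tile, G.shp (f (.inl (c, r'))) = .tile t' ∧ t'.bot = t.top ∧
    ‖(p.g (f (.inl (c, r')))).u - 1‖ ≤ θ + 2 ^ 17 * G.K * q ^ 3 ∧
    ‖(p.g (f (.inl (c, r')))).v - ⟨c, r'⟩‖ ≤ η + θ + 2 ^ 17 * G.K * q ^ 3

/-- all pieces in the array are tiles and almost exactly in their cells -/
def FineArray {q : ℝ} {G : Layout} (p : Packing q G) (f : Cell G ≃ Cell G)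
    (ty : ℕ → ℕ → Tile) : Prop :=
  ∀ (c : Fin G.M) (r : Fin G.N), G.shp (f (.inl (c, r))) = .tile (ty c r) ∧
    ‖(p.g (f (.inl (c, r)))).u - 1‖ ≤ q ^ 2 ∧ ‖(p.g (f (.inl (c, r)))).v - ⟨c, r⟩‖ ≤ q ^ 2

/-- F6: the whole array -/
def F6Stmt : Prop := ∀ (q : ℝ) (G : Layout) (p : Packing q G) (f : Cell G ≃ Cell G), G.OK →
  Small q G → IsCoarse p f → ∃ ty : ℕ → ℕ → Tile, FineArray p f ty ∧
    (∀ c r, c < G.M → r + 1 < G.N → (ty c r).top = (ty c (r + 1)).bot) ∧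
    ∀ c, c < G.M → (ty c 0).bot = (G.ty c 0).bot

/-- F7: flat ceilings -/
def F7Stmt : Prop := ∀ (q : ℝ) (G : Layout) (p : Packing q G) (f : Cell G ≃ Cell G)
  (ty : ℕ → ℕ → Tile), G.OK → Small q G → IsCoarse p f → FineArray p f ty →
  ∀ c a o, c < G.M → G.top c = .flat a o → (ty c (G.N - 1)).top = a

/-- F8: the rooms of the levers -/
def F8Stmt : Prop := ∀ (q : ℝ) (G : Layout) (p : Packing q G) (f : Cell G ≃ Cell G)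
  (ty : ℕ → ℕ → Tile), G.OK → Small q G → IsCoarse p f → FineArray p f ty →
  ∀ (c : {c : Fin G.M // (G.top c).isL = true}) (σ : Bool), G.top c.1 = .portL σ →
    (ty c.1 (G.N - 1)).top = pcol σ ∧ (ty ((c.1 : ℕ) + 1) (G.N - 1)).top = pcol σ ∧
    G.shp (f (.inr c)) = .lever σ ∧
    ‖(p.g (f (.inr c))).u - 1‖ ≤ 2 ^ 12 * q ^ 2 ∧
    ‖(p.g (f (.inr c))).v - corner (.inr c : Cell G)‖ ≤ 2 ^ 12 * q ^ 2

/-- F9: the vertical sides -/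
def F9Stmt : Prop := ∀ (q : ℝ) (G : Layout) (p : Packing q G) (f : Cell G ≃ Cell G)
  (ty : ℕ → ℕ → Tile), G.OK → Small q G → IsCoarse p f → FineArray p f ty →
  (∀ c r, c + 1 < G.M → r < G.N → (ty c r).wide = (ty (c + 1) r).narrow) ∧
  (∀ r, r < G.N → (ty 0 r).narrow = false) ∧ (∀ r, r < G.N → (ty (G.M - 1) r).wide = false)

/-! ### Block E -/

/-- E5: the tiles in the even rows are not rotated and have the exact abscissa -/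
def E5Stmt : Prop := ∀ (q : ℝ) (G : Layout) (g : Cell G → Motion), G.OK → Small q G →
  Nice q G G.ty g → ∀ (c : Fin G.M) (r : Fin G.N), r.val % 2 = 0 →
  (g (.inl (c, r))).u = 1 ∧ (g (.inl (c, r))).v.re = c

/-- E6: the chain of a row; `r` is arbitrary -/
def E6Stmt : Prop := ∀ (q : ℝ) (G : Layout) (g : Cell G → Motion), G.OK → Small q G →
  Nice q G G.ty g → ∀ r : Fin G.N,
  (∀ c : Fin G.M, hx (g (.inl (c, r))) ((G.ty c r).xl q) (r + 1 / 4) +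
      ((G.ty c r).xr q - (G.ty c r).xl q) / (g (.inl (c, r))).u.re =
      hx (g (.inl (c, r))) ((G.ty c r).xr q) (r + 1 / 4)) ∧
  (∀ c c' : Fin G.M, c'.val = c.val + 1 → hx (g (.inl (c, r))) ((G.ty c r).xr q) (r + 1 / 4) ≤
      hx (g (.inl (c', r))) ((G.ty c' r).xl q) (r + 1 / 4)) ∧
  (∀ c : Fin G.M, (if r.val % 2 = 0 then 0 else -q ^ 4) ≤
      hx (g (.inl (c, r))) ((G.ty c r).xl q) (r + 1 / 4) ∧
    hx (g (.inl (c, r))) ((G.ty c r).xr q) (r + 1 / 4) ≤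
      G.M + (if r.val % 2 = 0 then 0 else q ^ 4))

/-- E7: the columns, away from the adders and the subtractors -/
def E7Stmt : Prop := ∀ (q : ℝ) (G : Layout) (g : Cell G → Motion), G.OK → Small q G →
  Nice q G G.ty g →
  (∀ (c : Fin G.M) (r : Fin G.N), r.val = 0 → 0 ≤ (g (.inl (c, r))).v.im) ∧
  (∀ (c : Fin G.M) (r r' r'' : Fin G.N), r.val % 2 = 0 → r'.val = r.val + 1 →
    r''.val = r.val + 2 → (G.ty c r').sgn = 0 →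
    (g (.inl (c, r))).v.im + 2 ≤ (g (.inl (c, r''))).v.im) ∧
  (∀ (c : Fin G.M) (r : Fin G.N) (a : Col) (o : ℤ), r.val + 1 = G.N → G.top c = .flat a o →
    (g (.inl (c, r))).v.im ≤ r + o * q ^ 4)

/-! ### Block K -/

/-- K1: a tile above a tile -/
def K1Stmt : Prop := ∀ (q : ℝ) (t₁ t₂ : Tile) (dx₁ dx₂ dy₁ dy₂ x : ℝ), 0 < q → q ≤ 1 / 2 ^ 20 →
  t₁.top = t₂.bot → |dx₁| ≤ q ^ 4 → |dx₂| ≤ q ^ 4 → dy₂ = dy₁ + t₂.sgn * (dx₂ - dx₁) →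
  t₁.xl q ≤ x - dx₁ → x - dx₁ ≤ t₁.xr q → t₂.xl q ≤ x - dx₂ → x - dx₂ ≤ t₂.xr q →
  dy₁ + (t₁.sh q).hi (x - dx₁) ≤ 1 + dy₂ + (t₂.sh q).lo (x - dx₂)

/-- K2: tiles in adjacent rows and adjacent columns (`t₁` below) -/
def K2Stmt : Prop := ∀ (q : ℝ) (t₁ t₂ : Tile) (dx₁ dx₂ dy₁ dy₂ x : ℝ), 0 < q → q ≤ 1 / 2 ^ 20 →
  |dx₁| ≤ q ^ 4 → |dx₂| ≤ q ^ 4 → |dy₁| ≤ 3 * q ^ 4 → |dy₂| ≤ 3 * q ^ 4 →
  t₁.xl q ≤ x - dx₁ → x - dx₁ ≤ t₁.xr q →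
  (t₂.xl q ≤ x - 1 - dx₂ → x - 1 - dx₂ ≤ t₂.xr q →
    dy₁ + (t₁.sh q).hi (x - dx₁) ≤ 1 + dy₂ + (t₂.sh q).lo (x - 1 - dx₂)) ∧
  (t₂.xl q ≤ x + 1 - dx₂ → x + 1 - dx₂ ≤ t₂.xr q →
    dy₁ + (t₁.sh q).hi (x - dx₁) ≤ 1 + dy₂ + (t₂.sh q).lo (x + 1 - dx₂))

/-- K3: the position of a lever -/
def K3Stmt : Prop := ∀ (q Y₁ Y₂ : ℝ) (σ : Bool), 0 < q → q ≤ 1 / 2 ^ 20 → |Y₁| ≤ q ^ 4 →
  |Y₂| ≤ q ^ 4 → 10 / 32 * (1 + q ^ 2) * (Y₁ + Y₂) + 2 * sg σ * q * (Y₁ * Y₂) ≤ 0 →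
  ∃ h : Motion, ∀ z ∈ img q h (.lever σ),
    -q ^ 3 / 2 ≤ z.re ∧ z.re ≤ 1 + q ^ 3 / 2 ∧ q ^ 3 / 2 ≤ z.im ∧ z.im ≤ 1 + q ^ 3 / 2 ∧
    Y₁ + tents 0 (((pcol σ).marks.filter (fun p : ℕ => 16 < p)).map fun p : ℕ => ((p : ℝ) / 32 - 1 / 2, q)) z.re
      ≤ z.im ∧
    Y₂ + tents 0 (((pcol σ).marks.filter (fun p : ℕ => p < 16)).map fun p : ℕ => ((p : ℝ) / 32 + 1 / 2, q)) z.re
      ≤ z.im ∧
    z.im ≤ piv q σ + (1 + q ^ 3 - piv q σ) * |z.re - 20 / 32| / q ^ 3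

/-- K4: the tiles are in the container -/
def K4Stmt : Prop := ∀ (q : ℝ) (G : Layout) (x : ℕ → ℝ), G.OK → Small q G → Sol q G x →
  ∀ c r, c < G.M → r < G.N → ∀ z ∈ (Shp.tile (G.ty c r)).reg q,
    z + ⟨c + x r, r + G.disp x c r⟩ ∈ G.cont q

/-! ### Block P: polygons with rational corners -/

/-- piecewise linear interpolation -/
noncomputable def chainVal : List (ℚ × ℚ) → ℝ → ℝ
  | [], _ => 0
  | [p], _ => p.2
  | p :: r :: L, x => if x ≤ r.1 then p.2 + (x - p.1) / (r.1 - p.1) * (r.2 - p.2)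
      else chainVal (r :: L) x

/-- the abscissas are strictly increasing -/
def StrictX (L : List (ℚ × ℚ)) : Prop := L.Pairwise fun p r => p.1 < r.1

/-- P4: polygons between two chains -/
def P4Stmt : Prop := ∀ (L U : List (ℚ × ℚ)) (a b : ℚ), StrictX L → StrictX U → a < b →
  (∃ y, L.head? = some (a, y)) → (∃ y, U.head? = some (a, y)) →
  (∃ y, L.getLast? = some (b, y)) → (∃ y, U.getLast? = some (b, y)) →
  (∀ x : ℝ, (a : ℝ) ≤ x → x ≤ b → chainVal L x < chainVal U x) →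
  IsSimple (L ++ U.reverse) ∧
  region (L ++ U.reverse) = {z : ℂ | (a : ℝ) ≤ z.re ∧ z.re ≤ b ∧ chainVal L z.re ≤ z.im ∧
    z.im ≤ chainVal U z.re}

/-- P5: polygons between two chains, with recesses of width `δ` at both ends at the heights
`[2 i + 1, 2 i + 2]`, `i < n` -/
def P5Stmt : Prop := ∀ (F C : List (ℚ × ℚ)) (M δ : ℚ) (n : ℕ), StrictX F → StrictX C → 0 < M →
  0 < δ → F.head? = some (0, 0) → F.getLast? = some (M, 0) →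
  C.head? = some (0, (2 * n + 1 : ℚ)) → C.getLast? = some (M, (2 * n + 1 : ℚ)) →
  (∀ x : ℝ, (0 : ℝ) ≤ x → x ≤ M → chainVal F x < 1 / 2 ∧ 2 * n + 1 / 2 < chainVal C x) →
  IsSimple (F ++ ((List.range n).flatMap fun i : ℕ => [(M, 2 * (i : ℚ) + 1), (M + δ, 2 * (i : ℚ) + 1),
    (M + δ, 2 * (i : ℚ) + 2), (M, 2 * (i : ℚ) + 2)]) ++ C.reverse ++
    ((List.range n).flatMap fun i : ℕ => [((0 : ℚ), 2 * (i : ℚ) + 1), (-δ, 2 * (i : ℚ) + 1),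
    (-δ, 2 * (i : ℚ) + 2), ((0 : ℚ), 2 * (i : ℚ) + 2)]).reverse) ∧
  region (F ++ ((List.range n).flatMap fun i : ℕ => [(M, 2 * (i : ℚ) + 1), (M + δ, 2 * (i : ℚ) + 1),
    (M + δ, 2 * (i : ℚ) + 2), (M, 2 * (i : ℚ) + 2)]) ++ C.reverse ++
    ((List.range n).flatMap fun i : ℕ => [((0 : ℚ), 2 * (i : ℚ) + 1), (-δ, 2 * (i : ℚ) + 1),
    (-δ, 2 * (i : ℚ) + 2), ((0 : ℚ), 2 * (i : ℚ) + 2)]).reverse) =
  {z : ℂ | 0 ≤ z.re ∧ z.re ≤ M ∧ chainVal F z.re ≤ z.im ∧ z.im ≤ chainVal C z.re} ∪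
  {z : ℂ | ((-δ ≤ z.re ∧ z.re ≤ 0) ∨ (M ≤ z.re ∧ z.re ≤ M + δ)) ∧
    ∃ r : ℕ, r < 2 * n + 1 ∧ r % 2 = 1 ∧ (r : ℝ) ≤ z.im ∧ z.im ≤ r + 1}

/-- P6: translation of polygons -/
def P6Stmt : Prop := ∀ (P : Polygon) (a b : ℚ), IsSimple P →
  IsSimple (P.map fun p => (p.1 + a, p.2 + b)) ∧
  region (P.map fun p => (p.1 + a, p.2 + b)) = (fun z : ℂ => z + ⟨a, b⟩) '' region P

/-- P7: the chains of a tile -/
def P7Stmt : Prop := ∀ (m : ℕ) (t : Tile), 20 ≤ m →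
  StrictX (t.loPts (qq m)) ∧ StrictX (t.hiPts (qq m)) ∧
  (∀ x : ℝ, t.xl ((1 / 2) ^ m) ≤ x → x ≤ t.xr ((1 / 2) ^ m) →
    chainVal (t.loPts (qq m)) x = (t.sh ((1 / 2) ^ m)).lo x ∧
    chainVal (t.hiPts (qq m)) x = (t.sh ((1 / 2) ^ m)).hi x)

/-- P8: the chains of a lever -/
def P8Stmt : Prop := ∀ (m : ℕ) (σ : Bool), 20 ≤ m →
  StrictX (leverLo (qq m) σ) ∧ StrictX (leverHi (qq m) σ) ∧
  (∀ x : ℝ, 0 ≤ x → x ≤ 1 →
    chainVal (leverLo (qq m) σ) x = (leverSh ((1 / 2) ^ m) σ).lo x ∧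
    chainVal (leverHi (qq m) σ) x = (leverSh ((1 / 2) ^ m) σ).hi x)

/-- P9: the floor and the ceiling -/
def P9Stmt : Prop := ∀ (m : ℕ) (G : Layout), G.OK → 20 ≤ m →
  StrictX (G.floorPts (qq m)) ∧ StrictX (G.ceilPts (qq m)) ∧
  (∀ x : ℝ, 0 ≤ x → x ≤ G.M →
    chainVal (G.floorPts (qq m)) x = G.floorF ((1 / 2) ^ m) x ∧
    chainVal (G.ceilPts (qq m)) x = G.ceilF ((1 / 2) ^ m) x)

end Pool.Agent.Helper2_Pack
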