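import Pool.Agent.Helper2_Pack.Stmts2

/-!
# The algebraic part: from formulas to systems

The word of the formula is read from right to left by a stack machine; `L` is its length.  For
every position `p` and every level `d` there is a real variable.  All gates are local.
-/

namespace Pool.Agent.Helper2_Pack

open Pool.Agent.Helper53_Closed (Formula Sym encInst)

/-- gates: `z i = 0` or `1`, `z i = z j + z k`, `z i = z j * z k` -/
inductive Gate
  | lin (i : ℕ) (b : Bool)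
  | add (i j k : ℕ)
  | mul (i j k : ℕ)

/-- the gate holds -/
def Gate.Holds (z : ℕ → ℝ) : Gate → Prop
  | .lin i b => z i = if b then 1 else 0
  | .add i j k => z i = z j + z k
  | .mul i j k => z i = z j * z k

/-- the variables of a gate -/
def Gate.vars : Gate → List ℕ
  | .lin i _ => [i]
  | .add i j k => [i, j, k]
  | .mul i j k => [i, j, k]

/-! ### The variables -/

/-- level `d` of the stack after reading the positions `≥ p` -/
def nS (L p d : ℕ) : ℕ := p * (L + 1) + d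
/-- the shifted variables -/
def nT (L p k : ℕ) : ℕ := (L + 1) ^ 2 + (p * (L + 1) + k)
/-- the variables of the formula -/
def nX (L k : ℕ) : ℕ := 2 * (L + 1) ^ 2 + k
/-- the value of the binary number -/
def nB (L p : ℕ) : ℕ := 2 * (L + 1) ^ 2 + (L + 1) + p
/-- auxiliary variables, `j < 8` -/
def nA (L p j : ℕ) : ℕ := 2 * (L + 1) ^ 2 + 2 * (L + 1) + (8 * p + j)
/-- zero -/
def nO (L : ℕ) : ℕ := 2 * (L + 1) ^ 2 + 10 * (L + 1)
/-- one -/
def nE (L : ℕ) : ℕ := 2 * (L + 1) ^ 2 + 10 * (L + 1) + 1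
/-- the number of these variables -/
def nV (L : ℕ) : ℕ := 2 * (L + 1) ^ 2 + 10 * (L + 1) + 2

/-! ### The gates -/

/-- a gate which copies a value -/
def cp (L i j : ℕ) : Gate := .add i j (nO L)

/-- a trivial gate -/
def triv (L : ℕ) : Gate := .add (nO L) (nO L) (nO L)

/-- the gates for the stack at the position `p` with letter `a` -/
def stackGate (L p : ℕ) (a : Sym) (d : ℕ) : Gate :=
  match a with
  | .plus | .minus | .zero | .one | .tick | .stop | .fin => cp L (nS L p d) (nS L (p + 1) d)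
  | .var | .const => if d < L then cp L (nS L p (d + 1)) (nS L (p + 1) d) else triv L
  | .add | .mul | .and | .or =>
    if 1 ≤ d ∧ d < L then cp L (nS L p d) (nS L (p + 1) (d + 1)) else triv L
  | .eq | .gt | .ge | .not => if 1 ≤ d then cp L (nS L p d) (nS L (p + 1) d) else triv L

/-- the gates for the shifted variables -/
def regGate (L p : ℕ) (a : Sym) (k : ℕ) : Gate :=
  match a with
  | .tick => if k < L then cp L (nT L p k) (nT L (p + 1) (k + 1)) else triv L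
  | .stop => cp L (nT L p k) (nX L k)
  | _ => triv L

/-- the other gates -/
def extra (L p : ℕ) (a : Sym) : List Gate :=
  match a with
  | .var => [cp L (nS L p 0) (nT L (p + 1) 0)]
  | .const => [cp L (nS L p 0) (nB L (p + 1))]
  | .plus => [cp L (nB L p) (nB L (p + 1))]
  | .minus => [.add (nO L) (nB L p) (nB L (p + 1))]
  | .zero => [.add (nB L p) (nB L (p + 1)) (nB L (p + 1))]
  | .one => [.add (nA L p 0) (nB L (p + 1)) (nB L (p + 1)), .add (nB L p) (nA L p 0) (nE L)]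
  | .tick => []
  | .stop => [cp L (nB L p) (nO L)]
  | .add => [.add (nS L p 0) (nS L (p + 1) 0) (nS L (p + 1) 1)]
  | .mul => [.mul (nS L p 0) (nS L (p + 1) 0) (nS L (p + 1) 1)]
  | .eq => [.mul (nS L p 0) (nS L p 0) (nS L p 0),
      .mul (nA L p 2) (nS L (p + 1) 0) (nA L p 0),
      .add (nA L p 2) (nA L p 3) (nE L),
      .add (nE L) (nA L p 4) (nS L p 0),
      .mul (nA L p 5) (nS L p 0) (nS L (p + 1) 0),
      .mul (nA L p 6) (nA L p 4) (nA L p 3),
      .add (nO L) (nA L p 5) (nA L p 6)]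
  | .gt => [.mul (nS L p 0) (nS L p 0) (nS L p 0),
      .mul (nA L p 1) (nA L p 0) (nA L p 0),
      .mul (nA L p 2) (nS L (p + 1) 0) (nA L p 1),
      .add (nA L p 2) (nA L p 3) (nE L),
      .add (nE L) (nA L p 4) (nS L p 0),
      .add (nA L p 7) (nS L (p + 1) 0) (nA L p 1),
      .mul (nA L p 5) (nS L p 0) (nA L p 3),
      .mul (nA L p 6) (nA L p 4) (nA L p 7),
      .add (nO L) (nA L p 5) (nA L p 6)]
  | .ge => [.mul (nS L p 0) (nS L p 0) (nS L p 0),
      .mul (nA L p 1) (nA L p 0) (nA L p 0),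
      .mul (nA L p 2) (nS L (p + 1) 0) (nA L p 1),
      .add (nA L p 3) (nA L p 2) (nE L),
      .add (nE L) (nA L p 4) (nS L p 0),
      .add (nS L (p + 1) 0) (nA L p 7) (nA L p 1),
      .mul (nA L p 5) (nS L p 0) (nA L p 7),
      .mul (nA L p 6) (nA L p 4) (nA L p 3),
      .add (nO L) (nA L p 5) (nA L p 6)]
  | .fin => []
  | .and => [.mul (nS L p 0) (nS L (p + 1) 0) (nS L (p + 1) 1)]
  | .or => [.mul (nA L p 0) (nS L (p + 1) 0) (nS L (p + 1) 1),
      .add (nA L p 1) (nS L (p + 1) 0) (nS L (p + 1) 1),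
      .add (nA L p 1) (nS L p 0) (nA L p 0)]
  | .not => [.add (nE L) (nS L p 0) (nS L (p + 1) 0)]

/-- the number of the first gate of the position `p` -/
def gid (L p : ℕ) : ℕ := 3 + p * (2 * L + 11)

/-- the gates of the position `p` with letter `a`, with their numbers -/
def posGates (L p : ℕ) (a : Sym) : List (ℕ × Gate) :=
  (List.range (L + 1)).map (fun d : ℕ => (gid L p + d, stackGate L p a d)) ++
  (List.range (L + 1)).map (fun k : ℕ => (gid L p + (L + 1) + k, regGate L p a k)) ++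
  (extra L p a).zipIdx.map (fun x : Gate × ℕ => (gid L p + 2 * (L + 1) + x.2, x.1))

/-- all gates with their numbers -/
def tagged (w : List Sym) : List (ℕ × Gate) :=
  [(0, .lin (nO w.length) false), (1, .lin (nE w.length) true),
    (2, cp w.length (nS w.length 0 0) (nE w.length))] ++
  w.zipIdx.flatMap (fun x : Sym × ℕ => posGates w.length x.2 x.1)

/-- the bound for the numbers of the gates -/
def nG (L : ℕ) : ℕ := 3 + L * (2 * L + 11)

/-! ### The constraints -/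

/-- `z (σ + 7) = - ε (z X) ^ 2` -/
def sqCons (X σ : ℕ) : List Con :=
  [.inv X σ, .sum [X, σ + 1] 0, .inv (σ + 1) (σ + 2), .sum [σ, σ + 2, σ + 3] 0,
    .sum [σ + 3, σ + 4, σ + 5] 0, .sum [σ + 4, σ + 6] 0, .sum [σ + 6, σ + 5] 0,
    .inv (σ + 4) (σ + 7)]

/-- `z (π + 26) = - ε z a z b` -/
def prodCons (a b π : ℕ) : List Con :=
  [.sum [a, b, π] 0, .sum [π, π + 1, π + 2] 0, .sum [π + 1, π + 3] 0, .sum [π + 3, π + 2] 0,
    .sum [b, π + 4] 0, .sum [a, π + 4, π + 5] 0, .sum [π + 5, π + 6, π + 7] 0,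
    .sum [π + 6, π + 8] 0, .sum [π + 8, π + 7] 0] ++
  sqCons (π + 1) (π + 9) ++ sqCons (π + 6) (π + 17) ++
  [.sum [π + 16, π + 25] 0, .sum [π + 24, π + 25, π + 26] 0]

/-- the constraints of a gate; `r` is the variable of the scale and the local variables are
`β, …, β + 62` -/
def gateCons (r β : ℕ) : Gate → List Con
  | .lin i b => if b then [.sum [i, β] 0, .sum [β, r] 0] else [.sum [i] 0]
  | .add i j k => [.sum [j, β] 0, .sum [k, β + 1] 0, .sum [i, β, β + 1] 0]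
  | .mul i j k => [.sum [r, β] 0, .sum [β, β + 1] 0, .sum [i, β + 2] 0, .sum [β + 2, β + 3] 0,
      .sum [j, β + 4] 0, .sum [β + 4, β + 5] 0, .sum [k, β + 6] 0, .sum [β + 6, β + 7] 0] ++
      prodCons (β + 1) (β + 3) (β + 8) ++ prodCons (β + 5) (β + 7) (β + 35) ++
      [.sum [β + 34, β + 62] 0, .sum [β + 62, β + 61] 0]

/-- the number of squarings -/
def nK (L : ℕ) : ℕ := 5 * nV L + 7

/-- the variable of the scale -/
def nR (L : ℕ) : ℕ := nV L + 2 + 9 * nK L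

/-- the first local variable of the gates -/
def nL (L : ℕ) : ℕ := nV L + 3 + 9 * nK L

/-- the number of variables of the system -/
def nN (L : ℕ) : ℕ := nL L + 63 * nG L

/-- the scale: `z (nR L) = ε ^ (2 ^ K - 1) / 2 ^ 2 ^ K` -/
def chainCons (L : ℕ) : List Con :=
  [.sum [nV L, nV L + 2] 1, .sum [nV L + 1, nV L + 2] 0, .sum [nV L, nV L + 1] 0] ++
  (List.range (nK L)).flatMap (fun j : ℕ => sqCons (nV L + 2 + 9 * j) (nV L + 2 + 9 * j + 1) ++
    [.sum [nV L + 2 + 9 * j + 8, nV L + 2 + 9 * j + 9] 0])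

/-- the system of a word -/
def sysOf (w : List Sym) : SInst where
  n := nN w.length
  cons := chainCons w.length ++
    (tagged w).flatMap (fun t : ℕ × Gate => gateCons (nR w.length) (nL w.length + 63 * t.1) t.2)

/-! ### The statements -/

/-- L1: the gates express the formula -/
def L1Stmt : Prop := ∀ (n : ℕ) (φ : Formula n),
  (∃ a : Fin n → ℝ, φ.Holds a) ↔ ∃ z : ℕ → ℝ, ∀ t ∈ tagged (encInst ⟨n, φ⟩), t.2.Holds z

/-- L2: there is a solution in a ball of explicit radius -/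
def L2Stmt : Prop := ∀ w : List Sym, (∃ z : ℕ → ℝ, ∀ t ∈ tagged w, t.2.Holds z) →
  ∃ z : ℕ → ℝ, (∀ t ∈ tagged w, t.2.Holds z) ∧
    ∀ i, i < nV w.length → |z i| ≤ 2 ^ 2 ^ (5 * nV w.length + 6)

/-- L3: soundness of the gadgets -/
def L3Stmt : Prop := ∀ (ε : ℝ) (z : ℕ → ℝ), 0 < ε → ε ≤ 1 / 4 → (∀ i, |z i| ≤ 1) →
  (∀ X σ, (∀ c ∈ sqCons X σ, c.Holds ε z) → z (σ + 7) = -(ε * z X ^ 2)) ∧
  (∀ a b π, (∀ c ∈ prodCons a b π, c.Holds ε z) → z (π + 26) = -(ε * (z a * z b))) ∧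
  (∀ r β i j k, (∀ c ∈ gateCons r β (.mul i j k), c.Holds ε z) → z r * z i = z j * z k)

/-- L4: completeness of the gadgets -/
def L4Stmt : Prop := ∀ ε : ℝ, 0 < ε → ε ≤ 1 / 4 →
  (∀ x : ℝ, |x| ≤ 1 / 2 → ∃ v : ℕ → ℝ, (∀ l, |v l| ≤ 1) ∧ v 7 = -(ε * x ^ 2) ∧
    ∀ (z : ℕ → ℝ) (X σ : ℕ), z X = x → (∀ l, l < 8 → z (σ + l) = v l) →
      ∀ c ∈ sqCons X σ, c.Holds ε z) ∧
  (∀ x y : ℝ, |x| ≤ 1 / 2 → |y| ≤ 1 / 2 → ∃ v : ℕ → ℝ, (∀ l, |v l| ≤ 1) ∧
    v 26 = -(ε * (x * y)) ∧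
    ∀ (z : ℕ → ℝ) (a b π : ℕ), z a = x → z b = y → (∀ l, l < 27 → z (π + l) = v l) →
      ∀ c ∈ prodCons a b π, c.Holds ε z)

/-- the value of the scale -/
noncomputable def rho (ε : ℝ) (k : ℕ) : ℝ := ε ^ (2 ^ k - 1) / 2 ^ 2 ^ k

/-- L5: the scale -/
def L5Stmt : Prop := ∀ (ε : ℝ) (L : ℕ), 0 < ε → ε ≤ 1 / 4 →
  (∀ k, 0 < rho ε k ∧ rho ε k ≤ 1 / 2 ^ 2 ^ k ∧ rho ε (k + 1) = ε * rho ε k ^ 2) ∧
  (∀ z : ℕ → ℝ, (∀ i, |z i| ≤ 1) → (∀ c ∈ chainCons L, c.Holds ε z) → z (nR L) = rho ε (nK L)) ∧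
  ∃ v : ℕ → ℝ, (∀ l, |v l| ≤ 1) ∧ ∀ z : ℕ → ℝ, (∀ l, l < 9 * nK L + 3 → z (nV L + l) = v l) →
    z (nR L) = rho ε (nK L) ∧ ∀ c ∈ chainCons L, c.Holds ε z

/-- L6: every gate can be realised -/
def L6Stmt : Prop := ∀ (ε ρ : ℝ) (z₀ : ℕ → ℝ) (g : Gate), 0 < ε → ε ≤ 1 / 4 → 0 < ρ → ρ ≤ 1 / 2 →
  g.Holds z₀ → (∀ i ∈ g.vars, |ρ * z₀ i| ≤ 1 / 2) → ∃ v : ℕ → ℝ, (∀ l, |v l| ≤ 1) ∧
  ∀ (z : ℕ → ℝ) (r β : ℕ), z r = ρ → (∀ i ∈ g.vars, z i = ρ * z₀ i) →
    (∀ l, l < 63 → z (β + l) = v l) → ∀ c ∈ gateCons r β g, c.Holds ε z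

/-- L7: the numbers of the gates and of the variables -/
def L7Stmt : Prop := ∀ w : List Sym, w ≠ [] →
  ((tagged w).map Prod.fst).Nodup ∧
  (∀ t ∈ tagged w, t.1 < nG w.length ∧ ∀ i ∈ t.2.vars, i < nV w.length) ∧ (sysOf w).WF

/-- L8: the system is equivalent to the gates -/
def L8Stmt : Prop := ∀ (w : List Sym) (ε : ℝ), w ≠ [] → 0 < ε → ε ≤ 1 / 4 →
  ((∃ z : ℕ → ℝ, ∀ t ∈ tagged w, t.2.Holds z) ↔ (sysOf w).Solvable ε)

/-- L9: the word of the system is computable in polynomial time -/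
def L9Stmt : Prop := Nonempty (Turing.TM2ComputableInPolyTime (id : List Sym → List Sym)
  (id : List SLetter → List SLetter) (fun w => (sysOf w).enc))

end Pool.Agent.Helper2_Pack
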