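import Pool.Agent.Helper2_Pack.Stmts2
import Pool.Agent.Helper53_Chan.Cond

/-!
# The words of the coordinates, and polynomial time
-/

namespace Pool.Agent.Helper2_Pack

open Pool.Agent.Helper53_CookLevin Pool.Agent.Helper53_Chan

/-! ### Descriptors of coordinates -/

/-- The coordinate `c + a / 32 + (k1 + a2 / 32) q + k3 q³ + k4 q⁴ + q⁵`. -/
structure Dsc where
  c : ℕ
  a : ℕ
  k1 : ℕ
  a2 : ℕ
  k3 : ℕ
  k4 : ℕ
  deriving DecidableEq

/-- the value of a descriptor -/
def Dsc.val (m : ℕ) (d : Dsc) : ℚ :=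
  d.c + d.a / 32 + (d.k1 + d.a2 / 32) * qq m + d.k3 * qq m ^ 3 + d.k4 * qq m ^ 4 + qq m ^ 5

/-- the digits are in range -/
def Dsc.OK (d : Dsc) : Prop := 1 ≤ d.c ∧ d.a < 32 ∧ d.k1 < 32 ∧ d.a2 < 32 ∧ d.k3 < 32 ∧ d.k4 < 32

instance (d : Dsc) : Decidable d.OK := by unfold Dsc.OK; infer_instance

/-- add a natural number -/
def Dsc.sh (k : ℕ) (d : Dsc) : Dsc := { d with c := d.c + k }

/-- `n` binary digits of `k` -/
def fixW (n k : ℕ) : List Letter := (List.range n).map (fun i => if k.testBit i then .one else .zero)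

/-- the word of a descriptor -/
def Dsc.word (m : ℕ) (d : Dsc) : List Letter :=
  .plus :: ([.one] ++ List.replicate (m - 1) .zero ++ fixW 5 d.k4 ++ List.replicate (m - 5) .zero ++
    fixW 5 d.k3 ++ List.replicate (2 * m - 10) .zero ++ fixW 10 (32 * d.k1 + d.a2) ++
    List.replicate (m - 10) .zero ++ fixW 5 d.a ++ bits d.c) ++
    .slash :: (List.replicate (5 * m) .zero ++ [.one, .comma])

/-- a list of pairs of descriptors as a polygon -/
def dPoly (m : ℕ) (l : List (Dsc × Dsc)) : Polygon := l.map fun d => (d.1.val m, d.2.val m)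

/-- the word of a list of pairs of descriptors -/
def dWord (m : ℕ) (l : List (Dsc × Dsc)) : List Letter :=
  l.flatMap (fun d => d.1.word m ++ d.2.word m) ++ [.stop]

/-- T1 -/
def T1Stmt : Prop := ∀ (m : ℕ) (d : Dsc), 60 ≤ m → d.OK → encRat (d.val m) = d.word m

/-- the coordinate `0` -/
def oD : Dsc := ⟨2, 0, 4, 0, 8, 8⟩
/-- the coordinate `q ^ 4` -/
def rD : Dsc := ⟨2, 0, 4, 0, 8, 9⟩
/-- the coordinate `- q ^ 4` -/
def lD : Dsc := ⟨2, 0, 4, 0, 8, 7⟩

/-- the container, when the corners of the floor and of the ceiling of a column are `fD` and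
`cD` -/
def contD (fD : Col → List (Dsc × Dsc)) (cD : Top → List (Dsc × Dsc)) (G : Layout) :
    List (Dsc × Dsc) :=
  [(oD, oD)] ++ (List.range G.M).flatMap (fun c : ℕ =>
    (fD (G.ty c 0).bot).map fun d => (d.1.sh c, d.2)) ++ [(oD.sh G.M, oD)] ++
  (List.range G.n).flatMap (fun i : ℕ => [(oD.sh G.M, oD.sh (2 * i + 1)),
    (rD.sh G.M, oD.sh (2 * i + 1)), (rD.sh G.M, oD.sh (2 * i + 2)),
    (oD.sh G.M, oD.sh (2 * i + 2))]) ++
  ((List.range G.M).flatMap (fun c : ℕ =>
    (cD (G.top c)).map fun d => (d.1.sh c, d.2.sh G.N)) ++ [(oD.sh G.M, oD.sh G.N)]).reverse ++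
  ((List.range G.n).flatMap (fun i : ℕ => [(oD, oD.sh (2 * i + 1)),
    (lD, oD.sh (2 * i + 1)), (lD, oD.sh (2 * i + 2)), (oD, oD.sh (2 * i + 2))])).reverse

/-- T2: descriptors of the shapes, the floor and the ceiling -/
def T2Stmt : Prop := ∃ (sD : Shp → List (Dsc × Dsc)) (fD : Col → List (Dsc × Dsc))
  (cD : Top → List (Dsc × Dsc)),
  (∀ s, ∀ d ∈ sD s, d.1.OK ∧ d.2.OK) ∧ (∀ a, ∀ d ∈ fD a, d.1.OK ∧ d.2.OK) ∧
  (∀ t, (∀ a o, t = .flat a o → o = -1 ∨ o = 0 ∨ o = 1) → ∀ d ∈ cD t, d.1.OK ∧ d.2.OK) ∧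
  (∀ m s, poly m s = dPoly m (sD s)) ∧
  (∀ m (G : Layout), G.OK → G.contPoly m = dPoly m (contD fD cD G))

/-! ### Word generators -/

/-- the common alphabet -/
abbrev CL : Type := SLetter ⊕ Letter

/-- the unary letter -/
def uu : CL := .inl .tick

/-- T3: the binary digits of a number in unary -/
def T3Stmt : Prop := ∀ (k : ℕ) (e : (Fin k → List CL) → ℕ),
  PGen k (fun ρ => List.replicate (e ρ) uu) → PGen k (fun ρ => (bits (e ρ)).map Sum.inr)

/-- T4: the word of a descriptor with a variable integer part -/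
def T4Stmt : Prop := ∀ (k : ℕ) (d : Dsc) (e m : (Fin k → List CL) → ℕ),
  PGen k (fun ρ => List.replicate (e ρ) uu) → PGen k (fun ρ => List.replicate (m ρ) uu) →
  PGen k (fun ρ => ((d.sh (e ρ)).word (m ρ)).map Sum.inr)

/-! ### Reading the word of a system -/

/-- the letters which end a constraint -/
def isEnd : SLetter → Bool
  | .neg | .zer | .one | .inv => true
  | _ => false

/-- the lengths of the runs of `tick` which are ended by `sep` -/
def runsAux : ℕ → List SLetter → List ℕ
  | _, [] => []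
  | k, .tick :: w => runsAux (k + 1) w
  | k, .sep :: w => k :: runsAux 0 w
  | _, _ :: w => runsAux 0 w

/-- the constraint of a word -/
def conOf (w : List SLetter) : Con :=
  match w.getLast? with
  | some .inv => .inv ((runsAux 0 w).getD 0 0) ((runsAux 0 w).getD 1 0)
  | some .neg => .sum (runsAux 0 w) (-1)
  | some .zer => .sum (runsAux 0 w) 0
  | _ => .sum (runsAux 0 w) 1

/-- the number of `tick`s in front of the first other letter -/
def nOf (v : List SLetter) : ℕ := (v.takeWhile (· == .tick)).length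

/-- the part after the first letter which is not `tick` -/
def bodyOf (v : List SLetter) : List SLetter := (v.dropWhile (· == .tick)).tail

/-- the constraint words; the last incomplete one is dropped -/
def segsAux : List SLetter → List SLetter → List (List SLetter)
  | _, [] => []
  | u, a :: w => if isEnd a then (u ++ [a]) :: segsAux [] w else segsAux (u ++ [a]) w

/-- the system of a word -/
def sysOfWord (v : List SLetter) : SInst := ⟨nOf v, (segsAux [] (bodyOf v)).map conOf⟩

/-- T5: reading the word of a system -/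
def T5Stmt : Prop := ∀ S : SInst, S.WF → sysOfWord S.enc = S

/-- T6: generators for the parts of a word; `b` is the number of a constraint -/
def T6Stmt : Prop := ∀ (k : ℕ) (v : (Fin k → List CL) → List SLetter),
  PGen k (fun ρ => (v ρ).map Sum.inl) →
  PGen k (fun ρ => List.replicate (nOf (v ρ)) uu) ∧
  PGen k (fun ρ => List.replicate (segsAux [] (bodyOf (v ρ))).length uu) ∧
  ∀ b : (Fin k → List CL) → ℕ, PGen k (fun ρ => List.replicate (b ρ) uu) →
    PGen k (fun ρ => ((segsAux [] (bodyOf (v ρ))).getD (b ρ) []).map Sum.inl)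

/-- T7: tests for the cells of a block; `u` is the word of the constraint -/
def T7Stmt : Prop := ∀ (k : ℕ) (u : (Fin k → List CL) → List SLetter)
  (n o r : (Fin k → List CL) → ℕ), PGen k (fun ρ => (u ρ).map Sum.inl) →
  PGen k (fun ρ => List.replicate (n ρ) uu) → PGen k (fun ρ => List.replicate (o ρ) uu) →
  PGen k (fun ρ => List.replicate (r ρ) uu) →
  Test k (fun ρ => dcell (n ρ) (conOf (u ρ)) (o ρ) (r ρ) = true) ∧
  Test k (fun ρ => vcell (n ρ) (conOf (u ρ)) (o ρ) (r ρ) = true)

/-- T8: generators which depend on the tile in a cell of a block -/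
def T8Stmt : Prop := ∀ (k : ℕ) (u : (Fin k → List CL) → List SLetter)
  (n o r : (Fin k → List CL) → ℕ) (σ : Bool) (F : Tile → (Fin k → List CL) → List CL)
  (F' : Top → (Fin k → List CL) → List CL), PGen k (fun ρ => (u ρ).map Sum.inl) →
  PGen k (fun ρ => List.replicate (n ρ) uu) → PGen k (fun ρ => List.replicate (o ρ) uu) →
  PGen k (fun ρ => List.replicate (r ρ) uu) → (∀ t, PGen k (F t)) → (∀ t, PGen k (F' t)) →
  PGen k (fun ρ => F (blockTile (n ρ) σ (conOf (u ρ)) (o ρ) (r ρ)) ρ) ∧
  PGen k (fun ρ => F' (blockTop (n ρ) σ (conOf (u ρ)) (o ρ)) ρ)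

/-- the parameter `m` as a function of the length of the word of the system -/
def mOf (l : ℕ) : ℕ := 16 * l * (2 * l + 2) ^ 2 + 60

/-- T9: the parameter is large enough -/
def T9Stmt : Prop := ∀ S : SInst, S.WF → 8 * S.layout.K + 60 ≤ mOf S.enc.length

/-- the system in the first variable -/
def sysAt {k : ℕ} (ρ : Fin (k + 1) → List CL) : SInst :=
  sysOfWord ((ρ 0).filterMap Sum.getLeft?)

/-- T10: the word of the container -/
def T10Stmt : Prop := ∀ (fD : Col → List (Dsc × Dsc)) (cD : Top → List (Dsc × Dsc)),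
  PGen 1 (fun ρ : Fin 1 → List CL =>
    (dWord (mOf (ρ 0).length) (contD fD cD (sysAt ρ).layout)).map Sum.inr)

/-- T11: the words of the pieces -/
def T11Stmt : Prop := ∀ sD : Shp → List (Dsc × Dsc),
  PGen 1 (fun ρ : Fin 1 → List CL =>
    ((sysAt ρ).layout.shapes.flatMap fun s => dWord (mOf (ρ 0).length) (sD s)).map Sum.inr)

end Pool.Agent.Helper2_Pack
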